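import Pool.Agent.Tron.Core

namespace Pool.Agent.Tron

open Finset

variable {V : Type*} [Fintype V]

theorem exists_deepest (T : TM V) (r r' : V) (hadj : T.d r r' = 1) :
    ∃ t, T.d r t < T.d r' t ∧ ∀ y, T.d r y < T.d r' y → T.d r y ≤ T.d r t := by
  obtain ⟨t, ht, hmax⟩ := Finset.exists_max_image (sideSet T r r') (fun y => T.d r y)
    ⟨r, by rw [mem_side, T.self, T.symm, hadj]; norm_num⟩
  exact ⟨t, mem_side.1 ht, fun y hy => hmax y (mem_side.2 hy)⟩

theorem core [Nonempty V] (T : TM V) {m : ℕ} (hm : 1 ≤ m) (hn : Fintype.card V + 1 ≤ 10 * m)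
    (hall : ∀ u, ∃ v ω, GoodW T m u v ω) : False := by
  classical
  choose f ω hG using hall
  have hpos : ∀ u, 1 ≤ T.d u (f u) := by
    intro u
    obtain ⟨h1, h2, _⟩ := hG u
    omega
  choose nx hn1 hn2 using fun u => T.geo u (f u) 1 (hpos u)
  obtain ⟨u, _, hmin⟩ := Finset.exists_min_image (univ : Finset V)
    (fun u => (sideSet T (nx u) u).card) Finset.univ_nonempty
  set w := nx u with hw
  have hadj : T.d w u = 1 := by rw [T.symm]; exact hn1 u
  have huw : T.d u w = 1 := hn1 u
  have hflip : T.d u (f w) < T.d w (f w) := by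
    rcases side_or hadj (f w) with h | h
    · exfalso
      have hlt : (sideSet T (nx w) w).card < (sideSet T w u).card := by
        apply Finset.card_lt_card
        rw [Finset.ssubset_iff_subset_ne]
        constructor
        · intro y hy
          rw [mem_side] at hy ⊢
          rcases side_or hadj y with h' | h'
          · exact h'
          · exfalso
            have h1 := T.four u (nx w) w y
            have h2 := hn1 w
            have h3 := hn2 w
            have h4 := T.symm w (nx w)
            have h0 : T.d u (nx w) = 0 := by omega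
            have h5 := T.eq_of _ _ h0
            rw [← h5] at h3
            omega
        · intro he
          have hwm : w ∈ sideSet T w u := by rw [mem_side, T.self, huw]; norm_num
          rw [← he, mem_side, T.self] at hwm
          omega
      have := hmin w (Finset.mem_univ _)
      omega
    · exact h
  have hv1 : T.d w (f u) < T.d u (f u) := by
    have := hn2 u
    rw [← hw] at this
    omega
  obtain ⟨t, ht1, ht2⟩ := exists_deepest T w u hadj
  obtain ⟨t', ht1', ht2'⟩ := exists_deepest T u w huw
  have hf : Fl T w u t t' (T.d w t) (T.d u t') := ⟨hadj, ht1, ht1', rfl, rfl, ht2, ht2'⟩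
  have hall' : ∀ u, ∃ v ω, GoodW T m u v ω := fun u => ⟨f u, ω u, hG u⟩
  rcases le_total (T.d w t) (T.d u t') with hle | hle
  · exact core2 hf hle hm hn hv1 (hG u) hflip (hG w) hall'
  · exact core2 hf.swap hle hm hn hflip (hG w) hv1 (hG u) hall'

end Pool.Agent.Tron
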