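import Pool.Agent.Tron.Game

namespace Pool.Agent.Tron

open Finset

set_option linter.unusedSectionVars false

section Metric

variable {V : Type*} (T : TM V)

theorem plan_facts {u v a y z : V} {i : ℕ} (ha1 : T.d u a = i) (ha2 : T.mt u v a = i)
    (hy : i ≤ T.mt u v y) (hz : T.d a z + T.d z y = T.d a y) (hza : z ≠ a) :
    i < T.d u z ∧ T.mt u v z ≤ T.mt u v y := by
  have h1 := T.mt_three u a v y
  have h2 := T.mt_le_left u a y
  have h3 := T.mt_spec u a y
  have h4 := T.tri u z y
  have h5 := T.tri u a z
  have h6 : T.d a z ≠ 0 := fun h => hza (T.eq_of _ _ h).symm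
  have h7 := T.mt_spec u z y
  have h8 := T.mt_three u v z y
  have h9 := T.mt_le_right u v z
  have h10 := T.mt_comm u a v
  have h11 : T.mt u a y = i := by omega
  have h12 : T.d u z = i + T.d a z := by omega
  have h13 : T.mt u z y = T.d u z := by omega
  constructor <;> omega

theorem off_edge {u v z z' : V} (h : T.d z z' = 1) (hne : T.mt u v z ≠ T.mt u v z') :
    T.mt u v z' = T.d u z' ∧ (T.mt u v z = T.mt u v z' + 1 ∨ T.mt u v z' = T.mt u v z + 1) := by
  have h1 := T.mt_three u v z z'
  have h2 := T.mt_le_right u v z
  have h3 := T.mt_le_right u v z'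
  have h4 := T.mt_spec u z z'
  omega

theorem onp_iff {u v z : V} : T.mt u v z = T.d u z ↔ T.d u z + T.d v z = T.d u v := by
  have := T.mt_spec u v z
  omega

theorem onp_unique {u v z z' : V} (h : T.mt u v z = T.d u z) (h' : T.mt u v z' = T.d u z')
    (he : T.d u z = T.d u z') : z = z' := by
  have h1 := T.mt_three u v z z'
  have h2 := T.mt_spec u z z'
  exact T.eq_of _ _ (by omega)

end Metric

variable {V : Type*} [Fintype V] {G : SimpleGraph V} (hG : G.IsTree)

open scoped Classical in
/-- claimed vertices while both players walk towards each other -/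
noncomputable def Sset (u v : V) (i : ℕ) : Finset V :=
  univ.filter (fun z => (ofTree hG).mt u v z = (ofTree hG).d u z ∧
    ((ofTree hG).d u z ≤ i ∨ (ofTree hG).d v z ≤ i))

theorem mem_Sset {u v z : V} {i : ℕ} : z ∈ Sset hG u v i ↔
    (ofTree hG).mt u v z = (ofTree hG).d u z ∧
      ((ofTree hG).d u z ≤ i ∨ (ofTree hG).d v z ≤ i) := by
  simp [Sset]

/-- Alice deviates at level `i`. -/
theorem devA {c : ℝ} (hc : 0 ≤ c) {m : ℕ} (hm : 1 ≤ m) {u v a b y : V} {i n : ℕ}
    (hi : 2 * i < (ofTree hG).d u v)
    (ha1 : (ofTree hG).d u a = i) (ha2 : (ofTree hG).mt u v a = i)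
    (hb1 : (ofTree hG).d v b = i) (hb2 : (ofTree hG).mt u v b = (ofTree hG).d u b)
    (hn : Fintype.card V ≤ n + (Sset hG u v i).card)
    (hval : c * ((m : ℝ) - 1) < playValue G (fun _ => c) n true (Sset hG u v i) a b)
    (hy : (ofTree hG).mt u v y = i) :
    ∃ e, i < (ofTree hG).mt u v e ∧ (ofTree hG).mt u v e + i ≤ (ofTree hG).d u v ∧
      m + (ofTree hG).d u y ≤ (ofTree hG).d v e := by
  by_contra hcon
  push Not at hcon
  set T := ofTree hG with hT
  have hyy := T.mt_le_right u v y
  obtain ⟨M, hM⟩ : ∃ M, M + 1 = m + T.d u y := ⟨m + T.d u y - 1, by omega⟩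
  have hbD := (onp_iff T).1 hb2
  have hS : Sep hG v y {e | i < T.mt u v e ∧ T.mt u v e + i ≤ T.d u v} (Sset hG u v i) a b := by
    refine ⟨?_, ?_, ?_, ?_, ?_⟩
    · intro z hz1 hz2
      obtain ⟨g1, g2⟩ := plan_facts T ha1 ha2 (by omega) hz1 hz2
      constructor
      · rw [mem_Sset]
        rintro ⟨k1, k2⟩
        have k3 := (onp_iff T).1 k1
        simp only [← hT] at *
        omega
      · rintro ⟨k1, _⟩
        omega
    · show i < T.mt u v b ∧ T.mt u v b + i ≤ T.d u v
      omega
    · rw [mem_Sset]
      exact ⟨hb2, Or.inr hb1.le⟩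
    · intro z hz z' hz' hz''
      have hz1 : i < T.mt u v z ∧ T.mt u v z + i ≤ T.d u v := hz
      have hz2 : ¬ (i < T.mt u v z' ∧ T.mt u v z' + i ≤ T.d u v) := hz''
      obtain ⟨g1, g2⟩ := off_edge T (u := u) (v := v) (z := z) (z' := z') hz' (by
        intro he; rw [he] at hz1; exact hz2 hz1)
      rw [mem_Sset]
      refine ⟨g1, ?_⟩
      have g3 := (onp_iff T).1 g1
      simp only [← hT]
      omega
    · intro z hz1 hz2
      rcases adj_pm T v (x := b) (y := z) hz1 with h' | h'
      · exact h'
      · exfalso
        apply hz2
        rw [mem_Sset]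
        have h1 := T.tri u b z
        have h2 := T.tri u z v
        have h3 := T.symm z v
        have h4 := T.symm b v
        have h5 : T.d b z = 1 := hz1
        have h6 : T.d u z + T.d v z = T.d u v := by omega
        exact ⟨(onp_iff T).2 h6, Or.inr (by simp only [← hT]; omega)⟩
  have hb := sep_bound hG c hc v _ M (by
    intro e he
    have := hcon e he.1 he.2
    rw [← hT]
    omega) n true _ a b y hn hS
  have h1 := T.mt_spec u a y
  have h2 := T.mt_three u a v y
  have h3 := T.mt_le_left u a y
  have h4 := T.mt_comm u a v
  have h5 : T.d a y + i = T.d u y := by omega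
  have h6 : (M : ℝ) + 1 = m + T.d u y := by exact_mod_cast hM
  have h7 : (T.d a y : ℝ) + i = T.d u y := by exact_mod_cast h5
  have h8 : ((M : ℝ) - (ofTree hG).d v b - (ofTree hG).d a y) = (m : ℝ) - 1 := by
    rw [← hT, hb1]
    linarith
  rw [h8] at hb
  linarith

open scoped Classical in
/-- Bob has deviated at level `ω`. -/
theorem devB {c : ℝ} (hc : 0 ≤ c) {m : ℕ} (hm : 1 ≤ m) {u v a b x y : V} {i n ω : ℕ}
    (hω : ω + i = (ofTree hG).d u v)
    (ha1 : (ofTree hG).d u a = i + 1) (ha2 : (ofTree hG).mt u v a = i + 1)
    (hb1 : (ofTree hG).d v b = i) (hb2 : (ofTree hG).mt u v b = (ofTree hG).d u b)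
    (hx1 : (ofTree hG).d b x = 1) (hx2 : (ofTree hG).mt u v x = ω)
    (hx3 : (ofTree hG).d u x = ω + 1)
    (hn : Fintype.card V ≤ n + (insert x (insert a (Sset hG u v i))).card)
    (hval : c * ((m : ℝ) - 1) <
      playValue G (fun _ => c) n true (insert x (insert a (Sset hG u v i))) a x)
    (hy1 : i + 1 ≤ (ofTree hG).mt u v y) (hy2 : (ofTree hG).mt u v y < ω) :
    ∃ e, (ofTree hG).mt u v e = ω ∧ m + (ofTree hG).d u y ≤ (ofTree hG).d v e := by
  by_contra hcon
  push Not at hcon
  set T := ofTree hG with hT
  have hyy := T.mt_le_right u v y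
  obtain ⟨M, hM⟩ : ∃ M, M + 1 = m + T.d u y := ⟨m + T.d u y - 1, by omega⟩
  have hbD := (onp_iff T).1 hb2
  have hvx : T.d v x = i + 1 := by
    have := T.mt_spec u v x
    omega
  have hS : Sep hG v y {e | T.mt u v e = ω ∧ T.d u e ≠ ω}
      (insert x (insert a (Sset hG u v i))) a x := by
    refine ⟨?_, ⟨hx2, by omega⟩, Finset.mem_insert_self _ _, ?_, ?_⟩
    · intro z hz1 hz2
      obtain ⟨g1, g2⟩ := plan_facts T ha1 ha2 (by omega) hz1 hz2
      constructor
      · rw [Finset.mem_insert, Finset.mem_insert, mem_Sset, not_or, not_or]
        refine ⟨?_, hz2, ?_⟩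
        · rintro rfl; omega
        · rintro ⟨k1, k2⟩
          have k3 := (onp_iff T).1 k1
          simp only [← hT] at *
          omega
      · rintro ⟨k1, _⟩
        omega
    · intro z hz z' hz' hz''
      have hz1 : T.mt u v z = ω ∧ T.d u z ≠ ω := hz
      have hz2 : ¬ (T.mt u v z' = ω ∧ T.d u z' ≠ ω) := hz''
      have hzz : T.d z' z = 1 := by rw [T.symm]; exact hz'
      have g0 : T.mt u v z' = ω := by
        by_contra hne
        obtain ⟨g1, g2⟩ := off_edge T (u := u) (v := v) (z := z') (z' := z) hzz (by omega)
        omega
      have g1 : T.d u z' = ω := by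
        by_contra hne
        exact hz2 ⟨g0, hne⟩
      rw [Finset.mem_insert, Finset.mem_insert, mem_Sset]
      right; right
      have g2 : T.mt u v z' = T.d u z' := by omega
      have g3 := (onp_iff T).1 g2
      exact ⟨g2, Or.inr (by simp only [← hT]; omega)⟩
    · intro z hz1 hz2
      rcases adj_pm T v (x := x) (y := z) hz1 with h' | h'
      · exact h'
      · exfalso
        have hzb : z = b := unique_parent T (b' := x) (v := v)
          (by rw [T.symm]; exact hx1) hz1 (by omega) h'
        apply hz2
        rw [Finset.mem_insert, Finset.mem_insert, mem_Sset, hzb]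
        exact Or.inr (Or.inr ⟨hb2, Or.inr hb1.le⟩)
  have hb := sep_bound hG c hc v _ M (by
    intro e he
    have := hcon e he.1
    rw [← hT]
    omega) n true _ a x y hn hS
  have h1 := T.mt_spec u a y
  have h2 := T.mt_three u a v y
  have h3 := T.mt_le_left u a y
  have h4 := T.mt_comm u a v
  have h5 : T.d a y + (i + 1) = T.d u y := by omega
  have h6 : (M : ℝ) + 1 = m + T.d u y := by exact_mod_cast hM
  have h7 : (T.d a y : ℝ) + (i + 1) = T.d u y := by exact_mod_cast h5
  have h8 : ((M : ℝ) - (ofTree hG).d v x - (ofTree hG).d a y) = (m : ℝ) - 1 := by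
    rw [← hT, hvx]
    push_cast
    linarith
  rw [h8] at hb
  linarith

theorem walk_phase {c : ℝ} (hc : 0 < c) {m : ℕ} (hm : 1 ≤ m) (u v : V) :
    ∀ (K i n : ℕ) (a b : V), (ofTree hG).d u v ≤ 2 * i + K → 2 * i < (ofTree hG).d u v →
    (ofTree hG).d u a = i → (ofTree hG).mt u v a = i →
    (ofTree hG).d v b = i → (ofTree hG).mt u v b = (ofTree hG).d u b →
    Fintype.card V ≤ n + (Sset hG u v i).card →
    (∀ y, (ofTree hG).mt u v y < i → ∃ e, (ofTree hG).mt u v y < (ofTree hG).mt u v e ∧
      m + (ofTree hG).d u y ≤ (ofTree hG).d v e) →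
    c * ((m : ℝ) - 1) < playValue G (fun _ => c) n true (Sset hG u v i) a b →
    ∃ ω, GoodW (ofTree hG) m u v ω := by
  classical
  intro K
  induction K with
  | zero => intro i n a b h1 h2; omega
  | succ K ih =>
    intro i n a b hK hi ha1 ha2 hb1 hb2 hn hQ hval
    have hA : ∀ y, (ofTree hG).mt u v y = i → ∃ e, i < (ofTree hG).mt u v e ∧
        (ofTree hG).mt u v e + i ≤ (ofTree hG).d u v ∧
        m + (ofTree hG).d u y ≤ (ofTree hG).d v e := fun y hy =>
      devA hG hc.le hm hi ha1 ha2 hb1 hb2 hn hval hy
    set T := ofTree hG with hT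
    set D := T.d u v with hD
    have hbD := (onp_iff T).1 hb2
    have hQ' : ∀ y, T.mt u v y < i + 1 → ∃ e, T.mt u v y < T.mt u v e ∧
        m + T.d u y ≤ T.d v e := by
      intro y hy
      rcases Nat.lt_or_ge (T.mt u v y) i with h | h
      · exact hQ y h
      · obtain ⟨e, he1, _, he3⟩ := hA y (by omega)
        exact ⟨e, by omega, he3⟩
    by_cases hadj : D = 2 * i + 1
    · -- the players are adjacent
      obtain ⟨e, he1, he2, he3⟩ := hA a ha2
      refine ⟨i + 1, by omega, by omega, ⟨e, by omega, by omega⟩, hQ'⟩
    · -- Alice walks on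
      obtain ⟨a', ha'1, ha'2⟩ := T.geo u v (i + 1) (by omega)
      have hva' : T.d v a' = T.d a' v := T.symm _ _
      have ha'3 : T.mt u v a' = T.d u a' := (onp_iff T).2 (by omega)
      have haa' : T.d a a' = 1 := by
        have h1 := T.mt_spec u a a'
        have h2 := T.mt_three u v a a'
        have h3 := T.mt_le_left u a a'
        omega
      have ha'S : a' ∉ Sset hG u v i := by
        rw [mem_Sset]
        rintro ⟨_, h⟩
        simp only [← hT] at h
        omega
      -- n is positive
      obtain ⟨n, rfl⟩ : ∃ n', n = n' + 1 := by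
        refine ⟨n - 1, ?_⟩
        have h1 : (Sset hG u v i).card < Fintype.card V := by
          rw [← Finset.card_univ]
          apply Finset.card_lt_card
          rw [Finset.ssubset_univ_iff]
          intro h
          rw [h] at ha'S
          exact ha'S (Finset.mem_univ _)
        omega
      have ha'm : a' ∈ moves G (Sset hG u v i) a :=
        mem_moves.2 ⟨(adj_iff hG a a').2 haa', ha'S⟩
      have hv1 : c * (m : ℝ) < playValue G (fun _ => c) n false
          (insert a' (Sset hG u v i)) a' b := by
        have h1 : playValue G (fun _ => c) (n + 1) true (Sset hG u v i) a b ≤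
            playValue G (fun _ => c) n false (insert a' (Sset hG u v i)) a' b - c := by
          rw [playValue, dif_pos ⟨a', ha'm⟩]
          exact Finset.inf'_le _ ha'm
        nlinarith
      have hn1 : Fintype.card V ≤ n + (insert a' (Sset hG u v i)).card := by
        rw [Finset.card_insert_of_notMem ha'S]
        omega
      -- Bob's turn
      cases n with
      | zero =>
        exfalso
        have : playValue G (fun _ => c) 0 false (insert a' (Sset hG u v i)) a' b = 0 := rfl
        rw [this] at hv1
        have : 0 ≤ c * (m : ℝ) := by positivity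
        linarith
      | succ n =>
        by_cases hBm : (moves G (insert a' (Sset hG u v i)) b).Nonempty
        · rw [playValue, dif_pos hBm] at hv1
          obtain ⟨x, hx, hxv⟩ := Finset.exists_mem_eq_sup' hBm
            (fun x => playValue G (fun _ => c) n true
              (insert x (insert a' (Sset hG u v i))) a' x + c)
          rw [hxv] at hv1
          obtain ⟨hx1, hx2⟩ := mem_moves.1 hx
          have hx1' : T.d b x = 1 := (adj_iff hG b x).1 hx1
          have hv2 : c * ((m : ℝ) - 1) < playValue G (fun _ => c) n true
              (insert x (insert a' (Sset hG u v i))) a' x := by linarith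
          have hn2 : Fintype.card V ≤ n + (insert x (insert a' (Sset hG u v i))).card := by
            rw [Finset.card_insert_of_notMem hx2]
            omega
          rw [Finset.mem_insert, mem_Sset, not_or] at hx2
          obtain ⟨hx3, hx4⟩ := hx2
          by_cases hxp : T.mt u v x = T.d u x
          · -- Bob walks on
            have hxD := (onp_iff T).1 hxp
            have hvx : T.d v x = i + 1 := by
              rcases adj_pm T v hx1' with h' | h'
              · omega
              · exfalso
                apply hx4
                exact ⟨hxp, Or.inr (by simp only [← hT]; omega)⟩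
            have hux : T.d u x ≠ i + 1 := by
              intro he
              exact hx3 (onp_unique T hxp ha'3 (by omega))
            have hux2 : ¬ T.d u x ≤ i := by
              intro he
              exact hx4 ⟨hxp, Or.inl he⟩
            have hSS : insert x (insert a' (Sset hG u v i)) = Sset hG u v (i + 1) := by
              ext z
              rw [Finset.mem_insert, Finset.mem_insert, mem_Sset, mem_Sset]
              simp only [← hT]
              constructor
              · rintro (rfl | rfl | ⟨h1, h2⟩)
                · exact ⟨hxp, Or.inr (by omega)⟩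
                · exact ⟨ha'3, Or.inl (by omega)⟩
                · exact ⟨h1, by omega⟩
              · rintro ⟨h1, h2⟩
                have h3 := (onp_iff T).1 h1
                by_cases h4 : T.d u z = i + 1
                · right; left
                  exact onp_unique T h1 ha'3 (by omega)
                · by_cases h5 : T.d v z = i + 1
                  · left
                    exact onp_unique T h1 hxp (by omega)
                  · right; right
                    exact ⟨h1, by omega⟩
            rw [hSS] at hv2 hn2
            exact ih (i + 1) n a' x (by omega) (by omega) ha'1 (by omega) hvx hxp hn2 hQ' hv2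
          · -- Bob deviates
            have hux : T.mt u v x = D - i ∧ T.d u x = D - i + 1 := by
              by_cases he : T.mt u v b = T.mt u v x
              · have h1 := adj_pm T u hx1'
                have h2 := T.mt_le_right u v x
                omega
              · exfalso
                exact hxp (off_edge T hx1' he).1
            have hB := fun y => devB hG hc.le hm (u := u) (v := v) (a := a') (b := b) (x := x)
              (y := y) (i := i) (n := n) (ω := D - i) (by rw [← hT]; omega) ha'1
              (by rw [← hT]; omega) hb1 hb2 hx1'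
              hux.1 hux.2 hn2 hv2
            -- the vertex just before the deviation level
            obtain ⟨p, hp1, hp2⟩ := T.geo u v (D - i - 1) (by omega)
            have hp3 : T.d v p = T.d p v := T.symm _ _
            have hp4 : T.mt u v p = T.d u p := (onp_iff T).2 (by omega)
            obtain ⟨e, he1, he2⟩ := hB p (by simp only [← hT]; omega) (by
              simp only [← hT]; omega)
            refine ⟨D - i, by omega, by omega, ⟨e, he1, ?_⟩, ?_⟩
            · simp only [← hT] at he2
              omega
            · intro y hy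
              rcases Nat.lt_or_ge (T.mt u v y) (i + 1) with h | h
              · exact hQ' y h
              · obtain ⟨e', he'1, he'2⟩ := hB y h hy
                exact ⟨e', by simp only [← hT] at he'1; omega, he'2⟩
        · -- Bob is stuck
          exfalso
          have hSep : Sep hG v a' {e | e = b} (insert a' (Sset hG u v i)) a' b := by
            refine ⟨?_, rfl, ?_, ?_, ?_⟩
            · intro z hz1 hz2
              exfalso
              have h1 := (ofTree hG).self a'
              have h2 : (ofTree hG).d a' z = 0 := by omega
              exact hz2 ((ofTree hG).eq_of _ _ h2).symm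
            · exact Finset.mem_insert_of_mem ((mem_Sset hG).2 ⟨hb2, Or.inr hb1.le⟩)
            · intro z hz z' hz' _
              have hz1 : z = b := hz
              subst hz1
              by_contra hcon
              exact hBm ⟨z', mem_moves.2 ⟨(adj_iff hG _ _).2 hz', hcon⟩⟩
            · intro z hz1 hz2
              exact absurd ⟨z, mem_moves.2 ⟨(adj_iff hG _ _).2 hz1, hz2⟩⟩ hBm
          have := sep_bound hG c hc.le v _ i (by
            intro e he
            have : e = b := he
            rw [this]; exact hb1.le) (n + 1) false _ a' b a' hn1 hSep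
          rw [(ofTree hG).self a', ← hT, hb1] at this
          have h0 : 0 ≤ c * (m : ℝ) := by positivity
          have h1 : c * ((i : ℝ) - i - (0 : ℕ)) = 0 := by push_cast; ring
          rw [h1] at this
          linarith

end Pool.Agent.Tron
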