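import Pool.Agent.Tron.Ini

set_option maxRecDepth 100000

namespace Pool.Agent.Tron

noncomputable section

def k2top : Cert := (.fin 2 (.alt (.z1 2 (.alt (.leaf 0x1000000000000000000010000) (.leaf 0x4000000000002000000010002000000020000000000000000000000000000000100010000000100000001)) (.leaf 0x50001000000030000000100030000000100000000000000000000000000000000000000010001000100000001)) (.z1 2 (.alt (.leaf 0x1000900000000000000120000000000000000000a000000000001) (.alt (.thr 2 18 (.leaf 0x100010000) (.alt (.leaf 0x100000000000100000000000000000000000000000000000100000000) (.alt (.leaf 0x10000) (.leaf 0x190000000100000000000800000000001c000200000004000800000000000800000000000000110000001100000000000800090008))) (.leaf 0xa00000000000000000003000200040000000200000000000a0000000000030007000000000005000000070003) (.alt (.leaf 0x170000000000090000000700100000000000020000000400000000000000000008000000060000000000070008000000000007) (.alt (.leaf 0x30000000000020000000100000000000100010000000000030002000000010002000000030002000000000000000300000001) (.leaf 0x17000000000009000000070010000000000002000000040000000000000000000000000006000000000007000800000000000000080007)))) (.leaf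 0xd0000000000000000000400000000000e000100000002000400000000000400000000000800090000000400050004))) (.leaf 0x1000060000000a00000003000a00000001000000010001000300000000000300000000000000000003000a000300000003))) (.alt (.z1 2 (.alt (.leaf 0x1000000000000000000010000) (.leaf 0x400000000000200000001000200000002000000000000000000000000000100010000000100000001)) (.leaf 0x5000100000003000000010003000000010000000000000000000000000000000000010001000100000001)) (.leaf 0x40000000000030000000100030000000000010000000100000000000100000001)))
def k2ini : List (List (ℕ × ℕ) × List (ℕ × ℕ)) := [([(1, 12), (1, 13)], [(1, 4), (2, 14)]),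
  ([(1, 12), (1, 13)], [(1, 3)]),
  ([(1, 14)], [(1, 12)]),
  ([(1, 1), (1, 2)], [(1, 3), (1, 18), (1, 19)]),
  ([(2, 0), (2, 1), (1, 3)], [(1, 20)]),
  ([(1, 19)], [(1, 20)]),
  ([(1, 18), (1, 19)], [(1, 3)]),
  ([(1, 1)], [(2, 0), (2, 4)]),
  ([(1, 0), (2, 4)], [(1, 1)]),
  ([(1, 1), (1, 3)], [(1, 2)]),
  ([(1, 0)], [(1, 1)])]
def k2st : St := iniSt 21 k2ini [37] [(3, 0), (1, 2), (1, 3), (1, 20)]

theorem certC_ok : chk [2] k2top k2st .none = true := by decide +kernel

end

end Pool.Agent.Tron
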