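import Pool.Agent.Tron.Ini

set_option maxRecDepth 100000

namespace Pool.Agent.Tron

noncomputable section

def k3top : Cert := (.fin 0 (.alt (.z1 0 (.alt (.leaf 0x1000000000000000000010000) (.leaf 0x10000000100000000000000020000000000000001000000000000000200000000000100000000000000000000)) (.leaf 0x1000000000000)) (.z1 0 (.alt (.leaf 0x2000000030007000000010002000d0000000200000000000b000000000002) (.alt (.thr 0 18 (.leaf 0x100010000) (.alt (.leaf 0x100000000000100000000000000000000000000000000000100000000) (.alt (.leaf 0x10000) (.leaf 0x3000000000001000000000000000200020000000500000004000600040000000200040000000300020000000200000000000200000002))) (.leaf 0x500000000000100000000000000020000000000030000000000080006000000020006000000030004000000040002) (.alt (.leaf 0x9000000000003000000000000000600000000000b000000080000000e0000000000100000000d0006000000060010000000000006) (.alt (.leaf 0x1000000000001000000000000000200000000000300000000000800060000000200060000000b0000000000000000000800000002) (.leaf 0x900000000000300000000000000060000000000070000000a000a00040000000600040000000b000600000006000a000000000000000a0006)))) (.leaf 0x3000000000001000000000000000200020000000500000004000600040000000200040000000500020000000200000002)))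 (.leaf 0x1000000000000))) (.alt (.z1 0 (.alt (.leaf 0x1000000000000000000010000) (.leaf 0x1000000010000000000000002000000000000000100000000000200000000000100000000000000000000)) (.leaf 0x1000000000000)) (.z1 0 (.alt (.leaf 0x100000002000400000001000600000001000000000005000000000001) (.alt (.leaf 0x1000000000001000000000000000200000000000b00000008000600000002000600000003000000000002) (.leaf 0x300000000000100000000000000020000000600050000000400020000000200020000000500020000000200000002))) (.leaf 0x1000000000000))))
def k3ini : List (List (ℕ × ℕ) × List (ℕ × ℕ)) := [([(1, 6), (1, 7)], [(2, 8)]),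
  ([(1, 6), (1, 7)], [(1, 3)]),
  ([(1, 8)], [(1, 6)]),
  ([(2, 0), (2, 1), (1, 2), (1, 5)], [(1, 20)]),
  ([(1, 0), (1, 18)], [(1, 5)]),
  ([(1, 19)], [(1, 20)]),
  ([(1, 18), (1, 19)], [(1, 3)]),
  ([(1, 1), (1, 3)], [(2, 0), (1, 2), (2, 5)]),
  ([(1, 0), (1, 2), (2, 5)], [(1, 1), (1, 3)]),
  ([(1, 0), (1, 2)], [(1, 1), (1, 3)]),
  ([(1, 3)], [(1, 2)]),
  ([(1, 0)], [(1, 1)])]
def k3st : St := iniSt 21 k3ini [37] [(3, 0), (2, 1), (2, 3), (1, 20)]

theorem certD_ok : chk [0] k3top k3st .none = true := by decide +kernel

end

end Pool.Agent.Tron
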