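import Pool.Agent.Tron.CertA
import Pool.Agent.Tron.CertB
import Pool.Agent.Tron.CertC
import Pool.Agent.Tron.CertD

namespace Pool.Agent.Tron

open Finset

/-- Profile of one side: spine of height `h`, total size at least `M`. -/
structure Side (h M : ℕ) (F G : ℕ → ℕ) : Prop where
  le : ∀ p ≤ h, p + F p ≤ h ∧ F p ≤ G p
  mass : ∀ s : Finset ℕ, (∀ p ∈ s, p ≤ h) → h + 1 + ∑ p ∈ s, G p ≤ M

/-- combine the two profiles -/
def two (F0 F1 : ℕ → ℕ) (s : ℕ) : ℕ → ℕ := if s = 0 then F0 else F1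

theorem two_mass {k h M0 M1 : ℕ} {F0 G0 F1 G1 : ℕ → ℕ} (s0 : Side k M0 F0 G0)
    (s1 : Side h M1 F1 G1) (l : List (ℕ × ℕ)) (hl : l.Nodup)
    (hp : ∀ p ∈ l, p.1 < 2 ∧ p.2 ≤ (if p.1 = 0 then k else h)) :
    k + h + 2 + (l.map (fun p => two G0 G1 p.1 p.2)).sum ≤ M0 + M1 := by
  classical
  rw [← List.sum_toFinset _ hl]
  have h0 := s0.mass ((l.toFinset.filter (fun p => p.1 = 0)).image Prod.snd) (by
    intro p hp'
    obtain ⟨x, hx, rfl⟩ := Finset.mem_image.1 hp'
    obtain ⟨hx1, hx2⟩ := Finset.mem_filter.1 hx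
    have := (hp x (List.mem_toFinset.1 hx1)).2
    rwa [if_pos hx2] at this)
  have h1 := s1.mass ((l.toFinset.filter (fun p => ¬ p.1 = 0)).image Prod.snd) (by
    intro p hp'
    obtain ⟨x, hx, rfl⟩ := Finset.mem_image.1 hp'
    obtain ⟨hx1, hx2⟩ := Finset.mem_filter.1 hx
    have := (hp x (List.mem_toFinset.1 hx1)).2
    rwa [if_neg hx2] at this)
  rw [Finset.sum_image] at h0 h1
  · rw [← Finset.sum_filter_add_sum_filter_not l.toFinset (fun p => p.1 = 0)]
    have e0 : ∑ x ∈ l.toFinset.filter (fun p => p.1 = 0), two G0 G1 x.1 x.2 =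
        ∑ x ∈ l.toFinset.filter (fun p => p.1 = 0), G0 x.2 := by
      apply Finset.sum_congr rfl
      intro x hx
      rw [two, if_pos (Finset.mem_filter.1 hx).2]
    have e1 : ∑ x ∈ l.toFinset.filter (fun p => ¬ p.1 = 0), two G0 G1 x.1 x.2 =
        ∑ x ∈ l.toFinset.filter (fun p => ¬ p.1 = 0), G1 x.2 := by
      apply Finset.sum_congr rfl
      intro x hx
      rw [two, if_neg (Finset.mem_filter.1 hx).2]
    rw [e0, e1]
    omega
  · intro x hx y hy hxy
    obtain ⟨hx1, hx2⟩ := Finset.mem_filter.1 hx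
    obtain ⟨hy1, hy2⟩ := Finset.mem_filter.1 hy
    have hxx := (hp x (List.mem_toFinset.1 hx1)).1
    have hyy := (hp y (List.mem_toFinset.1 hy1)).1
    exact Prod.ext (by omega) hxy
  · intro x hx y hy hxy
    obtain ⟨hx1, hx2⟩ := Finset.mem_filter.1 hx
    obtain ⟨hy1, hy2⟩ := Finset.mem_filter.1 hy
    exact Prod.ext (by rw [hx2, hy2]) hxy

theorem two_side {k h M0 M1 : ℕ} {F0 G0 F1 G1 : ℕ → ℕ} (s0 : Side k M0 F0 G0)
    (s1 : Side h M1 F1 G1) (s : ℕ) (z : ℕ) (hz : z ≤ if s = 0 then k else h) :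
    z + two F0 F1 s z ≤ (if s = 0 then k else h) ∧ two F0 F1 s z ≤ two G0 G1 s z := by
  unfold two
  by_cases hs : s = 0
  · simp only [if_pos hs] at *; exact s0.le z hz
  · simp only [if_neg hs] at *; exact s1.le z hz

/-- valuation from a list -/
def vl (l : List ℕ) (i : ℕ) : ℕ := l.getD i 0

theorem certA_main {m k h q q0 M0 M1 : ℕ} {F0 G0 F1 G1 : ℕ → ℕ}
    {p0 e0 b0 p1 e1 b1 p2 e2 b2 p3 e3 b3 : ℕ}
    (hm : 1 ≤ m) (hhk : h ≤ k) (hkm : k + 1 ≤ h + m) (hq1 : 2 * q + 1 ≤ m)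
    (hq2 : m ≤ 2 * q + 2) (hr1 : 2 * q0 + k + 1 ≤ h + m) (hr2 : m + h ≤ k + 2 * q0 + 2)
    (hqk : q ≤ k) (hqh : q0 ≤ h)
    (s0 : Side k M0 F0 G0) (s1 : Side h M1 F1 G1) (hn : M0 + M1 + 1 ≤ 10 * m)
    (f0 : Facts m h k 0 F1 G1 F0 p0 e0 b0) (f1 : Facts m k h 0 F0 G0 F1 p1 e1 b1)
    (f2 : Facts m h k q F1 G1 F0 p2 e2 b2) (f3 : Facts m k h q0 F0 G0 F1 p3 e3 b3) : False := by
  let ρ : ℕ → ℕ := vl [1, m, k, h, q, q0, p0, e0, b0, p1, e1, b1, p2, e2, b2, p3, e3, b3]
  have hhe : ∀ s, hh ρ s = if s = 0 then k else h := fun s => rfl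
  have a1 := f0.b_le
  have a2 := f0.pe
  have a3 := f0.pe2
  have a4 := f1.b_le
  have a5 := f1.pe
  have a6 := f1.pe2
  have a7 := f2.b_le
  have a8 := f2.pe
  have a9 := f2.pe2
  have a10 := f3.b_le
  have a11 := f3.pe
  have a12 := f3.pe2
  refine chk_sound (F := two F0 F1) (G := two G0 G1) (rs := [0, 1, 2, 3]) (base := 3 + k + h)
    (by decide) k0top k0st .none ρ ?_ trivial certA_ok
  refine ⟨le_rfl, rfl, ?_, ?_, List.Pairwise.nil, ?_, ?_, ?_, ?_, ?_, ?_⟩
  · refine ini_ct k0ini (by decide) ?_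
    intro p hp
    simp only [k0ini, List.mem_cons, List.not_mem_nil, or_false] at hp
    rcases hp with h | h | h | h | h | h | h | h | h | h | h | h | h | h | h | h | h | h | h <;>
      subst h <;> simp [lv, ρ, vl] <;> omega
  · intro c hc; exact absurd hc (by simp [k0st, iniSt])
  · have := rep_lf (ρ := ρ) (n := 18) [(3, 0), (1, 2), (1, 3)] (by decide)
    have h2 := this.mono (K' := 18) le_rfl (by decide) (fun _ _ => rfl)
    have e : lv ρ [(3, 0), (1, 2), (1, 3)] = 3 + k + h := by simp [lv, ρ, vl]; omega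
    rw [e] at h2
    exact h2
  · intro r hr
    simp only [List.mem_cons, List.not_mem_nil, or_false] at hr
    rcases hr with h | h | h | h <;> subst h
    · exact f0
    · exact f1
    · exact f2
    · exact f3
  · intro x hx; exact absurd hx (by simp [k0st, iniSt])
  · intro l hl hp
    have := two_mass s0 s1 l hl hp
    show 3 + k + h + _ ≤ 10 * m
    omega
  · intro s _ z hz
    exact two_side s0 s1 s z hz
  · intro r hr
    simp only [List.mem_cons, List.not_mem_nil, or_false] at hr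
    rcases hr with h | h | h | h <;> subst h
    · exact Nat.zero_le _
    · exact Nat.zero_le _
    · exact hqk
    · exact hqh

theorem certB_main {m k h q M0 M1 : ℕ} {F0 G0 F1 G1 : ℕ → ℕ}
    {p0 e0 b0 p2 e2 b2 : ℕ}
    (hm : 1 ≤ m) (hkm : h + m ≤ k) (hq1 : 2 * q + 1 ≤ m)
    (hq2 : m ≤ 2 * q + 2) (hqk : q ≤ k)
    (s0 : Side k M0 F0 G0) (s1 : Side h M1 F1 G1) (hn : M0 + M1 + 1 ≤ 10 * m)
    (f0 : Facts m h k 0 F1 G1 F0 p0 e0 b0)
    (f2 : Facts m h k q F1 G1 F0 p2 e2 b2) : False := by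
  let ρ : ℕ → ℕ := vl [1, m, k, h, q, 0, p0, e0, b0, 0, 0, 0, p2, e2, b2, 0, 0, 0]
  have hhe : ∀ s, hh ρ s = if s = 0 then k else h := fun s => rfl
  have a1 := f0.b_le
  have a2 := f0.pe
  have a3 := f0.pe2
  have a7 := f2.b_le
  have a8 := f2.pe
  have a9 := f2.pe2
  refine chk_sound (F := two F0 F1) (G := two G0 G1) (rs := [0, 2]) (base := 3 + k + h)
    (by decide) k1top k1st .none ρ ?_ trivial certB_ok
  refine ⟨le_rfl, rfl, ?_, ?_, List.Pairwise.nil, ?_, ?_, ?_, ?_, ?_, ?_⟩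
  · refine ini_ct k1ini (by decide) ?_
    intro p hp
    simp only [k1ini, List.mem_cons, List.not_mem_nil, or_false] at hp
    rcases hp with h | h | h | h | h | h | h | h | h | h <;>
      subst h <;> simp [lv, ρ, vl] <;> omega
  · intro c hc; exact absurd hc (by simp [k1st, iniSt])
  · have := rep_lf (ρ := ρ) (n := 18) [(3, 0), (1, 2), (1, 3)] (by decide)
    have h2 := this.mono (K' := 18) le_rfl (by decide) (fun _ _ => rfl)
    have e : lv ρ [(3, 0), (1, 2), (1, 3)] = 3 + k + h := by simp [lv, ρ, vl]; omega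
    rw [e] at h2
    exact h2
  · intro r hr
    simp only [List.mem_cons, List.not_mem_nil, or_false] at hr
    rcases hr with h | h <;> subst h
    · exact f0
    · exact f2
  · intro x hx; exact absurd hx (by simp [k1st, iniSt])
  · intro l hl hp
    have := two_mass s0 s1 l hl hp
    show 3 + k + h + _ ≤ 10 * m
    omega
  · intro s _ z hz
    exact two_side s0 s1 s z hz
  · intro r hr
    simp only [List.mem_cons, List.not_mem_nil, or_false] at hr
    rcases hr with h | h <;> subst h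
    · exact Nat.zero_le _
    · exact hqk

theorem certC_main {m k h q M0 M1 : ℕ} {F0 G0 F1 G1 : ℕ → ℕ}
    {x p2 e2 b2 : ℕ}
    (hm : 1 ≤ m) (hkm : h + m ≤ k) (hq1 : 2 * q + 1 ≤ m)
    (hq2 : m ≤ 2 * q + 2) (hqk : q ≤ k)
    (s0 : Side k M0 F0 G0) (s1 : Side h M1 F1 G1) (hn : M0 + M1 + 1 ≤ 10 * m)
    (hx : x ≤ h) (hx1 : 2 * m + h + 2 ≤ G1 x) (hx2 : m + k ≤ x + F1 x + h)
    (f2 : Facts m h k q F1 G1 F0 p2 e2 b2) : False := by
  let ρ : ℕ → ℕ := vl [1, m, k, h, q, 0, 0, 0, 0, 0, 0, 0, p2, e2, b2, 0, 0, 0, x, F1 x, G1 x]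
  have hhe : ∀ s, hh ρ s = if s = 0 then k else h := fun s => rfl
  have a7 := f2.b_le
  have a8 := f2.pe
  have a9 := f2.pe2
  have b1 := s1.le x hx
  refine chk_sound (F := two F0 F1) (G := two G0 G1) (rs := [2]) (base := 3 + k + h)
    (by decide) k2top k2st .none ρ ?_ trivial certC_ok
  have hM : MK (two F0 F1) (two G0 G1) ρ 21 37 := ⟨by norm_num, hx, rfl, rfl⟩
  refine ⟨by decide, rfl, ?_, ?_, List.pairwise_singleton .., ?_, ?_, ?_, ?_, ?_, ?_⟩
  · refine ini_ct k2ini (by decide) ?_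
    intro p hp
    simp only [k2ini, List.mem_cons, List.not_mem_nil, or_false] at hp
    rcases hp with h | h | h | h | h | h | h | h | h | h | h <;>
      subst h <;> simp [lv, ρ, vl] <;> omega
  · intro c hc
    have hc' : c ∈ [37] := hc
    rw [List.mem_singleton] at hc'
    subst hc'
    exact hM
  · have := rep_lf (ρ := ρ) (n := 21) [(3, 0), (1, 2), (1, 3), (1, 20)] (by decide)
    have h2 := this.mono (K' := 21) le_rfl (by decide) (fun _ _ => rfl)
    have e : lv ρ [(3, 0), (1, 2), (1, 3), (1, 20)] = 3 + k + h + (G1 x + 0) := by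
      simp [lv, ρ, vl]; omega
    rw [e] at h2
    exact h2
  · intro r hr
    simp only [List.mem_cons, List.not_mem_nil, or_false] at hr
    subst hr
    exact f2
  · intro x hx; exact absurd hx (by simp [k2st, iniSt])
  · intro l hl hp
    have := two_mass s0 s1 l hl hp
    show 3 + k + h + _ ≤ 10 * m
    omega
  · intro s _ z hz
    exact two_side s0 s1 s z hz
  · intro r hr
    simp only [List.mem_cons, List.not_mem_nil, or_false] at hr
    subst hr
    exact hqk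

theorem certD_main {m k h q0 M0 M1 : ℕ} {F0 F1 G1 : ℕ → ℕ}
    {x p0 e0 b0 : ℕ}
    (hm : 1 ≤ m) (hhk : h ≤ k) (hkm : k + 1 ≤ h + m)
    (hr1 : 2 * q0 + k + 1 ≤ h + m) (hr2 : m + h ≤ k + 2 * q0 + 2)
    (hM0 : 2 * m + h + 1 ≤ M0) (s1 : Side h M1 F1 G1) (hn : M0 + M1 + 1 ≤ 10 * m)
    (hx : x ≤ h) (hx1 : 2 * m + q0 + k + 2 ≤ G1 x) (hx2 : x < q0)
    (f0 : Facts m h k 0 F1 G1 F0 p0 e0 b0) : False := by
  let ρ : ℕ → ℕ := vl [1, m, k, h, 0, q0, p0, e0, b0, 0, 0, 0, 0, 0, 0, 0, 0, 0, x, F1 x, G1 x]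
  have hhe : ∀ s, hh ρ s = if s = 0 then k else h := fun s => rfl
  have a1 := f0.b_le
  have a2 := f0.pe
  have a3 := f0.pe2
  have b1 := s1.le x hx
  have f0' : Facts m h k 0 F1 G1 (fun _ => 0) p0 e0 b0 :=
    ⟨f0.b_le, f0.pe, f0.ev_le, f0.pe2, f0.fin, f0.thr, fun t ht => absurd ht (Nat.not_lt_zero t),
      Or.inl (by
        rcases f0.z1 with ⟨z, g1, g2, g3, g4, g5, g6⟩ | ⟨z, g1, _⟩
        · exact ⟨z, g1, g2, g3, g4, g5, fun y hy => absurd hy (Nat.not_lt_zero y)⟩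
        · exact absurd g1 (Nat.not_lt_zero z))⟩
  refine chk_sound (F := two (fun _ => 0) F1) (G := two (fun _ => 0) G1) (rs := [0])
    (base := 3 + 2 * m + 2 * h) (by decide) k3top k3st .none ρ ?_ trivial certD_ok
  have hM : MK (two (fun _ => 0) F1) (two (fun _ => 0) G1) ρ 21 37 :=
    ⟨by norm_num, hx, rfl, rfl⟩
  have s0 : Side k (k + 1) (fun _ => 0) (fun _ => 0) :=
    ⟨fun p hp => ⟨by omega, le_rfl⟩, fun s _ => by simp⟩
  refine ⟨by decide, rfl, ?_, ?_, List.pairwise_singleton .., ?_, ?_, ?_, ?_, ?_, ?_⟩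
  · refine ini_ct k3ini (by decide) ?_
    intro p hp
    simp only [k3ini, List.mem_cons, List.not_mem_nil, or_false] at hp
    rcases hp with h | h | h | h | h | h | h | h | h | h | h | h <;>
      subst h <;> simp [lv, ρ, vl] <;> omega
  · intro c hc
    have hc' : c ∈ [37] := hc
    rw [List.mem_singleton] at hc'
    subst hc'
    exact hM
  · have := rep_lf (ρ := ρ) (n := 21) [(3, 0), (2, 1), (2, 3), (1, 20)] (by decide)
    have h2 := this.mono (K' := 21) le_rfl (by decide) (fun _ _ => rfl)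
    have e : lv ρ [(3, 0), (2, 1), (2, 3), (1, 20)] = 3 + 2 * m + 2 * h + (G1 x + 0) := by
      simp [lv, ρ, vl]; omega
    rw [e] at h2
    exact h2
  · intro r hr
    simp only [List.mem_cons, List.not_mem_nil, or_false] at hr
    subst hr
    exact f0'
  · intro x hx; exact absurd hx (by simp [k3st, iniSt])
  · intro l hl hp
    have := two_mass s0 s1 l hl hp
    show 3 + 2 * m + 2 * h + _ ≤ 10 * m
    omega
  · intro s _ z hz
    exact two_side s0 s1 s z hz
  · intro r hr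
    simp only [List.mem_cons, List.not_mem_nil, or_false] at hr
    subst hr
    exact Nat.zero_le _

end Pool.Agent.Tron
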