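import Pool.Agent.Tron.Met

namespace Pool.Agent.Tron

open Finset

variable {V : Type*}

/-- Necessary conditions for Bob's start `v` against Alice's start `u`, with the deviation
level `ω`. -/
def GoodW (T : TM V) (m : ℕ) (u v : V) (ω : ℕ) : Prop :=
  ω ≤ T.d u v ∧ T.d u v + 1 ≤ 2 * ω ∧ (∃ e, T.mt u v e = ω ∧ m + ω ≤ T.d v e + 1) ∧
    ∀ y, T.mt u v y < ω → ∃ e, T.mt u v y < T.mt u v e ∧ m + T.d u y ≤ T.d v e

/-- The numerical outcome of the chain argument. -/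
def Ch (m D i0 H dd N : ℕ) : Prop :=
  ∃ ω z1 a1 aw, ω ≤ D ∧ D + 1 ≤ 2 * ω ∧ D ≤ dd ∧ ω + aw ≤ dd ∧ m + 2 * ω ≤ aw + D + 1 ∧
    i0 < z1 ∧ z1 < ω ∧ m + H + z1 ≤ a1 + D ∧ z1 + a1 ≤ dd ∧ m + 2 * z1 ≤ D ∧
    D + a1 + aw ≤ N + i0 ∧
    ((∃ z2 a2, ω ≤ z2 ∧ z2 + a2 ≤ dd ∧ m + z1 + z2 + a1 ≤ a2 + D) ∨
     (∃ z2 a2, z1 < z2 ∧ z2 < ω ∧ z2 + a2 ≤ dd ∧ m + z1 + z2 + a1 ≤ a2 + D ∧
       D + a1 + a2 + aw ≤ N + i0 ∧
       ((∃ z3 a3, ω ≤ z3 ∧ z3 + a3 ≤ dd ∧ m + z2 + z3 + a2 ≤ a3 + D) ∨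
        (∃ z3 a3, z2 < z3 ∧ z3 < ω ∧ z3 + a3 ≤ dd ∧ m + z2 + z3 + a2 ≤ a3 + D ∧
          D + a1 + a2 + a3 + aw ≤ N + i0))))

theorem chain [Fintype V] (T : TM V) {m : ℕ} {u v : V} {ω : ℕ} (hG : GoodW T m u v ω) (y0 : V)
    (hy0 : T.mt u v y0 < ω) (dd : ℕ)
    (hdd : ∀ y, T.mt u v y0 < T.mt u v y → T.d u y ≤ dd) (hle : dd ≤ T.d u y0 + m) :
    (∃ e1, T.mt u v y0 < T.mt u v e1 ∧
      (∀ y, T.mt u v y0 < T.mt u v y → T.d v y ≤ T.d v e1) ∧
      T.mt u v e1 < ω ∧ m + 2 * T.mt u v e1 ≤ T.d u v ∧ m + T.d u y0 ≤ T.d v e1) ∧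
    Ch m (T.d u v) (T.mt u v y0) (T.d u y0) dd
      (univ.filter (fun y => T.mt u v y0 < T.mt u v y)).card := by
  classical
  obtain ⟨hω1, hω2, ⟨ew, hew1, hew2⟩, hthr⟩ := hG
  obtain ⟨e0, he01, he02⟩ := hthr y0 hy0
  set i0 := T.mt u v y0 with hi0
  set B := univ.filter (fun y => i0 < T.mt u v y) with hB
  obtain ⟨e1, he1B, he1⟩ := Finset.exists_max_image B (fun y => T.d v y)
    ⟨e0, Finset.mem_filter.2 ⟨Finset.mem_univ _, he01⟩⟩
  have hz1 : i0 < T.mt u v e1 := (Finset.mem_filter.1 he1B).2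
  have hmax : ∀ y, i0 < T.mt u v y → T.d v y ≤ T.d v e1 := fun y hy =>
    he1 y (Finset.mem_filter.2 ⟨Finset.mem_univ _, hy⟩)
  have hH := (he02.trans (hmax e0 he01))
  have s1 := T.mt_spec u v e1
  have sw := T.mt_spec u v ew
  have d1 := hdd e1 hz1
  have hz1ω : T.mt u v e1 < ω := by
    by_contra hcon
    omega
  obtain ⟨e2, he21, he22⟩ := hthr e1 hz1ω
  have s2 := T.mt_spec u v e2
  have m12 := hmax e2 (hz1.trans he21)
  have hD2 : m + 2 * T.mt u v e1 ≤ T.d u v := by omega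
  refine ⟨⟨e1, hz1, hmax, hz1ω, hD2, hH⟩, ?_⟩
  have dw := hdd ew (by omega)
  have d2 := hdd e2 (by omega)
  have l1 := T.mt_le_right u v e1
  have l2 := T.mt_le_right u v e2
  have lw := T.mt_le_right u v ew
  have hDd : T.d u v ≤ dd := hdd v (by rw [T.mt_self]; omega)
  have hi0D : i0 ≤ T.d u v := by omega
  have ne1w : e1 ≠ ew := by rintro rfl; omega
  have c2 := T.beyond_card u v i0 {e1, ew} (by
      intro e he
      rcases Finset.mem_insert.1 he with rfl | he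
      · exact hz1
      · rw [Finset.mem_singleton.1 he]; omega) (by
      intro e he e' he' hee
      simp only [Finset.mem_insert, Finset.mem_singleton] at he he'
      rcases he with rfl | rfl <;> rcases he' with rfl | rfl <;> first | rfl | omega) hi0D
  rw [Finset.sum_pair ne1w, ← hB] at c2
  refine ⟨ω, T.mt u v e1, T.d u e1 - T.mt u v e1, T.d u ew - ω, hω1, hω2, hDd, ?_, ?_, hz1,
    hz1ω, ?_, ?_, hD2, ?_, ?_⟩
  · omega
  · omega
  · omega
  · omega
  · rw [hew1] at c2; omega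
  by_cases h2ω : ω ≤ T.mt u v e2
  · left
    exact ⟨T.mt u v e2, T.d u e2 - T.mt u v e2, h2ω, by omega, by omega⟩
  · right
    have ne12 : e1 ≠ e2 := by rintro rfl; omega
    have ne2w : e2 ≠ ew := by rintro rfl; omega
    have c3 := T.beyond_card u v i0 {e1, e2, ew} (by
      intro e he
      simp only [Finset.mem_insert, Finset.mem_singleton] at he
      rcases he with rfl | rfl | rfl <;> omega) (by
      intro e he e' he' hee
      simp only [Finset.mem_insert, Finset.mem_singleton] at he he'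
      rcases he with rfl | rfl | rfl <;> rcases he' with rfl | rfl | rfl <;>
        first | rfl | omega) hi0D
    rw [Finset.sum_insert (by simp [ne12, ne1w]), Finset.sum_pair ne2w, hew1, ← hB] at c3
    refine ⟨T.mt u v e2, T.d u e2 - T.mt u v e2, he21, by omega, by omega, by omega, ?_, ?_⟩
    · omega
    obtain ⟨e3, he31, he32⟩ := hthr e2 (by omega)
    have s3 := T.mt_spec u v e3
    have l3 := T.mt_le_right u v e3
    have d3 := hdd e3 (by omega)
    by_cases h3ω : ω ≤ T.mt u v e3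
    · left
      exact ⟨T.mt u v e3, T.d u e3 - T.mt u v e3, h3ω, by omega, by omega⟩
    · right
      have ne13 : e1 ≠ e3 := by rintro rfl; omega
      have ne23 : e2 ≠ e3 := by rintro rfl; omega
      have ne3w : e3 ≠ ew := by rintro rfl; omega
      have c4 := T.beyond_card u v i0 {e1, e2, e3, ew} (by
        intro e he
        simp only [Finset.mem_insert, Finset.mem_singleton] at he
        rcases he with rfl | rfl | rfl | rfl <;> omega) (by
        intro e he e' he' hee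
        simp only [Finset.mem_insert, Finset.mem_singleton] at he he'
        rcases he with rfl | rfl | rfl | rfl <;> rcases he' with rfl | rfl | rfl | rfl <;>
          first | rfl | omega) hi0D
      rw [Finset.sum_insert (by simp [ne12, ne1w, ne13]),
        Finset.sum_insert (by simp [ne23, ne2w]), Finset.sum_pair ne3w, hew1,
        ← hB] at c4
      exact ⟨T.mt u v e3, T.d u e3 - T.mt u v e3, he31, by omega, by omega, by omega, by omega⟩

/-- Main numerical consequences of the chain argument. -/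
theorem Ch.bounds {m D i0 H dd N : ℕ} (h : Ch m D i0 H dd N) :
    2 * m + H + 1 ≤ N ∧ m + H + 2 * i0 + 2 ≤ D + dd ∧ m + 2 * i0 + 2 ≤ D ∧ D ≤ dd ∧
    ((2 * m + H + 2 * i0 + 3 ≤ 2 * dd ∧ 4 * m + H + 2 * i0 + 4 ≤ 3 * dd) ∨
      (8 * m + 2 * H + 3 * i0 + 7 ≤ N + 4 * dd ∧ 4 * m + 2 * H + 3 * i0 + 5 ≤ N + 2 * dd)) := by
  obtain ⟨ω, z1, a1, aw, h1, h2, h3, h4, h5, h6, h7, h8, h9, h10, h11, h12⟩ := h
  refine ⟨by omega, by omega, by omega, by omega, ?_⟩
  rcases h12 with ⟨z2, a2, g1, g2, g3⟩ | ⟨z2, a2, g1, g2, g3, g4, g5, _⟩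
  · left; constructor <;> omega
  · right; constructor <;> omega

end Pool.Agent.Tron
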