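import Mathlib

namespace Pool.Agent.Tron

noncomputable section

/-- Base of the packing. -/
def BB : ℕ := nat_lit 4294967296

/-- The packed variable with index `i`. -/
def X (i : ℕ) : ℕ := Nat.pow (nat_lit 4294967296) i

/-- Certificates for the branch-and-bound checker. -/
inductive Cert
  | leaf (lam : ℕ)
  | alt (a b : Cert)
  | fin (r : ℕ) (cE cL : Cert)
  | z1 (r : ℕ) (cO cX : Cert)
  | thr (r t : ℕ) (c0 cA cB cC : Cert)
  | tho (r t : ℕ) (c0 cA cX cB cC : Cert)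
  | arg (r e a : ℕ) (c0 c1 : Cert)
  | pvm (r : ℕ) (c : Cert)

/-- raw `and` -/
def ba (a b : Bool) : Bool := Bool.rec false b a

/-- All base-`BB` digits of `x` are below `2^24`. -/
def small (n : ℕ) : ℕ → Bool :=
  Nat.rec (fun x => Nat.beq x (nat_lit 0))
    (fun _ ih x => ba (Nat.blt (Nat.mod x (nat_lit 4294967296)) (nat_lit 16777216))
      (Bool.rec (ih (Nat.div x (nat_lit 4294967296))) true (Nat.beq x (nat_lit 0)))) n

/-- Final comparison in a leaf. -/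
def fincmp (SL SR : ℕ) : Bool :=
  ba (Nat.ble SR SL) (Bool.rec (small (nat_lit 64) (Nat.sub SL SR)) false
    (Nat.beq (Nat.mod (Nat.sub SL SR) (nat_lit 4294967296)) (nat_lit 0)))

/-- Accumulate the combination of the constraints with the multipliers in `lam`. -/
def acc (l : List (ℕ × ℕ)) : ℕ → ℕ → ℕ → Bool :=
  List.rec (fun _ SL SR => fincmp SL SR)
    (fun c _ ih lam SL SR => Bool.rec (ih (Nat.div lam (nat_lit 65536))
        (Nat.add SL (Nat.mul (Nat.mod lam (nat_lit 65536)) c.1))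
        (Nat.add SR (Nat.mul (Nat.mod lam (nat_lit 65536)) c.2)))
      (fincmp SL SR) (Nat.beq lam (nat_lit 0))) l

/-- bound for the multiplier literal -/
def lamB : ℕ := Nat.pow (nat_lit 65536) (nat_lit 128)

/-- membership -/
def mem (a : ℕ) (l : List ℕ) : Bool :=
  List.rec false (fun b _ ih => Bool.rec ih true (Nat.beq a b)) l

/-- own side of the response -/
def sd (r : ℕ) : ℕ := Bool.rec (nat_lit 1) (nat_lit 0) (Nat.beq (Nat.mod r (nat_lit 2)) (nat_lit 1))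

def osd (r : ℕ) : ℕ := Nat.sub (nat_lit 1) (sd r)

def hv (s : ℕ) : ℕ := Bool.rec (X (nat_lit 3)) (X (nat_lit 2)) (Nat.beq s (nat_lit 0))

def hS (r : ℕ) : ℕ := hv (sd r)
def hO (r : ℕ) : ℕ := hv (osd r)

def Qf (r : ℕ) : ℕ :=
  Bool.rec (Bool.rec (X (nat_lit 5)) (X (nat_lit 4)) (Nat.beq r (nat_lit 2))) (nat_lit 0)
    (Nat.ble r (nat_lit 1))

def P (r : ℕ) : ℕ := X (Nat.add (nat_lit 6) (Nat.mul (nat_lit 3) r))
def E (r : ℕ) : ℕ := X (Nat.add (nat_lit 7) (Nat.mul (nat_lit 3) r))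
def B (r : ℕ) : ℕ := X (Nat.add (nat_lit 8) (Nat.mul (nat_lit 3) r))

structure St where
  nv : ℕ
  cs : List (ℕ × ℕ)
  mks : List ℕ
  mass : ℕ
  am : List ℕ

inductive Pd
  | none
  | some (pl : List ℕ) (nw : ℕ → List (ℕ × ℕ)) (u s : ℕ)

/-- marks on side `s` -/
def onSide (s : ℕ) (l : List ℕ) : List ℕ :=
  List.rec [] (fun c _ ih => Bool.rec ih (c :: ih) (Nat.beq (Nat.mod c (nat_lit 2)) s)) l

def upd (u : ℕ) (code : ℕ) (am : List ℕ) : List ℕ :=
  Bool.rec ((Nat.add (Nat.mul (nat_lit 4) code) (Nat.sub u (nat_lit 1))) :: am) am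
    (Nat.beq u (nat_lit 0))

def app (l k : List (ℕ × ℕ)) : List (ℕ × ℕ) := List.rec k (fun c _ ih => c :: ih) l

def resolve (st : St) (nw : ℕ → List (ℕ × ℕ)) (u code : ℕ) : St :=
  ⟨st.nv, app (nw (Nat.div code (nat_lit 2))) st.cs, st.mks, st.mass, upd u code st.am⟩

def fresh (st : St) (nw : ℕ → List (ℕ × ℕ)) (u s : ℕ) : St :=
  ⟨Nat.add st.nv (nat_lit 3),
    (Nat.add (X st.nv) (X (Nat.add st.nv (nat_lit 1))), hv s) ::
      (X (Nat.add st.nv (nat_lit 1)), X (Nat.add st.nv (nat_lit 2))) :: (app (nw st.nv) st.cs),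
    (Nat.add (Nat.mul (nat_lit 2) st.nv) s) :: st.mks,
    Nat.add st.mass (X (Nat.add st.nv (nat_lit 2))),
    upd u (Nat.add (Nat.mul (nat_lit 2) st.nv) s) st.am⟩

def addC (st : St) (l r : ℕ) : St := ⟨st.nv, (l, r) :: st.cs, st.mks, st.mass, st.am⟩

/-- own-side test for a mark code -/
def own (r e : ℕ) : Bool := Nat.beq (Nat.mod e (nat_lit 2)) (sd r)
/-- position variable of a mark -/
def zc (e : ℕ) : ℕ := X (Nat.div e (nat_lit 2))
def fc (e : ℕ) : ℕ := X (Nat.add (Nat.div e (nat_lit 2)) (nat_lit 1))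

/-- β of a mark (positive part, negative part) -/
def bP (r e : ℕ) : ℕ :=
  Bool.rec (Nat.add (Nat.add (Nat.add (Nat.add (P r) (E r)) (nat_lit 1)) (zc e)) (fc e))
    (Nat.add (Nat.add (P r) (E r)) (fc e)) (own r e)
def bN (r e : ℕ) : ℕ := Bool.rec (nat_lit 0) (zc e) (own r e)

/-- bound for the trivial branch of `arg` -/
def gd (r e : ℕ) : ℕ := Bool.rec (Qf r) (P r) (own r e)

/-- alpha of a threat, own side, plus `m` -/
def alO (r i : ℕ) : ℕ :=
  Nat.add (Nat.add (Nat.add (Nat.add (X (nat_lit 1)) (Qf r)) (nat_lit 1)) (X i))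
    (X (Nat.add i (nat_lit 1)))
/-- alpha of a threat on the other side, plus `m`, plus position -/
def alX (r i : ℕ) : ℕ := Nat.add (Nat.add (X (nat_lit 1)) (Qf r)) (X (Nat.add i (nat_lit 1)))

def X1 (i : ℕ) : ℕ := X (Nat.add i (nat_lit 1))
def X2 (i : ℕ) : ℕ := X (Nat.add i (nat_lit 2))

def nwE (r j : ℕ) : List (ℕ × ℕ) := [(X j, B r), (B r, X j), (E r, X1 j)]
def nwL (r j : ℕ) : List (ℕ × ℕ) :=
  [(X j, B r), (B r, X j), (Nat.add (Nat.add (X (nat_lit 1)) (Qf r)) (Nat.mul (nat_lit 2) (B r)),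
    Nat.add (Nat.add (P r) (E r)) (X1 j))]
def nwZ (r j : ℕ) : List (ℕ × ℕ) :=
  [(Nat.add (X j) (nat_lit 1), B r),
    (Nat.add (Nat.add (X (nat_lit 1)) (hO r)) (X j),
      Nat.add (Nat.add (Nat.add (P r) (E r)) (X1 j)) (Qf r)),
    (Nat.add (Nat.add (Nat.add (X (nat_lit 1)) (Qf r)) (nat_lit 1)) (Nat.mul (nat_lit 2) (X j)),
      Nat.add (P r) (E r)),
    (Nat.add (hS r) (X j), Nat.add (Nat.mul (nat_lit 2) (P r)) (X1 j))]
def nwZX (r j : ℕ) : List (ℕ × ℕ) :=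
  [(Nat.add (X j) (nat_lit 1), Qf r),
    (Nat.add (X (nat_lit 1)) (hO r),
      Nat.add (Nat.add (Nat.add (Nat.add (Nat.add (Qf r) (P r)) (E r)) (nat_lit 1)) (X j)) (X1 j)),
    (Nat.add (X (nat_lit 1)) (Qf r),
      Nat.add (Nat.add (Nat.add (Nat.mul (nat_lit 2) (X j)) (nat_lit 1)) (P r)) (E r)),
    (hS r, Nat.add (Nat.add (Nat.add (Nat.mul (nat_lit 2) (P r)) (nat_lit 1)) (X j)) (X1 j))]
def nwA (r i j : ℕ) : List (ℕ × ℕ) :=
  [(Nat.add (X i) (nat_lit 1), X j), (Nat.add (X j) (nat_lit 1), P r),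
    (Nat.add (alO r i) (X j), Nat.add (Nat.add (P r) (E r)) (X1 j))]
def nwC (r i j : ℕ) : List (ℕ × ℕ) :=
  [(X j, P r), (P r, X j), (E r, X1 j), (Nat.add (alO r i) (nat_lit 1), X2 j)]
def nwAX (r i j : ℕ) : List (ℕ × ℕ) :=
  [(Nat.add (X j) (nat_lit 1), P r),
    (Nat.add (alX r i) (X j), Nat.add (Nat.add (Nat.add (P r) (E r)) (X1 j)) (X i))]
def nwXX (r i j : ℕ) : List (ℕ × ℕ) :=
  [(Nat.add (X j) (nat_lit 1), X i),
    (alX r i, Nat.add (Nat.add (Nat.add (Nat.add (Nat.add (X i) (P r)) (E r)) (nat_lit 1)) (X j))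
      (X1 j))]
def nwCX (r i j : ℕ) : List (ℕ × ℕ) :=
  [(X j, P r), (P r, X j), (E r, X1 j), (Nat.add (alX r i) (nat_lit 1), Nat.add (X i) (X2 j))]
def nwP (r j : ℕ) : List (ℕ × ℕ) := [(X j, P r), (P r, X j), (E r, X1 j)]

/-- Begin a pending choice. -/
def go (rec : St → Pd → Bool) (st : St) (pl : List ℕ) (nw : ℕ → List (ℕ × ℕ)) (u s : ℕ) : Bool :=
  List.rec (rec (fresh st nw u s) .none) (fun a l _ => rec st (.some (a :: l) nw u s)) pl

/-- The checker. -/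
def chk (rs : List ℕ) (c : Cert) : St → Pd → Bool :=
  Cert.rec
    (fun lam st _ => ba (Nat.blt lam lamB)
      (ba (Nat.ble st.nv (nat_lit 64))
        (acc ((st.mass, Nat.mul (nat_lit 10) (X (nat_lit 1))) :: st.cs) lam (nat_lit 0) (nat_lit 0))))
    (fun _ _ iha ihb st pd => Pd.rec false (fun pl nw u s => List.rec false (fun j pl' _ =>
      ba (iha (resolve st nw u j) .none) (go ihb st pl' nw u s)) pl) pd)
    (fun r _ _ ihE ihL st pd => Pd.rec (ba (mem r rs)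
      (ba (go ihE (addC (addC st (P r) (B r)) (Nat.add (Nat.add (Nat.add (X (nat_lit 1)) (Qf r)) (B r)) (P r))
          (Nat.add (E r) (hS r))) (onSide (sd r) st.mks) (nwE r) (nat_lit 0) (sd r))
        (go ihL (addC st (Nat.add (B r) (nat_lit 1)) (P r)) (onSide (sd r) st.mks) (nwL r)
          (nat_lit 0) (sd r)))) (fun _ _ _ _ => false) pd)
    (fun r _ _ ihO ihX st pd => Pd.rec (ba (mem r rs)
      (ba (go ihO st (onSide (sd r) st.mks) (nwZ r) (Nat.add r (nat_lit 1)) (sd r))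
        (go ihX (addC st (nat_lit 1) (Qf r)) (onSide (osd r) st.mks) (nwZX r)
          (Nat.add r (nat_lit 1)) (osd r)))) (fun _ _ _ _ => false) pd)
    (fun r t _ _ _ _ ih0 ihA ihB ihC st pd => Pd.rec (ba (mem r rs)
      (ba (mem (Nat.add (Nat.mul (nat_lit 2) t) (sd r)) st.mks)
      (ba (ih0 (addC st (B r) (X t)) .none)
      (ba (go ihA st (onSide (sd r) st.mks) (nwA r t) (nat_lit 0) (sd r))
      (ba (ihB (addC st (Nat.add (alO r t) (P r)) (Nat.add (E r) (hS r))) .none)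
        (go ihC st (onSide (sd r) st.mks) (nwC r t) (nat_lit 0) (sd r)))))))
      (fun _ _ _ _ => false) pd)
    (fun r t _ _ _ _ _ ih0 ihA ihX ihB ihC st pd => Pd.rec (ba (mem r rs)
      (ba (mem (Nat.add (Nat.mul (nat_lit 2) t) (osd r)) st.mks)
      (ba (ih0 (addC st (Qf r) (X t)) .none)
      (ba (go ihA st (onSide (sd r) st.mks) (nwAX r t) (nat_lit 0) (sd r))
      (ba (go ihX st (onSide (osd r) st.mks) (nwXX r t) (nat_lit 0) (osd r))
      (ba (ihB (addC st (Nat.add (alX r t) (P r)) (Nat.add (Nat.add (X t) (E r)) (hS r))) .none)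
        (go ihC st (onSide (sd r) st.mks) (nwCX r t) (nat_lit 0) (sd r))))))))
      (fun _ _ _ _ => false) pd)
    (fun r e a _ _ ih0 ih1 st pd => Pd.rec (ba (mem r rs) (ba (mem e st.mks)
      (ba (mem (Nat.add (Nat.mul (nat_lit 4) a) r) st.am)
      (ba (ih0 (addC st (gd r e) (zc e)) .none)
        (ih1 (addC st (Nat.add (bP r e) (bN r a)) (Nat.add (bP r a) (bN r e))) .none)))))
      (fun _ _ _ _ => false) pd)
    (fun r _ ih st pd => Pd.rec (ba (mem r rs)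
      (go ih st (onSide (sd r) st.mks) (nwP r) (nat_lit 0) (sd r))) (fun _ _ _ _ => false) pd)
    c

end

end Pool.Agent.Tron
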