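import Pool.Agent.Tron.SideO

namespace Pool.Agent.Tron

open Finset

set_option linter.unusedSectionVars false

variable {V : Type*} [Fintype V] {T : TM V} {r r' t t' : V} {h k : ℕ}

theorem root_chain {h' : ℕ} (hf : Fl T r r' t t' h h') {m ω : ℕ} {v : V}
    (hv : T.d r v < T.d r' v) (hG : GoodW T m r' v ω) (hnb : h + 1 ≤ h' + m) :
    Ch m (1 + T.d r v) 0 h' (h + 1) (sideSet T r r').card := by
  classical
  have hadj := hf.adj
  have hadj' : T.d r' r = 1 := by rw [T.symm]; exact hadj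
  have dS : ∀ y, T.d r y < T.d r' y → T.d r' y = T.d r y + 1 := fun y hy => side_eq hadj hy
  have LO : ∀ y, T.d r' y < T.d r y → T.mt r' v y = 0 := by
    intro y hy
    have h1 := T.mt_spec r' v y
    have h2 := cross hadj hv hy
    have h3 := dS v hv
    omega
  have hD := hG.2.1
  obtain ⟨_, hCh⟩ := chain T hG t' (by rw [LO t' hf.tm']; omega) (h + 1) (by
    intro y hy
    rcases side_or hadj y with hs | hs
    · have := dS y hs
      have := hf.mx y hs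
      omega
    · have := LO y hs
      omega) (by rw [hf.ht']; exact hnb)
  rw [LO t' hf.tm', hf.ht', dS v hv, add_comm (T.d r v) 1] at hCh
  refine hCh.mono (Finset.card_le_card ?_)
  intro y hy
  have hy' := (Finset.mem_filter.1 hy).2
  rw [mem_side]
  rcases side_or hadj y with hs | hs
  · exact hs
  · have := LO y hs; omega

theorem card_sides (hadj : T.d r r' = 1) :
    (sideSet T r' r).card + (sideSet T r r').card = Fintype.card V := by
  classical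
  have h1 : sideSet T r' r = univ.filter (fun y => ¬ T.d r y < T.d r' y) := by
    ext y
    rw [mem_side, Finset.mem_filter]
    have := side_or hadj y
    constructor
    · intro h; exact ⟨Finset.mem_univ _, by omega⟩
    · intro h; have := h.2; omega
  rw [h1, add_comm]
  unfold sideSet
  rw [Finset.card_filter_add_card_filter_not, Finset.card_univ]

theorem Side.single {h M : ℕ} {F G : ℕ → ℕ} (s : Side h M F G) {p : ℕ} (hp : p ≤ h) :
    h + 1 + G p ≤ M := by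
  have := s.mass {p} (by intro x hx; rw [Finset.mem_singleton.1 hx]; exact hp)
  rwa [Finset.sum_singleton] at this

/-- numerical form of the second alternative of `sideS` -/
theorem A1_bound {m P q pv h N : ℕ} (hc : Ch m (q + 1 + P) (q + 1 + pv) (q + 1 + h) (q + 1 + h) N) :
    8 * m + q + 1 ≤ N + 2 * h ∧ 2 * m + q + h + 2 ≤ N ∧ 8 * m + q + 6 ≤ N + h + 1 + h := by
  obtain ⟨b1, b2, b3, b4, b5⟩ := hc.bounds
  rcases b5 with b | b
  · refine ⟨by omega, by omega, by omega⟩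
  · refine ⟨by omega, by omega, by omega⟩

section Arith

theorem ar1 {m h q N M1 M0 n : ℕ} (A : 8 * m + q + 6 ≤ N + h + 1 + h) (B : h + 1 + N ≤ M1)
    (C : 2 * m + h + 1 ≤ M0) (D : M0 + M1 = n) (E : n + 1 ≤ 10 * m) : False := by omega

/-- child subtree case, `x ≤ m - 1`, third start -/
theorem ar2 {m h k q D N M1 M0 n : ℕ} (hc : Ch m D 0 (q + 1 + h) (k - q) N)
    (hM0 : N + q + 1 ≤ M0) {D1 : ℕ} (C1 : Ch m D1 0 k (h + 1) M1) (hq : m ≤ 2 * q + 2)
    (hM : M0 + M1 = n) (hn : n + 1 ≤ 10 * m) : False := by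
  obtain ⟨i1, i2, i3, i4, i5⟩ := hc.bounds
  obtain ⟨c1, c2, c3, c4, c5⟩ := C1.bounds
  clear hc C1
  rcases i5 with ⟨i5, i6⟩ | ⟨i5, i6⟩
  · rcases c5 with ⟨c5, c6⟩ | ⟨c5, c6⟩
    · omega
    · omega
  · rcases c5 with ⟨c5, c6⟩ | ⟨c5, c6⟩
    · omega
    · omega

/-- off-branch case, `x ≤ m - 1`, third start -/
theorem ar3 {m h k q G M1 M0 n : ℕ} (i1 : 2 * m + (q + 1 + h) + 1 ≤ G)
    (hM0 : k + 1 + G ≤ M0) {D1 : ℕ} (C1 : Ch m D1 0 k (h + 1) M1)
    (hhk : h ≤ k) (hM : M0 + M1 = n) (hn : n + 1 ≤ 10 * m) : False := by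
  obtain ⟨c1, c2, c3, c4, c5⟩ := C1.bounds
  clear C1
  rcases c5 with ⟨c5, c6⟩ | ⟨c5, c6⟩
  · omega
  · omega

/-- child subtree case, `x ≤ m - 1`, fourth start -/
theorem ar4 {m h k q0 D N M1 M0 n : ℕ} (hc : Ch m D 0 (q0 + 1 + k) (h - q0) N)
    (hM1 : N + q0 + 1 ≤ M1) (hM0 : 2 * m + h + 1 ≤ M0) (hhk : h ≤ k) (hx : k < h + m)
    (hr2 : m + h ≤ k + 2 * q0 + 2)
    (hM : M0 + M1 = n) (hn : n + 1 ≤ 10 * m) : False := by
  obtain ⟨i1, i2, i3, i4, i5⟩ := hc.bounds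
  clear hc
  rcases i5 with ⟨i5, i6⟩ | ⟨i5, i6⟩
  · omega
  · omega

theorem st1 {m D ω z1 a1 z2 a2 dd : ℕ} (g2 : D + 1 ≤ 2 * ω) (j1 : ω ≤ z2)
    (j2 : z2 + a2 ≤ dd) (j3 : m + z1 + z2 + a1 ≤ a2 + D) : m + z1 + a1 + 1 ≤ dd := by omega

theorem st2 {m D H z1 a1 z2 a2 : ℕ} (g8 : m + H + z1 ≤ a1 + D)
    (j4 : m + z1 + z2 + a1 ≤ a2 + D) : 2 * m + H + 2 * z1 + z2 ≤ a2 + 2 * D := by omega

theorem st3 {m D H z1 z2 a2 z3 a3 : ℕ} (g8 : 2 * m + H + 2 * z1 + z2 ≤ a2 + 2 * D)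
    (j4 : m + z2 + z3 + a2 ≤ a3 + D) : 3 * m + H + 2 * z1 + 2 * z2 + z3 ≤ a3 + 3 * D := by omega

theorem st4 {m D ω aw : ℕ} (g2 : D + 1 ≤ 2 * ω) (g5 : m + 2 * ω ≤ aw + D + 1) : m ≤ aw := by
  omega

/-- `x ≥ m`, third start, spine left before the deviation -/
theorem ar5 {m P q pv h k N M1 M0 n : ℕ}
    (hc : Ch m (q + 1 + P) (q + 1 + pv) (q + 1 + h) (q + 1 + h) N) (hM1 : h + 1 + N ≤ M1)
    (hM0 : k + 1 ≤ M0) (hx : h + m ≤ k) (hq2 : m ≤ 2 * q + 2)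
    (hM : M0 + M1 = n) (hn : n + 1 ≤ 10 * m) : False := by
  obtain ⟨ω, z1, a1, aw, g1, g2, g3, g4, g5, g6, g7, g8, g9, g10, g11, g12⟩ := hc
  generalize hD : q + 1 + P = D at *
  generalize hH : q + 1 + h = H at *
  generalize hi : q + 1 + pv = i0 at *
  have k1 := st4 g2 g5
  rcases g12 with ⟨z2, a2, j1, j2, j3⟩ | ⟨z2, a2, j1, j2, j3, j4, j5, j6⟩
  · have k2 := st1 g2 j1 j2 j3
    clear g1 g2 g4 g5 g7 g9 g10 j1 j2 j3
    omega
  · have k2 := st2 g8 j4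
    rcases j6 with ⟨z3, a3, l1, l2, l3⟩ | ⟨z3, a3, l1, l2, l3, l4, l5⟩
    · have k3 := st1 g2 l1 l2 l3
      clear g1 g2 g4 g5 g7 g9 g10 j2 j3 j4 l1 l2 l3 g11
      have k4 : 3 * m + 2 * z1 + 2 * z2 + 1 ≤ 2 * D := by omega
      have k5 : 3 * m + 3 * z1 + z2 + aw ≤ N + i0 := by omega
      clear k2 k3 g8 j5
      omega
    · have k3 := st3 k2 l4
      clear g1 g2 g4 g5 g7 g9 g10 j2 j3 j4 l2 l3 l4 g11 j5
      have k5 : 6 * m + 5 * z1 + 3 * z2 + z3 + aw ≤ N + i0 + 2 * H := by omega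
      clear k2 k3 g8 l5
      omega

/-- `x ≥ m`, child subtree case -/
theorem ar6 {m h k q D N M1 M0 n : ℕ}
    (hc : k ≤ q + (q + 1 + h + m) → Ch m D 0 (q + 1 + h) (k - q) N)
    (hM0 : N + q + 1 ≤ M0) (hM0' : k + 1 ≤ M0) {D1 : ℕ} (C1 : Ch m D1 0 k (h + 1) M1)
    (hq : m ≤ 2 * q + 2) (hx : h + m ≤ k)
    (hM : M0 + M1 = n) (hn : n + 1 ≤ 10 * m) : False := by
  by_cases hcond : k ≤ q + (q + 1 + h + m)
  · exact ar2 (hc hcond) hM0 C1 hq hM hn
  · obtain ⟨c1, c2, c3, c4, c5⟩ := C1.bounds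
    clear C1 hc
    rcases c5 with ⟨c5, c6⟩ | ⟨c5, c6⟩
    · omega
    · omega

/-- `x ≥ m`, off-branch case -/
theorem ar7 {m h k q G M1 M0 n : ℕ} (i1 : m + (q + 1 + h) + 1 ≤ G)
    (hM0 : k + 1 + G ≤ M0) {D1 : ℕ} (C1 : Ch m D1 0 k (h + 1) M1)
    (hx : h + m ≤ k) (hq : m ≤ 2 * q + 2) (hM : M0 + M1 = n) (hn : n + 1 ≤ 10 * m) : False := by
  obtain ⟨c1, c2, c3, c4, c5⟩ := C1.bounds
  clear C1
  rcases c5 with ⟨c5, c6⟩ | ⟨c5, c6⟩
  · omega
  · omega

end Arith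

theorem core2 (hf : Fl T r r' t t' h k) (hhk : h ≤ k) {m : ℕ} (hm : 1 ≤ m)
    (hn : Fintype.card V + 1 ≤ 10 * m)
    {v1 v2 : V} {ω1 ω2 : ℕ} (hv1 : T.d r v1 < T.d r' v1) (hG1 : GoodW T m r' v1 ω1)
    (hv2 : T.d r' v2 < T.d r v2) (hG2 : GoodW T m r v2 ω2)
    (hall : ∀ u, ∃ v ω, GoodW T m u v ω) : False := by
  classical
  have hadj := hf.adj
  have hadj' : T.d r' r = 1 := by rw [T.symm]; exact hadj
  have hM := card_sides hadj
  set M1 := (sideSet T r r').card with hM1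
  set M0 := (sideSet T r' r).card with hM0
  have s1 : Side h M1 (spF T r r' t) (spG T r r' t) := by
    have := side_profile hadj hf.tm (fun y hy => by rw [hf.ht]; exact hf.mx y hy)
    rwa [hf.ht] at this
  have s0 : Side k M0 (spF T r' r t') (spG T r' r t') := by
    have := side_profile hadj' hf.tm' (fun y hy => by rw [hf.ht']; exact hf.mx' y hy)
    rwa [hf.ht'] at this
  have hM0k : k + 1 ≤ M0 := by
    have := s0.mass ∅ (by simp)
    simpa using this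
  -- response to r'
  have C1 := root_chain hf hv1 hG1 (by omega)
  obtain ⟨c1, c2, c3, c4, c5⟩ := C1.bounds
  have S1 := sideS hf (a := r') (q := 0) hm (by rw [T.self, hadj]; norm_num) (T.self r')
    (by rw [T.mt_comm]; exact T.mt_root r' t') hv1 hG1 (by omega) (by omega)
  -- the third start
  obtain ⟨q, hq1, hq2⟩ : ∃ q, 2 * q + 1 ≤ m ∧ m ≤ 2 * q + 2 := ⟨(m - 1) / 2, by omega, by omega⟩
  have hqk : q ≤ k := by omega
  obtain ⟨a3, ha1, ha2, ha3⟩ := T.anc r' t' (i := q) (by rw [hf.ht']; exact hqk)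
  have ha2' : T.mt r' t' a3 = q := by rw [T.mt_comm]; exact ha2
  have ha3S : T.d r' a3 < T.d r a3 := anc_side hadj' hf.tm' (by rw [ha2, ha1])
  obtain ⟨v3, ω3, hG3⟩ := hall a3
  rcases Nat.lt_or_ge k (h + m) with hx | hx
  · -- x ≤ m - 1
    have C2 := root_chain hf.swap hv2 hG2 (by omega)
    obtain ⟨d1, d2, d3, d4, d5⟩ := C2.bounds
    have S2 := sideS hf.swap (a := r) (q := 0) hm (by rw [T.self, hadj']; norm_num) (T.self r)
      (by rw [T.mt_comm]; exact T.mt_root r t) hv2 hG2 (by omega) (by omega)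
    rcases S1 with ⟨p0, e0, b0, f0⟩ | ⟨pv, hpv, _, hc⟩
    swap
    · exact ar1 (q := 0) (A1_bound hc).2.2 (s1.single hpv) d1 hM hn
    rcases S2 with ⟨p1, e1, b1, f1⟩ | ⟨pv, hpv, _, hc⟩
    swap
    · exact ar1 (q := 0) (A1_bound hc).2.2 (s0.single hpv) c1 ((add_comm _ _).trans hM) hn
    -- third start
    have F2 : ∃ p2 e2 b2, Facts m h k q (spF T r r' t) (spG T r r' t) (spF T r' r t')
        p2 e2 b2 := by
      rcases side_or hadj v3 with hs | hs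
      · rcases sideS hf hm ha3S ha1 ha2' hs hG3 hq1 (by omega) with hF | ⟨pv, hpv, _, hc⟩
        · exact hF
        · exfalso
          exact ar1 (A1_bound hc).2.2 (s1.single hpv) d1 hM hn
      · exfalso
        rcases sideO hf hm ha3S ha1 ha2' hs hG3 hq1 (by omega) with ⟨D, N, g1, g2⟩ |
          ⟨μ, g1, g2, g3, g4⟩
        · exact ar2 (g2 (by omega)) g1 C1 hq2 hM hn
        · obtain ⟨D, hc⟩ := g4 (by omega)
          exact ar3 hc.bounds.1 (s0.single g2) C1 hhk hM hn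
    obtain ⟨p2, e2, b2, f2⟩ := F2
    -- fourth start
    obtain ⟨q0, hr1, hr2⟩ : ∃ q0, 2 * q0 + k + 1 ≤ h + m ∧ m + h ≤ k + 2 * q0 + 2 :=
      ⟨(m + h - k - 1) / 2, by omega, by omega⟩
    have hqh : q0 ≤ h := by omega
    obtain ⟨a4, hb1, hb2, hb3⟩ := T.anc r t (i := q0) (by rw [hf.ht]; exact hqh)
    have hb2' : T.mt r t a4 = q0 := by rw [T.mt_comm]; exact hb2
    have hb3S : T.d r a4 < T.d r' a4 := anc_side hadj hf.tm (by rw [hb2, hb1])
    obtain ⟨v4, ω4, hG4⟩ := hall a4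
    rcases side_or hadj v4 with hs | hs
    · rcases sideO hf.swap hm hb3S hb1 hb2' hs hG4 (by omega) (by omega) with ⟨D, N, g1, g2⟩ |
          ⟨μ, g1, g2, g3, g4⟩
      · exact ar4 (g2 (by omega)) g1 d1 hhk hx hr2 hM hn
      · obtain ⟨D, hc⟩ := g4 (by omega)
        have i1 := hc.bounds.1
        exact certD_main hm hhk hx hr1 hr2 d1 s1 (by omega) g2 (by omega) g1 f0
    · rcases sideS hf.swap hm hb3S hb1 hb2' hs hG4 (by omega) (by omega) with
        ⟨p3, e3, b3, f3⟩ | ⟨pv, hpv, _, hc⟩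
      · exact certA_main hm hhk hx hq1 hq2 hr1 hr2 hqk hqh s0 s1 (by omega) f0 f1 f2 f3
      · exact ar1 (A1_bound hc).2.2 (s0.single hpv) c1 ((add_comm _ _).trans hM) hn
  · -- x ≥ m
    have F2 : ∃ p2 e2 b2, Facts m h k q (spF T r r' t) (spG T r r' t) (spF T r' r t')
        p2 e2 b2 := by
      rcases side_or hadj v3 with hs | hs
      · rcases sideS hf hm ha3S ha1 ha2' hs hG3 hq1 (by omega) with hF | ⟨pv, hpv, _, hc⟩
        · exact hF
        · exfalso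
          exact ar5 hc (s1.single hpv) hM0k hx hq2 hM hn
      · exfalso
        rcases sideO hf hm ha3S ha1 ha2' hs hG3 hq1 (by omega) with ⟨D, N, g1, g2⟩ |
          ⟨μ, g1, g2, g3, g4⟩
        · exact ar6 g2 g1 hM0k C1 hq2 hx hM hn
        · exact ar7 g3 (s0.single g2) C1 hx hq2 hM hn
    obtain ⟨p2, e2, b2, f2⟩ := F2
    rcases S1 with ⟨p0, e0, b0, f0⟩ | ⟨pv, hpv, hP, hc⟩
    · exact certB_main hm hx hq1 hq2 hqk s0 s1 (by omega) f0 f2
    · have := A1_bound hc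
      exact certC_main hm hx hq1 hq2 hqk s0 s1 (by omega) hpv (by omega) (by omega) f2

end Pool.Agent.Tron
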