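import Mathlib

/-!
# Tron on weighted trees

Definitions of the game.  Alice stands at `a`, Bob stands at `b`, and `S` is the set of all
vertices claimed so far.
-/

namespace Pool.Agent.Tron

open Finset

variable {V : Type*} [Fintype V]

open scoped Classical in
/-- The vertices a player standing at `x` may claim: the neighbours of `x` outside the set `S` of
vertices claimed so far. -/
noncomputable def moves (G : SimpleGraph V) (S : Finset V) (x : V) : Finset V :=
  univ.filter (fun y => G.Adj x y ∧ y ∉ S)

open scoped Classical in
/-- `playValue G w n aliceTurn S a b` is the value, under optimal play of both players, of
(weight Bob claims from now on) minus (weight Alice claims from now on), when Alice stands at `a`,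
Bob stands at `b`, the claimed vertices are those of `S`, and it is Alice's turn if `aliceTurn` is
`true` and Bob's turn otherwise.  Bob maximises and Alice minimises.  A player whose turn it is and
who has a legal move makes one; a player without a legal move has stopped for good, and then the
other player goes on alone; when nobody can move the game is over.  The number `n` only serves to
make the recursion well-founded: it is a bound on the number of moves still to be made, and every
move claims a new vertex, so any `n` at least the number of unclaimed vertices gives the value of
the game. -/
noncomputable def playValue (G : SimpleGraph V) (w : V → ℝ) :
    ℕ → Bool → Finset V → V → V → ℝ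
  | 0, _, _, _, _ => 0
  | n + 1, true, S, a, b =>
    if hA : (moves G S a).Nonempty then
      (moves G S a).inf' hA (fun x => playValue G w n false (insert x S) x b - w x)
    else if hB : (moves G S b).Nonempty then
      (moves G S b).sup' hB (fun x => playValue G w n true (insert x S) a x + w x)
    else 0
  | n + 1, false, S, a, b =>
    if hB : (moves G S b).Nonempty then
      (moves G S b).sup' hB (fun x => playValue G w n true (insert x S) a x + w x)
    else if hA : (moves G S a).Nonempty then
      (moves G S a).inf' hA (fun x => playValue G w n false (insert x S) x b - w x)
    else 0

open scoped Classical in
/-- The value `Δ(G, w)` of Tron: Alice picks a start vertex `u`, then Bob picks a start vertex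
`v ≠ u`, then they move alternately, Alice first.  The outcome is the weight of the vertices
claimed by Bob minus the weight of the vertices claimed by Alice. -/
noncomputable def tronValue (G : SimpleGraph V) (w : V → ℝ) : ℝ :=
  ⨅ u : V, ⨆ v : {v : V // v ≠ u},
    (w v - w u + playValue G w (Fintype.card V) true {u, v.1} u v.1)

end Pool.Agent.Tron
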