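import Pool.Agent.Tron.Met

namespace Pool.Agent.Tron

open SimpleGraph

variable {V : Type*} {G : SimpleGraph V}

/-- In a tree every path is a shortest path. -/
theorem path_length (hG : G.IsTree) {x y : V} (p : G.Walk x y) (hp : p.IsPath) :
    p.length = G.dist x y := by
  obtain ⟨q, hq1, hq2⟩ := hG.connected.exists_path_of_dist x y
  have h2 : p = q := congrArg Subtype.val ((hG.isAcyclic.subsingleton_path x y).elim
    ⟨p, hp⟩ ⟨q, hq1⟩)
  rw [h2, hq2]

theorem supp_dist (hG : G.IsTree) {x y s : V} (p : G.Walk x y) (hp : p.length = G.dist x y)
    (hs : s ∈ p.support) : G.dist x s + G.dist s y = G.dist x y := by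
  classical
  have h1 := congrArg Walk.length (p.take_spec hs)
  rw [Walk.length_append] at h1
  have h2 := dist_le (p.takeUntil s hs)
  have h3 := dist_le (p.dropUntil s hs)
  have h4 := hG.connected.dist_triangle (u := x) (v := s) (w := y)
  omega

theorem cross_dist (hG : G.IsTree) {w w' x y : V} (ha : G.Adj w w')
    (hx : G.dist w' x < G.dist w x) (hy : G.dist w y < G.dist w' y) :
    G.dist x y = G.dist x w + G.dist w y := by
  classical
  obtain ⟨p, hp1, hp2⟩ := hG.connected.exists_path_of_dist y w
  obtain ⟨p', hp1', hp2'⟩ := hG.connected.exists_path_of_dist w' x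
  have hd : ∀ z, G.dist z w = G.dist z w' + 1 ∨ G.dist z w' = G.dist z w + 1 := fun z =>
    hG.dist_eq_dist_add_one_of_adj z ha
  have hq : (p.append (Walk.cons ha p')).IsPath := by
    rw [Walk.isPath_def, Walk.support_append, Walk.support_cons, List.tail_cons]
    rw [List.nodup_append]
    refine ⟨hp1.support_nodup, hp1'.support_nodup, ?_⟩
    intro s hs s' hs' hss
    subst hss
    have h1 := supp_dist hG p hp2 hs
    have h2 := supp_dist hG p' hp2' hs'
    have h3 := hG.connected.dist_triangle (u := w') (v := s) (w := y)
    have h4 := hG.connected.dist_triangle (u := w) (v := s) (w := x)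
    have e1 := dist_comm (G := G) (u := w') (v := y)
    have e2 := dist_comm (G := G) (u := w) (v := y)
    have e3 := dist_comm (G := G) (u := s) (v := y)
    have e4 := dist_comm (G := G) (u := s) (v := w)
    have e5 := dist_comm (G := G) (u := s) (v := w')
    rcases hd s with h | h
    · omega
    · omega
  have h1 := path_length hG _ hq
  rw [Walk.length_append, Walk.length_cons, hp2, hp2'] at h1
  have e1 := dist_comm (G := G) (u := x) (v := y)
  have e2 := dist_comm (G := G) (u := w) (v := y)
  have e3 := dist_comm (G := G) (u := w) (v := x)
  have e4 := dist_comm (G := G) (u := w') (v := x)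
  rcases hd x with h | h <;> omega

theorem four_point (hG : G.IsTree) (n : ℕ) : ∀ w x y z, G.dist w x = n →
    G.dist w x + G.dist y z ≤ G.dist w y + G.dist x z ∨
    G.dist w x + G.dist y z ≤ G.dist w z + G.dist x y := by
  induction n with
  | zero =>
    intro w x y z h
    have := (hG.connected.dist_eq_zero_iff).1 h
    subst this
    left
    have h3 := hG.connected.dist_triangle (u := y) (v := w) (w := z)
    have e1 := dist_comm (G := G) (u := w) (v := y)
    omega
  | succ n ih =>
    intro w x y z h
    obtain ⟨p, hp⟩ := hG.connected.exists_walk_length_eq_dist w x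
    cases p with
    | nil => rw [Walk.length_nil] at hp; omega
    | @cons _ w' _ ha q =>
      rw [Walk.length_cons] at hp
      have h1 := dist_le q
      have h2 : G.dist w' x = n := by
        rcases hG.dist_eq_dist_add_one_of_adj x ha with h' | h'
        · have e1 := dist_comm (G := G) (u := x) (v := w)
          have e2 := dist_comm (G := G) (u := x) (v := w')
          omega
        · have e1 := dist_comm (G := G) (u := x) (v := w)
          have e2 := dist_comm (G := G) (u := x) (v := w')
          omega
      have hxw : G.dist w' x < G.dist w x := by omega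
      have hor : ∀ y, G.dist w y = G.dist w' y + 1 ∨ G.dist w' y = G.dist w y + 1 := by
        intro y
        have e1 := dist_comm (G := G) (u := y) (v := w)
        have e2 := dist_comm (G := G) (u := y) (v := w')
        rcases hG.dist_eq_dist_add_one_of_adj y ha with h' | h' <;> omega
      have tri := hG.connected.dist_triangle (u := y) (v := w) (w := z)
      have e1 := dist_comm (G := G) (u := w) (v := y)
      have e2 := dist_comm (G := G) (u := x) (v := w)
      rcases hor y with hy | hy
      · rcases hor z with hz | hz
        · rcases ih w' x y z h2 with h' | h'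
          · left; omega
          · right; omega
        · left
          have := cross_dist hG (x := x) (y := z) ha hxw (by omega)
          omega
      · right
        have := cross_dist hG (x := x) (y := y) ha hxw (by omega)
        omega

theorem parity (hG : G.IsTree) {y z : V} (p : G.Walk y z) : ∀ x,
    (G.dist x y + G.dist y z + G.dist x z) % 2 = 0 := by
  induction p with
  | nil => intro x; simp; omega
  | @cons a b c ha q ih =>
    intro x
    have h1 := ih x
    have e1 := dist_comm (G := G) (u := c) (v := a)
    have e2 := dist_comm (G := G) (u := c) (v := b)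
    rcases hG.dist_eq_dist_add_one_of_adj x ha with h' | h' <;>
      rcases hG.dist_eq_dist_add_one_of_adj c ha with h'' | h'' <;> omega

/-- The tree metric of a tree. -/
noncomputable def ofTree (hG : G.IsTree) : TM V where
  d := G.dist
  self := fun x => dist_self
  eq_of := fun x y h => (hG.connected.dist_eq_zero_iff).1 h
  symm := fun x y => dist_comm
  four := fun w x y z => four_point hG _ w x y z rfl
  par := fun x y z => by
    obtain ⟨p, _⟩ := hG.connected.exists_walk_length_eq_dist y z
    exact parity hG p x
  geo := fun x y i hi => by
    obtain ⟨p, hp⟩ := hG.connected.exists_walk_length_eq_dist x y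
    refine ⟨p.getVert i, ?_, ?_⟩
    · have h1 := dist_le (p.take i)
      have h2 := dist_le (p.drop i)
      rw [Walk.take_length] at h1
      rw [Walk.drop_length] at h2
      have h3 := hG.connected.dist_triangle (u := x) (v := p.getVert i) (w := y)
      have h4 : i ⊓ p.length = i := by rw [hp]; exact min_eq_left hi
      omega
    · have h1 := dist_le (p.take i)
      have h2 := dist_le (p.drop i)
      rw [Walk.take_length] at h1
      rw [Walk.drop_length] at h2
      have h3 := hG.connected.dist_triangle (u := x) (v := p.getVert i) (w := y)
      have h4 : i ⊓ p.length = i := by rw [hp]; exact min_eq_left hi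
      omega

theorem adj_iff (hG : G.IsTree) (x y : V) : G.Adj x y ↔ (ofTree hG).d x y = 1 :=
  dist_eq_one_iff_adj.symm

end Pool.Agent.Tron
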