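import Pool.Agent.Tron.Def
import Pool.Agent.Tron.Graph
import Pool.Agent.Tron.Chain

namespace Pool.Agent.Tron

open Finset

set_option linter.unusedSectionVars false

variable {V : Type*} [Fintype V] {G : SimpleGraph V}

theorem mem_moves {S : Finset V} {x y : V} : y ∈ moves G S x ↔ G.Adj x y ∧ y ∉ S := by
  simp [moves]

section
variable (hG : G.IsTree) (c : ℝ)

/-- The conditions under which the two players have separated. -/
structure Sep (v y : V) (Reg : Set V) (S : Finset V) (a b : V) : Prop where
  plan : ∀ z, (ofTree hG).d a z + (ofTree hG).d z y = (ofTree hG).d a y → z ≠ a → z ∉ S ∧ z ∉ Reg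
  bR : b ∈ Reg
  bS : b ∈ S
  clo : ∀ z ∈ Reg, ∀ z', (ofTree hG).d z z' = 1 → z' ∉ Reg → z' ∈ S
  up : ∀ z, (ofTree hG).d b z = 1 → z ∉ S → (ofTree hG).d v z = (ofTree hG).d v b + 1

theorem unique_parent (T : TM V) {v b b' z : V} (h1 : T.d b' b = 1) (h2 : T.d b' z = 1)
    (h3 : T.d v b' = T.d v b + 1) (h4 : T.d v b' = T.d v z + 1) : z = b := by
  have h5 := T.four z b v b'
  have h6 := T.symm z v
  have h7 := T.symm b v
  have h8 := T.symm z b'
  have h9 := T.symm b b'
  exact T.eq_of _ _ (by omega)

theorem adj_pm (T : TM V) (v : V) {x y : V} (h : T.d x y = 1) :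
    T.d v y = T.d v x + 1 ∨ T.d v x = T.d v y + 1 := by
  have h1 := T.par v x y
  have h2 := T.tri v x y
  have h3 := T.tri v y x
  have h4 := T.symm x y
  omega

open scoped Classical in
theorem Sep.bob {hG : G.IsTree} {v y : V} {Reg : Set V} {S : Finset V} {a b x : V}
    (h : Sep hG v y Reg S a b) (hx1 : (ofTree hG).d b x = 1) (hx2 : x ∉ S) :
    Sep hG v y Reg (insert x S) a x ∧ (ofTree hG).d v x = (ofTree hG).d v b + 1 := by
  have hup := h.up x hx1 hx2
  have hxR : x ∈ Reg := by
    by_contra hcon
    exact hx2 (h.clo b h.bR x hx1 hcon)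
  refine ⟨⟨?_, hxR, Finset.mem_insert_self _ _, ?_, ?_⟩, hup⟩
  · intro z hz1 hz2
    obtain ⟨g1, g2⟩ := h.plan z hz1 hz2
    refine ⟨?_, g2⟩
    rw [Finset.mem_insert, not_or]
    exact ⟨fun he => g2 (he ▸ hxR), g1⟩
  · intro z hz z' hz' hz''
    exact Finset.mem_insert_of_mem (h.clo z hz z' hz' hz'')
  · intro z hz1 hz2
    rw [Finset.mem_insert, not_or] at hz2
    rcases adj_pm (ofTree hG) v hz1 with h' | h'
    · exact h'
    · exfalso
      have : z = b := unique_parent (ofTree hG) (b' := x) (v := v)
        (by rw [(ofTree hG).symm]; exact hx1) hz1 hup h'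
      exact hz2.2 (this ▸ h.bS)

open scoped Classical in
theorem Sep.alice {hG : G.IsTree} {v y : V} {Reg : Set V} {S : Finset V} {a b x : V}
    (h : Sep hG v y Reg S a b) (hx1 : (ofTree hG).d a x = 1)
    (hx2 : (ofTree hG).d x y + 1 = (ofTree hG).d a y) :
    Sep hG v y Reg (insert x S) x b := by
  refine ⟨?_, h.bR, Finset.mem_insert_of_mem h.bS, ?_, ?_⟩
  · intro z hz1 hz2
    have h1 := (ofTree hG).tri a x z
    have h2 := (ofTree hG).tri a z y
    obtain ⟨g1, g2⟩ := h.plan z (by omega) (by
      rintro rfl
      have := (ofTree hG).symm x z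
      omega)
    refine ⟨?_, g2⟩
    rw [Finset.mem_insert, not_or]
    exact ⟨hz2, g1⟩
  · intro z hz z' hz' hz''
    exact Finset.mem_insert_of_mem (h.clo z hz z' hz' hz'')
  · intro z hz1 hz2
    rw [Finset.mem_insert, not_or] at hz2
    exact h.up z hz1 hz2.2

open scoped Classical in
theorem Sep.alice' {hG : G.IsTree} {v y : V} {Reg : Set V} {S : Finset V} {a b x : V}
    (h : Sep hG v y Reg S a b) : Sep hG v x Reg (insert x S) x b := by
  refine ⟨?_, h.bR, Finset.mem_insert_of_mem h.bS, ?_, ?_⟩
  · intro z hz1 hz2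
    exfalso
    have h1 := (ofTree hG).self x
    have h2 : (ofTree hG).d x z = 0 := by omega
    exact hz2 ((ofTree hG).eq_of _ _ h2).symm
  · intro z hz z' hz' hz''
    exact Finset.mem_insert_of_mem (h.clo z hz z' hz' hz'')
  · intro z hz1 hz2
    rw [Finset.mem_insert, not_or] at hz2
    exact h.up z hz1 hz2.2

theorem Sep.zero {hG : G.IsTree} {v y : V} {Reg : Set V} {S : Finset V} {a b : V}
    (h : Sep hG v y Reg S a b) (hm : ¬ (moves G S a).Nonempty) : (ofTree hG).d a y = 0 := by
  by_contra hcon
  obtain ⟨z, hz1, hz2⟩ := (ofTree hG).geo a y 1 (by omega)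
  have hza : z ≠ a := by
    rintro rfl
    have := (ofTree hG).self z
    omega
  obtain ⟨g1, g2⟩ := h.plan z (by omega) hza
  exact hm ⟨z, mem_moves.2 ⟨(adj_iff hG a z).2 hz1, g1⟩⟩

/-- Upper bound for the value once the players have separated: Alice follows her plan to `y`, and
Bob stays in `Reg`. -/
theorem sep_bound (hc : 0 ≤ c) (v : V) (Reg : Set V) (M : ℕ)
    (hM : ∀ e ∈ Reg, (ofTree hG).d v e ≤ M) : ∀ (n : ℕ) (t : Bool) (S : Finset V) (a b y : V),
    Fintype.card V ≤ n + S.card → Sep hG v y Reg S a b →
    playValue G (fun _ => c) n t S a b ≤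
      c * ((M : ℝ) - (ofTree hG).d v b - (ofTree hG).d a y) := by
  classical
  intro n
  induction n with
  | zero =>
    intro t S a b y hS h
    have hS' : S = univ := Finset.eq_univ_of_card S
      (le_antisymm (Finset.card_le_univ _) (by omega))
    have h0 : (ofTree hG).d a y = 0 := h.zero (by
      rintro ⟨z, hz⟩
      have hz1 := (mem_moves.1 hz).2
      rw [hS'] at hz1
      exact hz1 (Finset.mem_univ z))
    have h1 := hM b h.bR
    have h2 : ((ofTree hG).d v b : ℝ) ≤ M := by exact_mod_cast h1
    have hp : playValue G (fun _ => c) 0 t S a b = 0 := by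
      cases t <;> rfl
    rw [hp, h0]
    apply mul_nonneg hc
    push_cast
    linarith
  | succ n ih =>
    intro t S a b y hS h
    have hins : ∀ x, x ∉ S → Fintype.card V ≤ n + (insert x S).card := by
      intro x hx
      have h1 : (insert x S).card = S.card + 1 := Finset.card_insert_of_notMem hx
      omega
    have hb := hM b h.bR
    have hb' : ((ofTree hG).d v b : ℝ) ≤ M := by exact_mod_cast hb
    -- Alice moves
    have hA : ∀ hA : (moves G S a).Nonempty, (moves G S a).inf' hA
        (fun x => playValue G (fun _ => c) n false (insert x S) x b - c) ≤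
        c * ((M : ℝ) - (ofTree hG).d v b - (ofTree hG).d a y) := by
      intro hA
      by_cases h0 : (ofTree hG).d a y = 0
      · obtain ⟨x, hx⟩ := hA
        obtain ⟨hx1, hx2⟩ := mem_moves.1 hx
        refine (Finset.inf'_le _ hx).trans ?_
        have := ih false (insert x S) x b x (hins x hx2) h.alice'
        rw [(ofTree hG).self x] at this
        rw [h0]
        push_cast at this ⊢
        linarith
      · obtain ⟨z, hz1, hz2⟩ := (ofTree hG).geo a y 1 (by omega)
        have hza : z ≠ a := by
          rintro rfl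
          have := (ofTree hG).self z
          omega
        obtain ⟨g1, g2⟩ := h.plan z (by omega) hza
        refine (Finset.inf'_le _ (mem_moves.2 ⟨(adj_iff hG a z).2 hz1, g1⟩)).trans ?_
        have := ih false (insert z S) z b y (hins z g1) (h.alice hz1 hz2)
        have hcast : ((ofTree hG).d a y : ℝ) = (ofTree hG).d z y + 1 := by exact_mod_cast hz2.symm
        rw [hcast]
        linarith
    -- Bob moves
    have hB : ∀ hB : (moves G S b).Nonempty, (moves G S b).sup' hB
        (fun x => playValue G (fun _ => c) n true (insert x S) a x + c) ≤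
        c * ((M : ℝ) - (ofTree hG).d v b - (ofTree hG).d a y) := by
      intro hB
      apply Finset.sup'_le
      intro x hx
      obtain ⟨hx1, hx2⟩ := mem_moves.1 hx
      obtain ⟨g1, g2⟩ := h.bob ((adj_iff hG b x).1 hx1) hx2
      have := ih true (insert x S) a x y (hins x hx2) g1
      have hcast : ((ofTree hG).d v x : ℝ) = (ofTree hG).d v b + 1 := by exact_mod_cast g2
      rw [hcast] at this
      linarith
    have h00 : ¬ (moves G S a).Nonempty →
        0 ≤ c * ((M : ℝ) - (ofTree hG).d v b - (ofTree hG).d a y) := by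
      intro hn
      rw [h.zero hn]
      apply mul_nonneg hc
      push_cast
      linarith
    cases t with
    | true =>
      rw [playValue]
      split_ifs with h1 h2
      · exact hA h1
      · exact hB h2
      · exact h00 h1
    | false =>
      rw [playValue]
      split_ifs with h1 h2
      · exact hB h1
      · exact hA h2
      · exact h00 h2

end

end Pool.Agent.Tron
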