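import Pool.Agent.Tron.Sound2

namespace Pool.Agent.Tron

/-- A linear form given by a list of (coefficient, index), packed. -/
def lf (l : List (ℕ × ℕ)) : ℕ :=
  List.rec (nat_lit 0) (fun p _ ih => Nat.add (Nat.mul p.1 (X p.2)) ih) l

/-- The value of such a form. -/
def lv (ρ : ℕ → ℕ) (l : List (ℕ × ℕ)) : ℕ := (l.map (fun p => p.1 * ρ p.2)).sum

def lmap (l : List (List (ℕ × ℕ) × List (ℕ × ℕ))) : List (ℕ × ℕ) :=
  List.rec [] (fun p _ ih => (lf p.1, lf p.2) :: ih) l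

def iniSt (n : ℕ) (ini : List (List (ℕ × ℕ) × List (ℕ × ℕ))) (mks : List ℕ)
    (mass : List (ℕ × ℕ)) : St := ⟨n, lmap ini, mks, lf mass, []⟩

theorem rep_lf {ρ : ℕ → ℕ} {n : ℕ} (l : List (ℕ × ℕ)) (h : ∀ p ∈ l, p.2 < n) :
    Rep ρ n ((l.map Prod.fst).sum) (lf l) (lv ρ l) := by
  induction l with
  | nil => exact rep_zero
  | cons a l ih =>
    have h1 : lf (a :: l) = Nat.add (Nat.mul a.1 (X a.2)) (lf l) := rfl
    have h2 : lv ρ (a :: l) = a.1 * ρ a.2 + lv ρ l := by simp [lv]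
    rw [h1, h2, List.map_cons, List.sum_cons]
    have h3 := ((rep_X (ρ := ρ) (h a (List.mem_cons_self ..))).mul a.1).add
      (ih fun p hp => h p (List.mem_cons_of_mem _ hp))
    rwa [mul_one] at h3

theorem lmap_eq (l : List (List (ℕ × ℕ) × List (ℕ × ℕ))) :
    lmap l = l.map (fun p => (lf p.1, lf p.2)) := by
  induction l with
  | nil => rfl
  | cons a l ih =>
    have : lmap (a :: l) = (lf a.1, lf a.2) :: lmap l := rfl
    rw [this, ih, List.map_cons]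

theorem ini_ct {ρ : ℕ → ℕ} {n : ℕ} (l : List (List (ℕ × ℕ) × List (ℕ × ℕ)))
    (hd : ∀ p ∈ l, (∀ x ∈ p.1, x.2 < n) ∧ (∀ x ∈ p.2, x.2 < n) ∧
      (p.1.map Prod.fst).sum ≤ 16 ∧ (p.2.map Prod.fst).sum ≤ 16)
    (hv : ∀ p ∈ l, lv ρ p.1 ≤ lv ρ p.2) : ∀ p ∈ lmap l, CT ρ n p := by
  intro p hp
  rw [lmap_eq] at hp
  obtain ⟨x, hx, rfl⟩ := List.mem_map.1 hp
  obtain ⟨h1, h2, h3, h4⟩ := hd x hx
  exact CT.mk (rep_lf _ h1) (rep_lf _ h2) h3 h4 (hv x hx)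

end Pool.Agent.Tron
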