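import Mathlib

namespace Pool.Agent.Tron

/-- An integer tree metric. -/
structure TM (V : Type*) where
  d : V → V → ℕ
  self : ∀ x, d x x = 0
  eq_of : ∀ x y, d x y = 0 → x = y
  symm : ∀ x y, d x y = d y x
  four : ∀ w x y z, d w x + d y z ≤ d w y + d x z ∨ d w x + d y z ≤ d w z + d x y
  par : ∀ x y z, (d x y + d y z + d x z) % 2 = 0
  geo : ∀ x y i, i ≤ d x y → ∃ z, d x z = i ∧ d z y + i = d x y

namespace TM

variable {V : Type*} (T : TM V)

theorem tri (x y z : V) : T.d x z ≤ T.d x y + T.d y z := by
  have := T.four x z y y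
  have h := T.self y
  have := T.symm z y
  omega

/-- Gromov product at `u` (the depth of the meet of `x` and `y` for the root `u`). -/
def mt (u x y : V) : ℕ := (T.d u x + T.d u y - T.d x y) / 2

theorem mt_spec (u x y : V) : 2 * T.mt u x y + T.d x y = T.d u x + T.d u y := by
  have h1 := T.tri x u y
  have h2 := T.par u x y
  have h3 := T.symm x u
  unfold mt
  omega

theorem mt_le_left (u x y : V) : T.mt u x y ≤ T.d u x := by
  have h1 := T.mt_spec u x y
  have h2 := T.tri u x y
  omega

theorem mt_le_right (u x y : V) : T.mt u x y ≤ T.d u y := by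
  have h1 := T.mt_spec u x y
  have h2 := T.tri u y x
  have h3 := T.symm x y
  omega

theorem mt_comm (u x y : V) : T.mt u x y = T.mt u y x := by
  have h1 := T.mt_spec u x y
  have h2 := T.mt_spec u y x
  have h3 := T.symm x y
  omega

theorem mt_self (u x : V) : T.mt u x x = T.d u x := by
  have h1 := T.mt_spec u x x
  have h2 := T.self x
  omega

theorem mt_root (u x : V) : T.mt u u x = 0 := by
  have h1 := T.mt_le_left u u x
  have h2 := T.self u
  omega

/-- ultrametric inequality -/
theorem mt_ultra (u x y z : V) : T.mt u x y ≤ T.mt u x z ∨ T.mt u y z ≤ T.mt u x z := by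
  have h1 := T.mt_spec u x y
  have h2 := T.mt_spec u x z
  have h3 := T.mt_spec u y z
  have h4 := T.four u y x z
  have h5 := T.symm x y
  have h6 := T.symm y z
  have h7 := T.symm x z
  omega

/-- the two smallest of the three products are equal -/
theorem mt_three (u x y z : V) :
    (T.mt u x y ≤ T.mt u x z ∨ T.mt u y z ≤ T.mt u x z) ∧
    (T.mt u x y ≤ T.mt u y z ∨ T.mt u x z ≤ T.mt u y z) ∧
    (T.mt u x z ≤ T.mt u x y ∨ T.mt u y z ≤ T.mt u x y) := by
  have h1 := T.mt_ultra u x y z
  have h2 := T.mt_ultra u y x z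
  have h3 := T.mt_ultra u x z y
  have e1 := T.mt_comm u x y
  have e2 := T.mt_comm u x z
  have e3 := T.mt_comm u y z
  omega

/-- ancestors -/
theorem anc (u y : V) {i : ℕ} (hi : i ≤ T.d u y) : ∃ z, T.d u z = i ∧ T.mt u z y = i ∧
    T.d z y + i = T.d u y := by
  obtain ⟨z, h1, h2⟩ := T.geo u y i hi
  refine ⟨z, h1, ?_, h2⟩
  have := T.mt_spec u z y
  omega

section Count

variable [Fintype V] [DecidableEq V]

open Finset

set_option linter.unusedSectionVars false in
/-- A branch hanging at level `i` of the path from `u` to `v` which contains a vertex at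
distance `i + a` from `u` has at least `a + 1` vertices. -/
theorem fiber_card (u v e : V) {i a : ℕ} (he : T.mt u v e = i) (ha : T.d u e = i + a)
    (S : Finset V) (hS : ∀ y, T.mt u v y = i → T.mt u y e = T.d u y → y ∈ S) : a + 1 ≤ S.card := by
  classical
  -- choose the ancestors of `e`
  have h : ∀ t : Fin (a + 1), ∃ z ∈ S, T.d u z = i + t := by
    intro t
    obtain ⟨z, h1, h2, h3⟩ := T.anc u e (i := i + t) (by have := t.2; omega)
    refine ⟨z, hS z ?_ (by omega), h1⟩
    have := T.mt_three u v z e
    have := T.mt_le_right u v z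
    omega
  choose f hf1 hf2 using h
  have hinj : Function.Injective f := by
    intro s t hst
    have := hf2 s
    rw [hst, hf2 t] at this
    exact Fin.ext (by omega)
  calc a + 1 = (Finset.univ : Finset (Fin (a + 1))).card := by simp
    _ = (Finset.univ.image f).card := (Finset.card_image_of_injective _ hinj).symm
    _ ≤ S.card := Finset.card_le_card (by
      intro z hz
      obtain ⟨t, _, rfl⟩ := Finset.mem_image.1 hz
      exact hf1 t)

/-- Counting the vertices beyond level `i0` on the path from `u` to `v`. -/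
theorem beyond_card (u v : V) (i0 : ℕ) (L : Finset V) (hL : ∀ e ∈ L, i0 < T.mt u v e)
    (hinj : ∀ e ∈ L, ∀ e' ∈ L, T.mt u v e = T.mt u v e' → e = e') (hi0 : i0 ≤ T.d u v) :
    T.d u v + ∑ e ∈ L, (T.d u e - T.mt u v e) ≤
      (univ.filter (fun y => i0 < T.mt u v y)).card + i0 := by
  classical
  set D := T.d u v with hD
  set B := univ.filter (fun y => i0 < T.mt u v y) with hB
  have h1 : B.card = ∑ i ∈ Finset.Ioc i0 D, (B.filter (fun y => T.mt u v y = i)).card := by
    apply Finset.card_eq_sum_card_fiberwise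
    intro y hy
    have hy' : i0 < T.mt u v y := (Finset.mem_filter.1 hy).2
    have := T.mt_le_left u v y
    exact Finset.mem_coe.2 (Finset.mem_Ioc.2 ⟨hy', this⟩)
  have h2 : ∑ e ∈ L, (T.d u e - T.mt u v e) =
      ∑ i ∈ Finset.Ioc i0 D, ∑ e ∈ L.filter (fun e => T.mt u v e = i),
        (T.d u e - T.mt u v e) := by
    symm
    apply Finset.sum_fiberwise_of_maps_to
    intro e he
    exact Finset.mem_Ioc.2 ⟨hL e he, T.mt_le_left u v e⟩
  have h3 : ∀ i ∈ Finset.Ioc i0 D, 1 + ∑ e ∈ L.filter (fun e => T.mt u v e = i),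
      (T.d u e - T.mt u v e) ≤ (B.filter (fun y => T.mt u v y = i)).card := by
    intro i hi
    obtain ⟨hi1, hi2⟩ := Finset.mem_Ioc.1 hi
    rcases (L.filter (fun e => T.mt u v e = i)).eq_empty_or_nonempty with h0 | ⟨e, he⟩
    · rw [h0, Finset.sum_empty]
      obtain ⟨z, g1, g2, g3⟩ := T.anc u v (i := i) hi2
      rw [T.mt_comm] at g2
      exact Finset.card_pos.2 ⟨z, Finset.mem_filter.2 ⟨Finset.mem_filter.2
        ⟨Finset.mem_univ _, by omega⟩, g2⟩⟩
    · obtain ⟨he1, he2⟩ := Finset.mem_filter.1 he
      have hsing : L.filter (fun e => T.mt u v e = i) = {e} := by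
        ext x
        rw [Finset.mem_singleton]
        constructor
        · intro hx
          obtain ⟨hx1, hx2⟩ := Finset.mem_filter.1 hx
          exact hinj x hx1 e he1 (by rw [hx2, he2])
        · rintro rfl; exact he
      rw [hsing, Finset.sum_singleton, he2, add_comm]
      refine T.fiber_card u v e he2 (a := T.d u e - i) ?_ _ ?_
      · have := T.mt_le_right u v e
        omega
      · intro y hy _
        exact Finset.mem_filter.2 ⟨Finset.mem_filter.2 ⟨Finset.mem_univ _, by omega⟩, hy⟩
  have h4 := Finset.sum_le_sum h3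
  rw [Finset.sum_add_distrib, ← h1, ← h2, Finset.sum_const, Nat.card_Ioc] at h4
  simp only [smul_eq_mul, mul_one] at h4
  omega

end Count

end TM

end Pool.Agent.Tron
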