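import Pool.Agent.Tron.Chk

namespace Pool.Agent.Tron

open Finset

theorem ba_true {a b : Bool} : ba a b = true ↔ a = true ∧ b = true := by
  cases a <;> cases b <;> simp [ba]

/-- `x` is the packed form of a linear form with coefficients at most `K` whose value
under `ρ` is `v`. -/
def Rep (ρ : ℕ → ℕ) (n K x v : ℕ) : Prop :=
  ∃ c : ℕ → ℕ, (∀ i, c i ≤ K) ∧ x = ∑ i ∈ range n, c i * BB ^ i ∧
    v = ∑ i ∈ range n, c i * ρ i

theorem Rep.mono {ρ ρ' : ℕ → ℕ} {n n' K K' x v : ℕ} (h : Rep ρ n K x v) (hn : n ≤ n')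
    (hK : K ≤ K') (hρ : ∀ i < n, ρ' i = ρ i) : Rep ρ' n' K' x v := by
  obtain ⟨c, h1, h2, h3⟩ := h
  refine ⟨fun i => if i < n then c i else 0, fun i => ?_, ?_, ?_⟩
  · dsimp only; split_ifs
    · exact (h1 i).trans hK
    · exact Nat.zero_le _
  · rw [h2, ← Finset.sum_subset (Finset.range_subset_range.2 hn)]
    · apply Finset.sum_congr rfl
      intro i hi
      simp [Finset.mem_range.1 hi]
    · intro i _ hi
      simp only [Finset.mem_range] at hi
      simp [hi]
  · rw [h3, ← Finset.sum_subset (Finset.range_subset_range.2 hn)]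
    · apply Finset.sum_congr rfl
      intro i hi
      simp [Finset.mem_range.1 hi, hρ i (Finset.mem_range.1 hi)]
    · intro i _ hi
      simp only [Finset.mem_range] at hi
      simp [hi]

theorem Rep.add {ρ : ℕ → ℕ} {n K K' x y v w : ℕ} (h : Rep ρ n K x v) (h' : Rep ρ n K' y w) :
    Rep ρ n (K + K') (Nat.add x y) (v + w) := by
  obtain ⟨c, h1, h2, h3⟩ := h
  obtain ⟨d, g1, g2, g3⟩ := h'
  refine ⟨fun i => c i + d i, fun i => Nat.add_le_add (h1 i) (g1 i), ?_, ?_⟩
  · show x + y = _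
    rw [h2, g2, ← Finset.sum_add_distrib]
    exact Finset.sum_congr rfl fun i _ => by ring
  · rw [h3, g3, ← Finset.sum_add_distrib]
    exact Finset.sum_congr rfl fun i _ => by ring

theorem Rep.mul {ρ : ℕ → ℕ} {n K x v : ℕ} (a : ℕ) (h : Rep ρ n K x v) :
    Rep ρ n (a * K) (Nat.mul a x) (a * v) := by
  obtain ⟨c, h1, h2, h3⟩ := h
  refine ⟨fun i => a * c i, fun i => Nat.mul_le_mul_left a (h1 i), ?_, ?_⟩
  · show a * x = _
    rw [h2, Finset.mul_sum]
    exact Finset.sum_congr rfl fun i _ => by ring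
  · rw [h3, Finset.mul_sum]
    exact Finset.sum_congr rfl fun i _ => by ring

theorem rep_X {ρ : ℕ → ℕ} {n i : ℕ} (hi : i < n) : Rep ρ n 1 (X i) (ρ i) := by
  refine ⟨fun j => if j = i then 1 else 0, fun j => ?_, ?_, ?_⟩
  · dsimp only; split_ifs <;> omega
  · simp only [ite_mul, one_mul, zero_mul, Finset.sum_ite_eq', Finset.mem_range, hi, if_true]
    rfl
  · simp only [ite_mul, one_mul, zero_mul, Finset.sum_ite_eq', Finset.mem_range, hi, if_true]

theorem rep_zero {ρ : ℕ → ℕ} {n : ℕ} : Rep ρ n 0 0 0 :=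
  ⟨fun _ => 0, fun _ => le_rfl, by simp, by simp⟩

theorem rep_one {ρ : ℕ → ℕ} {n : ℕ} (h0 : ρ 0 = 1) (hn : 0 < n) : Rep ρ n 1 1 1 := by
  have := rep_X (ρ := ρ) hn
  rw [h0] at this
  exact this

theorem digits_unique (n : ℕ) : ∀ c c' : ℕ → ℕ, (∀ i, c i < BB) → (∀ i, c' i < BB) →
    ∑ i ∈ range n, c i * BB ^ i = ∑ i ∈ range n, c' i * BB ^ i → ∀ i < n, c i = c' i := by
  induction n with
  | zero => intro c c' _ _ _ i hi; omega
  | succ n ih =>
    intro c c' h h' he i hi
    rw [Finset.sum_range_succ', Finset.sum_range_succ'] at he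
    have e1 : ∀ d : ℕ → ℕ, ∑ i ∈ range n, d (i + 1) * BB ^ (i + 1) =
        BB * ∑ i ∈ range n, d (i + 1) * BB ^ i := by
      intro d
      rw [Finset.mul_sum]
      exact Finset.sum_congr rfl fun i _ => by ring
    rw [e1, e1, pow_zero, mul_one, mul_one] at he
    have hB : 0 < BB := by unfold BB; norm_num
    have h0 : c 0 = c' 0 := by
      have := congrArg (· % BB) he
      simp only [Nat.mul_add_mod] at this
      rwa [Nat.mod_eq_of_lt (h 0), Nat.mod_eq_of_lt (h' 0)] at this
    rw [h0] at he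
    have h1 := Nat.eq_of_mul_eq_mul_left hB (Nat.add_right_cancel he)
    cases i with
    | zero => exact h0
    | succ i =>
      exact ih (fun i => c (i + 1)) (fun i => c' (i + 1)) (fun i => h _) (fun i => h' _)
        h1 i (by omega)

theorem Rep.unique {ρ : ℕ → ℕ} {n K K' x v v' : ℕ} (h : Rep ρ n K x v) (h' : Rep ρ n K' x v')
    (hK : K < BB) (hK' : K' < BB) : v = v' := by
  obtain ⟨c, h1, h2, h3⟩ := h
  obtain ⟨d, g1, g2, g3⟩ := h'
  have := digits_unique n c d (fun i => (h1 i).trans_lt hK) (fun i => (g1 i).trans_lt hK')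
    (by rw [← h2, ← g2])
  rw [h3, g3]
  exact Finset.sum_congr rfl fun i hi => by rw [this i (Finset.mem_range.1 hi)]

theorem small_zero (x : ℕ) : small 0 x = Nat.beq x 0 := rfl
theorem small_succ (n x : ℕ) : small (n + 1) x =
    ba (Nat.blt (x % BB) 16777216) (Bool.rec (small n (x / BB)) true (Nat.beq x 0)) := rfl

theorem small_sound (k : ℕ) : ∀ (x : ℕ) (ρ : ℕ → ℕ), small k x = true →
    ∃ v, Rep ρ k 16777215 x v ∧ (x % BB) * ρ 0 ≤ v := by
  induction k with
  | zero =>
    intro x ρ h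
    rw [small_zero] at h
    have : x = 0 := Nat.eq_of_beq_eq_true h
    subst this
    exact ⟨0, rep_zero.mono le_rfl (by norm_num) (fun _ _ => rfl), by simp⟩
  | succ k ih =>
    intro x ρ h
    rw [small_succ, ba_true] at h
    obtain ⟨h1, h2⟩ := h
    have h1' : x % BB < 16777216 := by
      have := Nat.le_of_ble_eq_true (n := x % BB + 1) (m := 16777216) h1
      omega
    by_cases hx : x = 0
    · subst hx
      exact ⟨0, rep_zero.mono (Nat.zero_le _) (by norm_num) (fun _ _ => rfl), by simp⟩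
    · have hb : Nat.beq x 0 = false := by
        cases hh : Nat.beq x 0
        · rfl
        · exact absurd (Nat.eq_of_beq_eq_true hh) hx
      rw [hb] at h2
      obtain ⟨v, ⟨c, c1, c2, c3⟩, hv⟩ := ih (x / BB) (fun i => ρ (i + 1)) h2
      refine ⟨v + (x % BB) * ρ 0, ⟨fun i => Nat.casesOn i (x % BB) (fun j => c j), ?_, ?_, ?_⟩, by omega⟩
      · intro i
        cases i with
        | zero => show x % BB ≤ _; omega
        | succ i => exact c1 i
      · rw [Finset.sum_range_succ']
        have e1 : ∑ i ∈ range k, c i * BB ^ (i + 1) = BB * ∑ i ∈ range k, c i * BB ^ i := by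
          rw [Finset.mul_sum]
          exact Finset.sum_congr rfl fun i _ => by ring
        show x = ∑ i ∈ range k, c i * BB ^ (i + 1) + (x % BB) * BB ^ 0
        rw [e1, ← c2, pow_zero, mul_one]
        exact (Nat.div_add_mod x BB).symm
      · rw [Finset.sum_range_succ']
        show v + _ = ∑ i ∈ range k, c i * ρ (i + 1) + (x % BB) * ρ 0
        rw [c3]

theorem fincmp_eq (SL SR : ℕ) : fincmp SL SR = ba (Nat.ble SR SL)
    (Bool.rec (small 64 (SL - SR)) false (Nat.beq ((SL - SR) % BB) 0)) := rfl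

theorem fincmp_sound {ρ : ℕ → ℕ} {SL SR vL vR K : ℕ} (h0 : ρ 0 = 1) (hL : Rep ρ 64 K SL vL)
    (hR : Rep ρ 64 K SR vR) (hK : K + 16777216 < BB) (h : fincmp SL SR = true) : vR < vL := by
  rw [fincmp_eq, ba_true] at h
  obtain ⟨h1, h2⟩ := h
  have h1' : SR ≤ SL := Nat.le_of_ble_eq_true h1
  have hb : Nat.beq ((SL - SR) % BB) 0 = false := by
    cases hh : Nat.beq ((SL - SR) % BB) 0
    · rfl
    · rw [hh] at h2; exact absurd h2 (by simp)
  rw [hb] at h2
  obtain ⟨w, hw, hw2⟩ := small_sound 64 (SL - SR) ρ h2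
  rw [h0, mul_one] at hw2
  have hpos : 1 ≤ (SL - SR) % BB := by
    rcases Nat.eq_zero_or_pos ((SL - SR) % BB) with hz | hz
    · rw [hz] at hb; exact absurd hb (by decide)
    · exact hz
  have hsum := hR.add hw
  have he : Nat.add SR (SL - SR) = SL := Nat.add_sub_cancel' h1'
  rw [he] at hsum
  have := hL.unique hsum (by omega) (by omega)
  omega

theorem acc_nil (lam SL SR : ℕ) : acc [] lam SL SR = fincmp SL SR := rfl
theorem acc_cons (c : ℕ × ℕ) (cs : List (ℕ × ℕ)) (lam SL SR : ℕ) : acc (c :: cs) lam SL SR =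
    Bool.rec (acc cs (lam / 65536) (Nat.add SL (Nat.mul (lam % 65536) c.1))
      (Nat.add SR (Nat.mul (lam % 65536) c.2))) (fincmp SL SR) (Nat.beq lam 0) := rfl

theorem acc_sound {ρ : ℕ → ℕ} (h0 : ρ 0 = 1) (D : ℕ) (cs : List (ℕ × ℕ)) :
    ∀ (n lam SL SR vL vR K : ℕ), lam < 65536 ^ n →
    (∀ p ∈ cs, ∃ l r, Rep ρ 64 D p.1 l ∧ Rep ρ 64 D p.2 r ∧ l ≤ r) →
    Rep ρ 64 K SL vL → Rep ρ 64 K SR vR → vL ≤ vR → K + n * (65535 * D) + 16777216 < BB →
    acc cs lam SL SR = true → False := by
  induction cs with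
  | nil =>
    intro n lam SL SR vL vR K _ _ hL hR hv hK h
    rw [acc_nil] at h
    have := fincmp_sound h0 hL hR (by omega) h
    omega
  | cons c cs ih =>
    intro n lam SL SR vL vR K hl hc hL hR hv hK h
    rw [acc_cons] at h
    cases hb : Nat.beq lam 0
    · rw [hb] at h
      cases n with
      | zero =>
        have : lam = 0 := by simpa using hl
        subst this
        exact absurd hb (by decide)
      | succ n =>
        obtain ⟨l, r, h1, h2, h3⟩ := hc c (List.mem_cons_self ..)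
        have hm : lam % 65536 ≤ 65535 := by omega
        have hmD : (lam % 65536) * D ≤ 65535 * D := Nat.mul_le_mul_right _ hm
        refine ih n (lam / 65536) _ _ _ _ (K + 65535 * D) ?_ (fun p hp => hc p
          (List.mem_cons_of_mem _ hp)) ((hL.add (h1.mul (lam % 65536))).mono le_rfl (by omega)
          (fun _ _ => rfl)) ((hR.add (h2.mul (lam % 65536))).mono le_rfl (by omega)
          (fun _ _ => rfl)) ?_ ?_ h
        · rw [pow_succ] at hl
          exact Nat.div_lt_of_lt_mul (by rw [mul_comm]; exact hl)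
        · exact Nat.add_le_add hv (Nat.mul_le_mul_left _ h3)
        · have : (n + 1) * (65535 * D) = n * (65535 * D) + 65535 * D := by ring
          omega
    · rw [hb] at h
      have := fincmp_sound h0 hL hR (by omega) h
      omega

end Pool.Agent.Tron
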