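import Pool.Agent.Tron.Chain
import Pool.Agent.Tron.Arith

namespace Pool.Agent.Tron

open Finset

set_option linter.unusedSectionVars false

variable {V : Type*} [Fintype V]

/-- The vertices closer to `r` than to `r'`. -/
noncomputable def sideSet (T : TM V) (r r' : V) : Finset V :=
  univ.filter (fun y => T.d r y < T.d r' y)

/-- Vertices of the side whose path from the root leaves the spine at depth `p`. -/
noncomputable def fib (T : TM V) (r r' t : V) (p : ℕ) : Finset V :=
  (sideSet T r r').filter (fun y => T.mt r t y = p)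

/-- Depth of the branch at depth `p` of the spine. -/
noncomputable def spF (T : TM V) (r r' t : V) (p : ℕ) : ℕ :=
  (fib T r r' t p).sup (fun y => T.d r y - p)

/-- Size of the branch at depth `p` of the spine (spine vertex excluded). -/
noncomputable def spG (T : TM V) (r r' t : V) (p : ℕ) : ℕ := (fib T r r' t p).card - 1

/-- An edge `r r'` with deepest vertices `t`, `t'` on the two sides. -/
structure Fl (T : TM V) (r r' t t' : V) (h h' : ℕ) : Prop where
  adj : T.d r r' = 1
  tm : T.d r t < T.d r' t
  tm' : T.d r' t' < T.d r t'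
  ht : T.d r t = h
  ht' : T.d r' t' = h'
  mx : ∀ y, T.d r y < T.d r' y → T.d r y ≤ h
  mx' : ∀ y, T.d r' y < T.d r y → T.d r' y ≤ h'

section
variable {T : TM V} {r r' t t' : V} {h h' : ℕ}

theorem Fl.swap (hf : Fl T r r' t t' h h') : Fl T r' r t' t h' h :=
  ⟨by rw [T.symm]; exact hf.adj, hf.tm', hf.tm, hf.ht', hf.ht, hf.mx', hf.mx⟩

theorem mem_side {y : V} : y ∈ sideSet T r r' ↔ T.d r y < T.d r' y := by
  simp [sideSet]

theorem mem_fib {y : V} {p : ℕ} : y ∈ fib T r r' t p ↔ T.d r y < T.d r' y ∧ T.mt r t y = p := by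
  simp [fib, mem_side]

theorem side_or (hadj : T.d r r' = 1) (y : V) : T.d r y < T.d r' y ∨ T.d r' y < T.d r y := by
  have := T.par r r' y
  omega

theorem side_eq (hadj : T.d r r' = 1) {y : V} (hy : T.d r y < T.d r' y) :
    T.d r' y = T.d r y + 1 := by
  have := T.tri r' r y
  have := T.symm r r'
  omega

theorem cross (hadj : T.d r r' = 1) {y y' : V} (hy : T.d r y < T.d r' y)
    (hy' : T.d r' y' < T.d r y') : T.d y y' = T.d r y + 1 + T.d r' y' := by
  have h1 := side_eq hadj hy
  have h2 := side_eq (r := r') (r' := r) (by rw [T.symm]; exact hadj) hy'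
  have h3 := T.four y r' r y'
  have h4 := T.tri y r y'
  have h5 := T.symm r y
  have h6 := T.symm r' y
  have h7 := T.symm r r'
  omega

/-- an ancestor (from `r`) of a vertex of the side of `r` is on that side -/
theorem anc_side (hadj : T.d r r' = 1) {y e : V} (he : T.d r e < T.d r' e)
    (hy : T.mt r y e = T.d r y) : T.d r y < T.d r' y := by
  rcases side_or hadj y with h | h
  · exact h
  · have h1 := cross hadj he h
    have h2 := T.mt_spec r y e
    have h3 := T.symm y e
    omega

theorem spF_ge {y : V} {p : ℕ} (hy : T.d r y < T.d r' y) (hp : T.mt r t y = p) :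
    T.d r y ≤ p + spF T r r' t p := by
  have : T.d r y - p ≤ spF T r r' t p :=
    Finset.le_sup (f := fun y => T.d r y - p) (mem_fib.2 ⟨hy, hp⟩ : y ∈ fib T r r' t p)
  omega

theorem spine_mem (hadj : T.d r r' = 1) (ht : T.d r t < T.d r' t) {p : ℕ} (hp : p ≤ T.d r t) :
    ∃ z, T.d r z < T.d r' z ∧ T.mt r t z = p ∧ T.d r z = p := by
  obtain ⟨z, h1, h2, h3⟩ := T.anc r t hp
  refine ⟨z, anc_side hadj ht (by rw [h2, h1]), ?_, h1⟩
  rw [T.mt_comm]; exact h2

theorem spF_ex (hadj : T.d r r' = 1) (ht : T.d r t < T.d r' t) {p : ℕ} (hp : p ≤ T.d r t) :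
    ∃ y, T.d r y < T.d r' y ∧ T.mt r t y = p ∧ T.d r y = p + spF T r r' t p := by
  obtain ⟨z, h1, h2, h3⟩ := spine_mem hadj ht hp
  obtain ⟨y, hy, hy2⟩ := Finset.exists_mem_eq_sup (fib T r r' t p) ⟨z, mem_fib.2 ⟨h1, h2⟩⟩
    (fun y => T.d r y - p)
  obtain ⟨hy3, hy4⟩ := mem_fib.1 hy
  refine ⟨y, hy3, hy4, ?_⟩
  have h5 : spF T r r' t p = T.d r y - p := hy2
  have h6 := T.mt_le_right r t y
  omega

theorem side_profile (hadj : T.d r r' = 1) (ht : T.d r t < T.d r' t)
    (hmx : ∀ y, T.d r y < T.d r' y → T.d r y ≤ T.d r t) :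
    Side (T.d r t) (sideSet T r r').card (spF T r r' t) (spG T r r' t) := by
  classical
  have hpos : ∀ p ≤ T.d r t, 1 ≤ (fib T r r' t p).card := by
    intro p hp
    obtain ⟨z, h1, h2, h3⟩ := spine_mem hadj ht hp
    exact Finset.card_pos.2 ⟨z, mem_fib.2 ⟨h1, h2⟩⟩
  constructor
  · intro p hp
    obtain ⟨y, h1, h2, h3⟩ := spF_ex hadj ht hp
    refine ⟨by rw [← h3]; exact hmx y h1, ?_⟩
    have := T.fiber_card r t y h2 h3 (fib T r r' t p) (fun x hx hx2 =>
      mem_fib.2 ⟨anc_side hadj h1 hx2, hx⟩)
    unfold spG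
    omega
  · intro s hs
    have h1 : (sideSet T r r').card = ∑ p ∈ range (T.d r t + 1), (fib T r r' t p).card := by
      apply Finset.card_eq_sum_card_fiberwise
      intro y _
      have := T.mt_le_left r t y
      exact Finset.mem_coe.2 (Finset.mem_range.2 (by omega))
    have h2 : ∑ p ∈ range (T.d r t + 1), (fib T r r' t p).card =
        ∑ p ∈ range (T.d r t + 1), (1 + spG T r r' t p) := by
      apply Finset.sum_congr rfl
      intro p hp
      have := hpos p (by have := Finset.mem_range.1 hp; omega)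
      unfold spG
      omega
    rw [h1, h2, Finset.sum_add_distrib]
    have h3 : ∑ p ∈ s, spG T r r' t p ≤ ∑ p ∈ range (T.d r t + 1), spG T r r' t p :=
      Finset.sum_le_sum_of_subset (fun p hp => Finset.mem_range.2 (by have := hs p hp; omega))
    simp only [Finset.sum_const, Finset.card_range, smul_eq_mul, mul_one]
    omega

/-- a set of vertices strictly inside the branch at depth `p` containing `v` -/
theorem branch_card (hadj : T.d r r' = 1) (ht : T.d r t < T.d r' t) {v : V} {p : ℕ}
    (hv : T.mt r t v = p) (B : Finset V)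
    (hB : ∀ y ∈ B, T.d r y < T.d r' y ∧ p < T.mt r v y) : B.card ≤ spG T r r' t p := by
  classical
  have hp : p ≤ T.d r t := by rw [← hv]; exact T.mt_le_left r t v
  obtain ⟨z, h1, h2, h3⟩ := spine_mem hadj ht hp
  have hz : z ∉ B := by
    intro hz
    have := (hB z hz).2
    have := T.mt_le_right r v z
    omega
  have hsub : insert z B ⊆ fib T r r' t p := by
    intro y hy
    rcases Finset.mem_insert.1 hy with rfl | hy
    · exact mem_fib.2 ⟨h1, h2⟩
    · obtain ⟨g1, g2⟩ := hB y hy
      have := T.mt_three r t v y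
      exact mem_fib.2 ⟨g1, by omega⟩
  have := Finset.card_le_card hsub
  rw [Finset.card_insert_of_notMem hz] at this
  unfold spG
  omega

/-- the path between two vertices of the same branch lies in the branch -/
theorem branch_path (hadj : T.d r r' = 1) (ht : T.d r t < T.d r' t) {v e : V} {p : ℕ}
    (hvS : T.d r v < T.d r' v) (heS : T.d r e < T.d r' e)
    (hv : T.mt r t v = p) (he : p < T.mt r v e) : T.d v e + 1 ≤ spG T r r' t p := by
  classical
  have h : ∀ i : Fin (T.d v e + 1), ∃ z, T.d v z = i ∧ T.d z e + i = T.d v e := fun i =>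
    T.geo v e i (by have := i.2; omega)
  choose f hf1 hf2 using h
  have hinj : Function.Injective f := by
    intro i j hij
    have := hf1 i
    rw [hij, hf1 j] at this
    exact Fin.ext this.symm
  have hcard : (univ.image f).card = T.d v e + 1 := by
    rw [Finset.card_image_of_injective _ hinj, Finset.card_univ, Fintype.card_fin]
  rw [← hcard]
  refine branch_card hadj ht hv _ ?_
  intro y hy
  obtain ⟨i, _, rfl⟩ := Finset.mem_image.1 hy
  have s1 := T.mt_spec r v e
  have s2 := T.mt_spec r v (f i)
  have s3 := T.mt_spec r (f i) e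
  have l2 := T.mt_le_right r v (f i)
  have l3 := T.mt_le_left r (f i) e
  have g1 := hf1 i
  have g2 := hf2 i
  refine ⟨?_, by omega⟩
  rcases side_or hadj (f i) with h | h
  · exact h
  · have c1 := cross hadj hvS h
    have c2 := cross hadj heS h
    have := T.symm e (f i)
    omega

end

end Pool.Agent.Tron
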