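import Pool.Agent.Tron.SideS

namespace Pool.Agent.Tron

open Finset

set_option linter.unusedSectionVars false

variable {V : Type*} [Fintype V] {T : TM V} {r r' t t' : V} {h h' : ℕ}

theorem Ch.mono {m D i0 H dd N N' : ℕ} (hc : Ch m D i0 H dd N) (hN : N ≤ N') :
    Ch m D i0 H dd N' := by
  obtain ⟨ω', z1, a1, aw, g1, g2, g3, g4, g5, g6, g7, g8, g9, g10, g11, g12⟩ := hc
  refine ⟨ω', z1, a1, aw, g1, g2, g3, g4, g5, g6, g7, g8, g9, g10, by omega, ?_⟩
  rcases g12 with g | ⟨z2, a2, k1, k2, k3, k4, k5, k6⟩
  · exact Or.inl g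
  · right
    refine ⟨z2, a2, k1, k2, k3, k4, by omega, ?_⟩
    rcases k6 with k | ⟨z3, a3, l1, l2, l3, l4, l5⟩
    · exact Or.inl k
    · exact Or.inr ⟨z3, a3, l1, l2, l3, l4, by omega⟩

/-- Case of a response on the side of the start vertex. -/
theorem sideO (hf : Fl T r r' t t' h h') {m q ω : ℕ} {a v : V} (hm : 1 ≤ m)
    (haS : T.d r' a < T.d r a) (ha : T.d r' a = q) (ha2 : T.mt r' t' a = q)
    (hv : T.d r' v < T.d r v) (hG : GoodW T m a v ω) (hq : 2 * q + 1 ≤ m)
    (hnb : h + 2 * q + 1 ≤ h' + m) :
    (∃ D N, N + q + 1 ≤ (sideSet T r' r).card ∧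
      (h' ≤ q + (q + 1 + h + m) → Ch m D 0 (q + 1 + h) (h' - q) N)) ∨
    (∃ μ < q, μ ≤ h' ∧ m + (q + 1 + h) + 1 ≤ spG T r' r t' μ ∧
      (q + h' ≤ 2 * μ + (q + 1 + h + m) →
        ∃ D, Ch m D (q - μ) (q + 1 + h) (q + h' - 2 * μ) (spG T r' r t' μ))) := by
  classical
  have hadj := hf.adj
  have hadj' : T.d r' r = 1 := by rw [T.symm]; exact hadj
  have hqh : q ≤ h' := by rw [← ha2, ← hf.ht']; exact T.mt_le_left r' t' a
  set μ := T.mt r' a v with hμ
  have hμq : μ ≤ q := by rw [← ha]; exact T.mt_le_left r' a v
  have hDav : T.d a v + 2 * μ = q + T.d r' v := by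
    have := T.mt_spec r' a v; omega
  have hDG := hG.2.1
  -- distances
  have daS : ∀ y, T.d r y < T.d r' y → T.d a y = q + 1 + T.d r y := by
    intro y hy
    have := cross hadj hy haS
    have := T.symm a y
    omega
  have dvS : ∀ y, T.d r y < T.d r' y → T.d v y = T.d r' v + 1 + T.d r y := by
    intro y hy
    have := cross hadj hy hv
    have := T.symm v y
    omega
  have LS : ∀ y, T.d r y < T.d r' y → T.mt a v y + μ = q := by
    intro y hy
    have h1 := T.mt_spec a v y
    have h2 := daS y hy
    have h3 := dvS y hy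
    omega
  have LO : ∀ y, T.mt a v y + μ + T.mt r' a y = q + T.mt r' v y := by
    intro y
    have h1 := T.mt_spec a v y
    have h2 := T.mt_spec r' a y
    have h3 := T.mt_spec r' v y
    omega
  have h3 : ∀ y, _ := fun y => T.mt_three r' a v y
  have haa : T.mt r' a t' = q := by rw [T.mt_comm]; exact ha2
  have hLt := LS t hf.tm
  have hdt := daS t hf.tm
  have hht := hf.ht
  rcases Nat.lt_or_ge μ q with hlt | hge
  · right
    -- first chain, to get `D ≥ m + 2`
    have hvt' : T.mt r' v t' = μ := by
      have := h3 t'; omega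
    have ht'v : T.mt a v t' = 0 := by
      have := LO t'; omega
    have hat' : T.d a t' + q = h' := by
      have h1 := T.mt_spec r' t' a
      have h2 := T.symm t' a
      have h3 := hf.ht'
      omega
    obtain ⟨⟨e1, he1a, he1b, he1c, he1d, he1e⟩, _⟩ := chain T hG t' (by
        rw [ht'v]; omega) (h' - q + m) (by
        intro y hy
        rcases side_or hadj y with hs | hs
        · have h1 := daS y hs
          have h2 := hf.mx y hs
          omega
        · have h1 := T.mt_spec r' a y
          have h2 := hf.mx' y hs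
          omega) (by omega)
    obtain ⟨hω1, hω2, ⟨ew, hew1, hew2⟩, hthr⟩ := hG
    have hωq : q + 2 ≤ ω := by omega
    have hpv : T.mt r' t' v = μ := by rw [T.mt_comm]; exact hvt'
    -- vertices beyond the branching point
    have beyond : ∀ y, q - μ < T.mt a v y →
        T.d r' y < T.d r y ∧ μ < T.mt r' v y ∧ T.mt r' a y = μ := by
      intro y hy
      have h1 := LO y
      have h2 := h3 y
      refine ⟨?_, by omega, by omega⟩
      rcases side_or hadj y with hs | hs
      · have := LS y hs; omega
      · exact hs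
    refine ⟨μ, hlt, by omega, ?_, ?_⟩
    · obtain ⟨e, he1, he2⟩ := hthr t (by omega)
      obtain ⟨g1, g2, g3⟩ := beyond e (by omega)
      have := branch_path hadj' hf.tm' hv g1 hpv g2
      omega
    · intro hdd
      refine ⟨T.d a v, ?_⟩
      have hGW : GoodW T m a v ω := ⟨hω1, hω2, ⟨ew, hew1, hew2⟩, hthr⟩
      obtain ⟨_, hCh⟩ := chain T hGW t (by omega) (q + h' - 2 * μ) (by
        intro y hy
        obtain ⟨g1, g2, g3⟩ := beyond y (by omega)
        have h1 := T.mt_spec r' a y
        have h2 := hf.mx' y g1
        omega) (by omega)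
      have e1 : T.mt a v t = q - μ := by omega
      have e2 : T.d a t = q + 1 + h := by omega
      rw [e1, e2] at hCh
      refine hCh.mono ?_
      refine branch_card hadj' hf.tm' (v := v) hpv _ ?_
      intro y hy
      have hy' := (Finset.mem_filter.1 hy).2
      obtain ⟨g1, g2, g3⟩ := beyond y hy'
      exact ⟨g1, g2⟩
  · left
    have hμe : μ = q := le_antisymm hμq hge
    have beyond : ∀ y, 0 < T.mt a v y →
        T.d r' y < T.d r y ∧ q < T.mt r' v y ∧ T.mt r' a y = q := by
      intro y hy
      have h1 := LO y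
      have h2 := h3 y
      refine ⟨?_, by omega, by omega⟩
      rcases side_or hadj y with hs | hs
      · have := LS y hs; omega
      · exact hs
    refine ⟨T.d a v, (univ.filter (fun y => 0 < T.mt a v y)).card, ?_, ?_⟩
    · set C := univ.filter (fun y => 0 < T.mt a v y) with hC
      set A := (sideSet T r' r).filter (fun y => T.mt r' y a = T.d r' y) with hA
      have hAc : q + 1 ≤ A.card := by
        refine T.fiber_card r' r' a (T.mt_root r' a) (by rw [ha, zero_add]) A ?_
        intro y _ hy
        exact Finset.mem_filter.2 ⟨mem_side.2 (anc_side hadj' haS hy), hy⟩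
      have hdisj : Disjoint C A := by
        rw [Finset.disjoint_left]
        intro y hyC hyA
        obtain ⟨g1, g2, g3⟩ := beyond y (Finset.mem_filter.1 hyC).2
        have h1 := (Finset.mem_filter.1 hyA).2
        have h2 := T.mt_comm r' y a
        have h4 := T.mt_le_right r' v y
        omega
      have hsub : C ∪ A ⊆ sideSet T r' r := by
        intro y hy
        rcases Finset.mem_union.1 hy with hy | hy
        · exact mem_side.2 (beyond y (Finset.mem_filter.1 hy).2).1
        · exact (Finset.mem_filter.1 hy).1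
      have := Finset.card_le_card hsub
      rw [Finset.card_union_of_disjoint hdisj] at this
      omega
    · intro hdd
      obtain ⟨_, hCh⟩ := chain T hG t (by omega) (h' - q) (by
        intro y hy
        obtain ⟨g1, g2, g3⟩ := beyond y (by omega)
        have h1 := T.mt_spec r' a y
        have h2 := hf.mx' y g1
        omega) (by omega)
      have e1 : T.mt a v t = 0 := by omega
      have e2 : T.d a t = q + 1 + h := by omega
      rw [e1, e2] at hCh
      exact hCh

end Pool.Agent.Tron
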