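import Pool.Agent.Tron.SideF

namespace Pool.Agent.Tron

open Finset

set_option linter.unusedSectionVars false

variable {V : Type*} [Fintype V] {T : TM V} {r r' t t' : V} {h h' : ℕ}

/-- The product with the start vertex `a` on the other spine. -/
theorem mt_spine {a : V} {q : ℕ} (ha : T.d r' a = q) (ha2 : T.mt r' t' a = q) (y : V) :
    (T.mt r' t' y < q → T.mt r' a y = T.mt r' t' y) ∧ (q ≤ T.mt r' t' y → T.mt r' a y = q) := by
  have h1 := T.mt_three r' t' a y
  have h2 := T.mt_le_left r' a y
  constructor
  · intro h; omega
  · intro h; omega

/-- Case of a response on the other side of the flip edge. -/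
theorem sideS (hf : Fl T r r' t t' h h') {m q ω : ℕ} {a v : V} (hm : 1 ≤ m)
    (haS : T.d r' a < T.d r a) (ha : T.d r' a = q) (ha2 : T.mt r' t' a = q)
    (hv : T.d r v < T.d r' v) (hG : GoodW T m a v ω) (hq : 2 * q + 1 ≤ m)
    (hnb : h + 2 * q + 1 ≤ h' + m) :
    (∃ pv ev b, Facts m h h' q (spF T r r' t) (spG T r r' t) (spF T r' r t') pv ev b) ∨
    (∃ pv ≤ h, T.d r v ≤ pv + spF T r r' t pv ∧
      Ch m (q + 1 + T.d r v) (q + 1 + pv) (q + 1 + h) (q + 1 + h) (spG T r r' t pv)) := by
  classical
  have hadj := hf.adj
  have hadj' : T.d r' r = 1 := by rw [T.symm]; exact hadj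
  have hsa := T.symm a v
  have hDav : T.d a v = q + 1 + T.d r v := by
    have := cross hadj hv haS; omega
  -- distances
  have daS : ∀ y, T.d r y < T.d r' y → T.d a y = q + 1 + T.d r y := by
    intro y hy
    have := cross hadj hy haS
    have := T.symm a y
    omega
  have dvO : ∀ y, T.d r' y < T.d r y → T.d v y = T.d r v + 1 + T.d r' y := fun y hy =>
    cross hadj hv hy
  have LS : ∀ y, T.d r y < T.d r' y → T.mt a v y = q + 1 + T.mt r v y := by
    intro y hy
    have h1 := T.mt_spec a v y
    have h2 := T.mt_spec r v y
    have h3 := daS y hy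
    omega
  have LO : ∀ y, T.d r' y < T.d r y → T.mt a v y + T.mt r' a y = q := by
    intro y hy
    have h1 := T.mt_spec a v y
    have h2 := T.mt_spec r' a y
    have h3 := dvO y hy
    omega
  have mO : ∀ y, (T.mt r' t' y < q → T.mt r' a y = T.mt r' t' y) ∧
      (q ≤ T.mt r' t' y → T.mt r' a y = q) := mt_spine ha ha2
  have hqh : q ≤ h' := by rw [← ha2, ← hf.ht']; exact T.mt_le_left r' t' a
  have ht'v : T.mt a v t' = 0 := by
    have h1 := LO t' hf.tm'
    have h2 := T.mt_comm r' a t'
    omega
  have hat' : T.d a t' + q = h' := by
    have h1 := T.mt_spec r' t' a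
    have h2 := T.symm t' a
    have h3 := hf.ht'
    omega
  obtain ⟨⟨e1, he1a, he1b, he1c, he1d, he1e⟩, _⟩ := chain T hG t' (by
      rw [ht'v]; have := hG.2.1; omega) (h' - q + m) (by
      intro y hy
      rcases side_or hadj y with hs | hs
      · have h1 := daS y hs
        have h2 := hf.mx y hs
        omega
      · have h1 := LO y hs
        have h2 := T.mt_spec r' a y
        have h3 := hf.mx' y hs
        omega) (by omega)
  rw [ht'v] at he1a he1b
  obtain ⟨hω1, hω2, ⟨ew, hew1, hew2⟩, hthr⟩ := hG
  have hωq : q + 2 ≤ ω := by omega
  -- the spine vertex of `v`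
  set pv := T.mt r t v with hpv
  have hpvv : pv ≤ T.d r v := T.mt_le_right r t v
  have hpvh : pv ≤ h := by rw [← hf.ht]; exact T.mt_le_left r t v
  have hvF : T.d r v ≤ pv + spF T r r' t pv := spF_ge hv rfl
  have hvh : T.d r v ≤ h := hf.mx v hv
  have hvt : T.mt r v t = pv := by rw [T.mt_comm]
  by_cases hb : ω ≤ q + 1 + pv
  · left
    refine ⟨pv, T.d r v - pv, ω - (q + 1), ?_⟩
    -- a general answer in the own side
    have ans : ∀ e α, T.d r e < T.d r' e → m + α ≤ T.d v e →
        (T.mt r v e < pv ∧ m + α + T.mt r v e ≤ T.d r v + spF T r r' t (T.mt r v e)) ∨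
        (m + α + pv ≤ (T.d r v - pv) + h) ∨ (m + α + 1 ≤ spG T r r' t pv) := by
      intro e α heS hα
      have h1 := T.mt_spec r v e
      have h3 := T.mt_three r t v e
      have h4 := hf.mx e heS
      rcases Nat.lt_trichotomy (T.mt r v e) pv with hc | hc | hc
      · left
        have h5 : T.mt r t e = T.mt r v e := by omega
        have h6 := spF_ge (t := t) heS h5
        exact ⟨hc, by omega⟩
      · right; left; omega
      · right; right
        have := branch_path hadj hf.tm hv heS hpv.symm hc
        omega
    constructor
    · omega
    · omega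
    · omega
    · omega
    · -- final
      have hewS : T.d r ew < T.d r' ew := by
        rcases side_or hadj ew with hs | hs
        · exact hs
        · have := LO ew hs; omega
      have h1 := LS ew hewS
      have h2 := T.mt_spec r v ew
      have h3 := T.mt_three r t v ew
      have h4 := hf.mx ew hewS
      by_cases hc : ω = q + 1 + pv
      · left; constructor <;> omega
      · right
        have h5 : T.mt r t ew = T.mt r v ew := by omega
        have h6 := spF_ge (t := t) hewS h5
        have h7 : T.mt r v ew = ω - (q + 1) := by omega
        rw [h7] at h6 h2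
        constructor <;> omega
    · -- own threats
      intro p hp
      obtain ⟨y, hy1, hy2, hy3⟩ := spF_ex (p := p) hadj hf.tm (by rw [hf.ht]; omega)
      have h3 := T.mt_three r t v y
      have h4 := LS y hy1
      have h5 := daS y hy1
      obtain ⟨e, he1, he2⟩ := hthr y (by omega)
      have heS : T.d r e < T.d r' e := by
        rcases side_or hadj e with hs | hs
        · exact hs
        · have := LO e hs; omega
      have h6 := LS e heS
      rcases ans e (T.d a y) heS he2 with ⟨g1, g2⟩ | g | g
      · left
        exact ⟨T.mt r v e, by omega, g1, by omega⟩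
      · right; left; omega
      · right; right; omega
    · -- threats on the other side
      intro p hp
      obtain ⟨y, hy1, hy2, hy3⟩ := spF_ex (p := p) hadj' hf.tm' (by rw [hf.ht']; omega)
      have h4 := LO y hy1
      have h5 := (mO y).1 (by omega)
      have h6 := T.mt_spec r' a y
      obtain ⟨e, he1, he2⟩ := hthr y (by omega)
      rcases side_or hadj e with hs | hs
      · rcases ans e (T.d a y) hs he2 with ⟨g1, g2⟩ | g | g
        · left
          exact ⟨T.mt r v e, g1, by omega⟩
        · right; right; left; omega
        · right; right; right; omega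
      · right; left
        have h7 := LO e hs
        have h8 : T.mt r' t' e < q := by
          by_contra hcon
          have := (mO e).2 (by omega)
          omega
        have h9 := (mO e).1 h8
        have h10 := dvO e hs
        have h11 := spF_ge (t := t') hs (rfl : T.mt r' t' e = T.mt r' t' e)
        exact ⟨T.mt r' t' e, by omega, by omega⟩
    · -- the argmax
      have hown : ∀ y < pv, T.d r v + spF T r r' t y ≤ T.d v e1 + y := by
        intro y hy
        obtain ⟨x, hx1, hx2, hx3⟩ := spF_ex (p := y) hadj hf.tm (by rw [hf.ht]; omega)
        have h3 := T.mt_three r t v x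
        have h4 := LS x hx1
        have h5 := he1b x (by omega)
        have h6 := T.mt_spec r v x
        omega
      have hoth : ∀ y < q, T.d r v + 1 + y + spF T r' r t' y ≤ T.d v e1 := by
        intro y hy
        obtain ⟨x, hx1, hx2, hx3⟩ := spF_ex (p := y) hadj' hf.tm' (by rw [hf.ht']; omega)
        have h4 := LO x hx1
        have h5 := (mO x).1 (by omega)
        have h6 := he1b x (by omega)
        have h7 := dvO x hx1
        omega
      have hspine : h + (T.d r v - pv) ≤ T.d v e1 + pv := by
        have h4 := LS t hf.tm
        have h5 := he1b t (by omega)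
        have h6 := T.mt_spec r v t
        have h7 := hf.ht
        omega
      rcases side_or hadj e1 with hs | hs
      · left
        have h1 := LS e1 hs
        have h2 := T.mt_spec r v e1
        have h3 := T.mt_three r t v e1
        set z := T.mt r v e1 with hz
        have h5 : T.mt r t e1 = z := by omega
        have h6 := spF_ge (t := t) hs h5
        have h7 := hown z (by omega)
        have h8 : T.d v e1 + z = T.d r v + spF T r r' t z := by omega
        refine ⟨z, by omega, by omega, by omega, by omega, ?_, ?_⟩
        · intro y hy
          have := hown y hy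
          omega
        · intro y hy
          have := hoth y hy
          omega
      · right
        have h1 := LO e1 hs
        have h2 : T.mt r' t' e1 < q := by
          by_contra hcon
          have := (mO e1).2 (by omega)
          omega
        have h3 := (mO e1).1 h2
        have h4 := dvO e1 hs
        set z := T.mt r' t' e1 with hz
        have h6 := spF_ge (t := t') hs hz.symm
        have h7 := hoth z h2
        have h8 : T.d v e1 = T.d r v + 1 + z + spF T r' r t' z := by omega
        refine ⟨z, h2, by omega, by omega, by omega, ?_, ?_⟩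
        · intro y hy
          have := hown y hy
          omega
        · intro y hy
          have := hoth y hy
          omega
  · right
    refine ⟨pv, hpvh, hvF, ?_⟩
    have hGW : GoodW T m a v ω := ⟨hω1, hω2, ⟨ew, hew1, hew2⟩, hthr⟩
    have hLt := LS t hf.tm
    have hdt := daS t hf.tm
    have hht := hf.ht
    obtain ⟨_, hCh⟩ := chain T hGW t (by omega) (q + 1 + h) (by
      intro y hy
      rcases side_or hadj y with hs | hs
      · have h1 := daS y hs
        have h2 := hf.mx y hs
        omega
      · have h1 := LO y hs
        omega) (by omega)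
    have e1 : T.mt a v t = q + 1 + pv := by omega
    have e2 : T.d a t = q + 1 + h := by omega
    rw [e1, e2, hDav] at hCh
    have hcard : (univ.filter (fun y => q + 1 + pv < T.mt a v y)).card ≤ spG T r r' t pv := by
      refine branch_card hadj hf.tm (v := v) rfl _ ?_
      intro y hy
      have hy' := (Finset.mem_filter.1 hy).2
      have hs : T.d r y < T.d r' y := by
        rcases side_or hadj y with hs | hs
        · exact hs
        · have := LO y hs; omega
      have := LS y hs
      exact ⟨hs, by omega⟩
    obtain ⟨ω', z1, a1, aw, g1, g2, g3, g4, g5, g6, g7, g8, g9, g10, g11, g12⟩ := hCh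
    refine ⟨ω', z1, a1, aw, g1, g2, g3, g4, g5, g6, g7, g8, g9, g10, by omega, ?_⟩
    rcases g12 with g | ⟨z2, a2, k1, k2, k3, k4, k5, k6⟩
    · exact Or.inl g
    · right
      refine ⟨z2, a2, k1, k2, k3, k4, by omega, ?_⟩
      rcases k6 with k | ⟨z3, a3, l1, l2, l3, l4, l5⟩
      · exact Or.inl k
      · exact Or.inr ⟨z3, a3, l1, l2, l3, l4, by omega⟩

end Pool.Agent.Tron
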