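import Pool.Agent.Tron.Rep

namespace Pool.Agent.Tron

open Finset

/-- The facts extracted from one response of Bob (main case). -/
structure Facts (m h h' Q : ℕ) (F G F' : ℕ → ℕ) (pv ev b : ℕ) : Prop where
  b_le : b ≤ pv
  pe : pv + ev ≤ h
  ev_le : ev ≤ F pv
  pe2 : pv + ev ≤ 2 * b + Q
  fin : (b = pv ∧ m + Q + b + pv ≤ ev + h) ∨ (b < pv ∧ m + Q + 2 * b ≤ pv + ev + F b)
  thr : ∀ t < b, (∃ z, t < z ∧ z < pv ∧ m + Q + 1 + t + F t + z ≤ pv + ev + F z) ∨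
    (m + Q + 1 + t + F t + pv ≤ ev + h) ∨ (m + Q + 1 + t + F t + 1 ≤ G pv)
  tho : ∀ t < Q, (∃ z < pv, m + Q + F' t + z ≤ pv + ev + F z + t) ∨
    (∃ z < t, m + Q + F' t ≤ t + pv + ev + 1 + z + F' z) ∨
    (m + Q + F' t + pv ≤ t + ev + h) ∨ (m + Q + F' t + 1 ≤ t + G pv)
  z1 : (∃ z < b, m + h' + z ≤ pv + ev + F z + Q ∧ m + Q + 1 + 2 * z ≤ pv + ev ∧
        h + z ≤ 2 * pv + F z ∧ (∀ y < pv, F y + z ≤ F z + y) ∧
        (∀ y < Q, 1 + y + F' y + z ≤ F z)) ∨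
    (∃ z < Q, m + h' ≤ Q + pv + ev + 1 + z + F' z ∧ m + Q ≤ 2 * z + 1 + pv + ev ∧
        h ≤ 2 * pv + 1 + z + F' z ∧ (∀ y < pv, F y ≤ 1 + z + F' z + y) ∧
        (∀ y < Q, y + F' y ≤ z + F' z))

/-- height of a side -/
def hh (ρ : ℕ → ℕ) (s : ℕ) : ℕ := if s = 0 then ρ 2 else ρ 3
/-- start depth of a response -/
def Qv (ρ : ℕ → ℕ) (r : ℕ) : ℕ := if r ≤ 1 then 0 else if r = 2 then ρ 4 else ρ 5

theorem sd_val (r : ℕ) : sd r = if r % 2 = 1 then 0 else 1 := by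
  unfold sd
  by_cases h : r % 2 = 1
  · have : Nat.beq (Nat.mod r (nat_lit 2)) (nat_lit 1) = true := by
      show Nat.beq (r % 2) 1 = true
      rw [h]; rfl
    rw [this, if_pos h]
  · have h0 : r % 2 = 0 := by omega
    have : Nat.beq (Nat.mod r (nat_lit 2)) (nat_lit 1) = false := by
      show Nat.beq (r % 2) 1 = false
      rw [h0]; rfl
    rw [this, if_neg h]

theorem osd_val (r : ℕ) : osd r = 1 - sd r := rfl

theorem sd_lt (r : ℕ) : sd r < 2 := by rw [sd_val]; split_ifs <;> omega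
theorem osd_lt (r : ℕ) : osd r < 2 := by rw [osd_val]; omega
theorem osd_ne (r : ℕ) : osd r ≠ sd r := by rw [osd_val]; have := sd_lt r; omega

/-- a valid constraint -/
def CT (ρ : ℕ → ℕ) (n : ℕ) (p : ℕ × ℕ) : Prop :=
  ∃ l r, Rep ρ n 16 p.1 l ∧ Rep ρ n 16 p.2 r ∧ l ≤ r

theorem CT.mk {ρ : ℕ → ℕ} {n K K' x y l r : ℕ} (h1 : Rep ρ n K x l) (h2 : Rep ρ n K' y r)
    (hK : K ≤ 16) (hK' : K' ≤ 16) (h : l ≤ r) : CT ρ n (x, y) :=
  ⟨l, r, h1.mono le_rfl hK (fun _ _ => rfl), h2.mono le_rfl hK' (fun _ _ => rfl), h⟩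

theorem CT.ext {ρ ρ' : ℕ → ℕ} {n n' : ℕ} {p : ℕ × ℕ} (h : CT ρ n p) (hn : n ≤ n')
    (hρ : ∀ i < n, ρ' i = ρ i) : CT ρ' n' p := by
  obtain ⟨l, r, h1, h2, h3⟩ := h
  exact ⟨l, r, h1.mono hn le_rfl hρ, h2.mono hn le_rfl hρ, h3⟩

section
variable {ρ : ℕ → ℕ} {n : ℕ}

theorem rep_P {r : ℕ} (hr : r < 4) (hn : 18 ≤ n) : Rep ρ n 1 (P r) (ρ (6 + 3 * r)) :=
  rep_X (i := 6 + 3 * r) (by omega)
theorem rep_E {r : ℕ} (hr : r < 4) (hn : 18 ≤ n) : Rep ρ n 1 (E r) (ρ (7 + 3 * r)) :=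
  rep_X (i := 7 + 3 * r) (by omega)
theorem rep_B {r : ℕ} (hr : r < 4) (hn : 18 ≤ n) : Rep ρ n 1 (B r) (ρ (8 + 3 * r)) :=
  rep_X (i := 8 + 3 * r) (by omega)
theorem rep_m (hn : 18 ≤ n) : Rep ρ n 1 (X (nat_lit 1)) (ρ 1) :=
  rep_X (i := 1) (by omega)

theorem rep_hv (s : ℕ) (hn : 18 ≤ n) : Rep ρ n 1 (hv s) (hh ρ s) := by
  unfold hv hh
  cases s with
  | zero => exact rep_X (i := 2) (by omega)
  | succ s => exact rep_X (i := 3) (by omega)

theorem rep_Q (r : ℕ) (hn : 18 ≤ n) : Rep ρ n 1 (Qf r) (Qv ρ r) := by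
  unfold Qf Qv
  by_cases h1 : r ≤ 1
  · rw [if_pos h1]
    have : Nat.ble r (nat_lit 1) = true := Nat.ble_eq_true_of_le h1
    rw [this]
    exact rep_zero.mono le_rfl (by norm_num) (fun _ _ => rfl)
  · rw [if_neg h1]
    have : Nat.ble r (nat_lit 1) = false := by
      cases hb : Nat.ble r (nat_lit 1)
      · rfl
      · exact absurd (Nat.le_of_ble_eq_true hb) h1
    rw [this]
    by_cases h2 : r = 2
    · subst h2
      exact rep_X (i := 4) (by omega)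
    · rw [if_neg h2]
      have : Nat.beq r (nat_lit 2) = false := by
        cases hb : Nat.beq r (nat_lit 2)
        · rfl
        · exact absurd (Nat.eq_of_beq_eq_true hb) h2
      rw [this]
      exact rep_X (i := 5) (by omega)
end

/-- mark property -/
def MK (F G : ℕ → ℕ → ℕ) (ρ : ℕ → ℕ) (n c : ℕ) : Prop :=
  c / 2 + 2 < n ∧ ρ (c / 2) ≤ hh ρ (c % 2) ∧ ρ (c / 2 + 1) = F (c % 2) (ρ (c / 2)) ∧
    ρ (c / 2 + 2) = G (c % 2) (ρ (c / 2))

/-- argmax property -/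
def AMv (F : ℕ → ℕ → ℕ) (ρ : ℕ → ℕ) (r s z : ℕ) : Prop :=
  (s = sd r ∧ (∀ y < ρ (6 + 3 * r), F (sd r) y + z ≤ F (sd r) z + y) ∧
    (∀ y < Qv ρ r, 1 + y + F (osd r) y + z ≤ F (sd r) z)) ∨
  (s = osd r ∧ (∀ y < ρ (6 + 3 * r), F (sd r) y ≤ 1 + z + F (osd r) z + y) ∧
    (∀ y < Qv ρ r, y + F (osd r) y ≤ z + F (osd r) z))

/-- The facts for response `r` under `ρ`. -/
def FA (F G : ℕ → ℕ → ℕ) (ρ : ℕ → ℕ) (r : ℕ) : Prop :=
  Facts (ρ 1) (hh ρ (sd r)) (hh ρ (osd r)) (Qv ρ r) (F (sd r)) (G (sd r)) (F (osd r))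
    (ρ (6 + 3 * r)) (ρ (7 + 3 * r)) (ρ (8 + 3 * r))

structure Valid (F G : ℕ → ℕ → ℕ) (rs : List ℕ) (base : ℕ) (ρ : ℕ → ℕ) (st : St) : Prop where
  n18 : 18 ≤ st.nv
  r0 : ρ 0 = 1
  cs : ∀ p ∈ st.cs, CT ρ st.nv p
  mks : ∀ c ∈ st.mks, MK F G ρ st.nv c
  pw : st.mks.Pairwise (fun c c' => c % 2 = c' % 2 → ρ (c / 2) ≠ ρ (c' / 2))
  mass : Rep ρ st.nv st.nv st.mass
    (base + (st.mks.map (fun c => G (c % 2) (ρ (c / 2)))).sum)
  facts : ∀ r ∈ rs, FA F G ρ r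
  am : ∀ x ∈ st.am, MK F G ρ st.nv (x / 4) ∧ AMv F ρ (x % 4) (x / 4 % 2) (ρ (x / 4 / 2))
  hmass : ∀ l : List (ℕ × ℕ), l.Nodup → (∀ p ∈ l, p.1 < 2 ∧ p.2 ≤ hh ρ p.1) →
    base + (l.map (fun p => G p.1 p.2)).sum ≤ 10 * ρ 1
  side : ∀ s < 2, ∀ z ≤ hh ρ s, z + F s z ≤ hh ρ s ∧ F s z ≤ G s z
  qh : ∀ r ∈ rs, Qv ρ r ≤ hh ρ (osd r)

/-- validity of the new constraints -/
def NW (F G : ℕ → ℕ → ℕ) (ρ : ℕ → ℕ) (n : ℕ) (nw : ℕ → List (ℕ × ℕ)) (s z : ℕ) : Prop :=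
  ∀ (ρ' : ℕ → ℕ) (n' j : ℕ), (∀ i < n, ρ' i = ρ i) → n ≤ n' → j + 2 < n' → ρ' j = z →
    ρ' (j + 1) = F s z → ρ' (j + 2) = G s z → ∀ p ∈ nw j, CT ρ' n' p

def AMz (F : ℕ → ℕ → ℕ) (ρ : ℕ → ℕ) (u s z : ℕ) : Prop :=
  u = 0 ∨ ∃ r < 4, u = r + 1 ∧ AMv F ρ r s z

/-- the data of a pending choice are correct -/
def PO (F G : ℕ → ℕ → ℕ) (ρ : ℕ → ℕ) (st : St) (pl : List ℕ) (nw : ℕ → List (ℕ × ℕ))
    (u s : ℕ) : Prop :=
  s < 2 ∧ (∀ c ∈ pl, c ∈ st.mks ∧ c % 2 = s) ∧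
  ∃ z, z ≤ hh ρ s ∧ NW F G ρ st.nv nw s z ∧ AMz F ρ u s z ∧
    ∀ c ∈ st.mks, c % 2 = s → c ∈ pl ∨ ρ (c / 2) ≠ z

def PdOK (F G : ℕ → ℕ → ℕ) (ρ : ℕ → ℕ) (st : St) : Pd → Prop
  | .none => True
  | .some pl nw u s => PO F G ρ st pl nw u s

theorem app_eq (l k : List (ℕ × ℕ)) : app l k = l ++ k := by
  induction l with
  | nil => rfl
  | cons a l ih =>
    show a :: app l k = _
    rw [ih]; rfl

theorem mem_sound (a : ℕ) (l : List ℕ) (h : mem a l = true) : a ∈ l := by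
  induction l with
  | nil => exact absurd h (by simp [mem])
  | cons b l ih =>
    have e : mem a (b :: l) = Bool.rec (mem a l) true (Nat.beq a b) := rfl
    rw [e] at h
    cases hb : Nat.beq a b
    · rw [hb] at h
      exact List.mem_cons_of_mem _ (ih h)
    · rw [Nat.eq_of_beq_eq_true hb]
      exact List.mem_cons_self ..

theorem onSide_eq (s : ℕ) (l : List ℕ) : onSide s l = l.filter (fun c => decide (c % 2 = s)) := by
  induction l with
  | nil => rfl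
  | cons a l ih =>
    have e : onSide s (a :: l) = Bool.rec (onSide s l) (a :: onSide s l)
      (Nat.beq (a % 2) s) := rfl
    rw [e, List.filter_cons, ih]
    by_cases h : a % 2 = s
    · have : Nat.beq (a % 2) s = true := by rw [h]; exact Nat.beq_refl s
      rw [this]; simp [h]
    · have : Nat.beq (a % 2) s = false := by
        cases hb : Nat.beq (a % 2) s
        · rfl
        · exact absurd (Nat.eq_of_beq_eq_true hb) h
      rw [this]; simp [h]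

theorem upd_mem {u code x : ℕ} {am : List ℕ} (h : x ∈ upd u code am) :
    x ∈ am ∨ (u ≠ 0 ∧ x = 4 * code + (u - 1)) := by
  cases u with
  | zero => exact Or.inl h
  | succ u =>
    have : upd (u + 1) code am = (4 * code + u) :: am := rfl
    rw [this] at h
    rcases List.mem_cons.1 h with h | h
    · exact Or.inr ⟨by omega, h⟩
    · exact Or.inl h

theorem hh_congr {ρ ρ' : ℕ → ℕ} {n : ℕ} (hn : 18 ≤ n) (hρ : ∀ i < n, ρ' i = ρ i) (s : ℕ) :
    hh ρ' s = hh ρ s := by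
  unfold hh; rw [hρ 2 (by omega), hρ 3 (by omega)]

theorem Qv_congr {ρ ρ' : ℕ → ℕ} {n : ℕ} (hn : 18 ≤ n) (hρ : ∀ i < n, ρ' i = ρ i) (r : ℕ) :
    Qv ρ' r = Qv ρ r := by
  unfold Qv; rw [hρ 4 (by omega), hρ 5 (by omega)]

theorem AMv_congr {F : ℕ → ℕ → ℕ} {ρ ρ' : ℕ → ℕ} {n : ℕ} (hn : 18 ≤ n)
    (hρ : ∀ i < n, ρ' i = ρ i) {r s z : ℕ} (hr : r < 4) (h : AMv F ρ r s z) :
    AMv F ρ' r s z := by
  unfold AMv at *
  rw [Qv_congr hn hρ, hρ (6 + 3 * r) (by omega)]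
  exact h

theorem FA_congr {F G : ℕ → ℕ → ℕ} {ρ ρ' : ℕ → ℕ} {n : ℕ} (hn : 18 ≤ n)
    (hρ : ∀ i < n, ρ' i = ρ i) {r : ℕ} (hr : r < 4) (h : FA F G ρ r) : FA F G ρ' r := by
  unfold FA at *
  rw [hh_congr hn hρ, hh_congr hn hρ, Qv_congr hn hρ, hρ 1 (by omega), hρ (6 + 3 * r) (by omega),
    hρ (7 + 3 * r) (by omega), hρ (8 + 3 * r) (by omega)]
  exact h

theorem MK_congr {F G : ℕ → ℕ → ℕ} {ρ ρ' : ℕ → ℕ} {n n' : ℕ} (hn : 18 ≤ n) (hnn : n ≤ n')
    (hρ : ∀ i < n, ρ' i = ρ i) {c : ℕ} (h : MK F G ρ n c) : MK F G ρ' n' c := by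
  obtain ⟨h1, h2, h3, h4⟩ := h
  refine ⟨by omega, ?_, ?_, ?_⟩
  · rw [hρ _ (by omega), hh_congr hn hρ]; exact h2
  · rw [hρ _ (by omega), hρ _ (by omega)]; exact h3
  · rw [hρ _ (by omega), hρ _ (by omega)]; exact h4

theorem fresh_valid {F G : ℕ → ℕ → ℕ} {rs : List ℕ} {base : ℕ} {ρ : ℕ → ℕ} {st : St}
    (hrs : ∀ r ∈ rs, r < 4) (hV : Valid F G rs base ρ st) {nw : ℕ → List (ℕ × ℕ)} {u s z : ℕ}
    (hs : s < 2) (hz : z ≤ hh ρ s) (hN : NW F G ρ st.nv nw s z) (hA : AMz F ρ u s z)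
    (hd : ∀ c ∈ st.mks, c % 2 = s → ρ (c / 2) ≠ z) :
    ∃ ρ', Valid F G rs base ρ' (fresh st nw u s) := by
  set n := st.nv with hn
  let ρ' : ℕ → ℕ := fun i => if i < n then ρ i else if i = n then z else
    if i = n + 1 then F s z else G s z
  have hρ : ∀ i < n, ρ' i = ρ i := fun i hi => by simp only [ρ', if_pos hi]
  have e0 : ρ' n = z := by simp [ρ']
  have e1 : ρ' (n + 1) = F s z := by simp [ρ']
  have e2 : ρ' (n + 2) = G s z := by simp [ρ']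
  have h18 := hV.n18
  rw [← hn] at h18
  have c1 : (2 * n + s) / 2 = n := by omega
  have c2 : (2 * n + s) % 2 = s := by omega
  have hhe : ∀ s, hh ρ' s = hh ρ s := hh_congr h18 hρ
  have hMK : MK F G ρ' (n + 3) (2 * n + s) := by
    refine ⟨by omega, ?_, ?_, ?_⟩
    · rw [c1, c2, e0, hhe]; exact hz
    · rw [c1, c2, e1, e0]
    · rw [c1, c2, e2, e0]
  have hside := hV.side s hs z hz
  refine ⟨ρ', ⟨?_, ?_, ?_, ?_, ?_, ?_, ?_, ?_, ?_, ?_, ?_⟩⟩
  · show 18 ≤ n + 3; omega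
  · rw [hρ 0 (by omega)]; exact hV.r0
  · intro p hp
    show CT ρ' (n + 3) p
    have hp' : p ∈ (Nat.add (X n) (X (n + 1)), hv s) :: (X (n + 1), X (n + 2)) ::
        (app (nw n) st.cs) := hp
    rw [app_eq] at hp'
    rcases List.mem_cons.1 hp' with h | h
    · subst h
      refine CT.mk ((rep_X (ρ := ρ') (n := n + 3) (i := n) (by omega)).add
        (rep_X (ρ := ρ') (n := n + 3) (i := n + 1) (by omega))) (rep_hv s (by omega))
        (by norm_num) (by norm_num) ?_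
      rw [e0, e1, hhe]; exact hside.1
    · rcases List.mem_cons.1 h with h | h
      · subst h
        refine CT.mk (rep_X (ρ := ρ') (n := n + 3) (i := n + 1) (by omega))
          (rep_X (ρ := ρ') (n := n + 3) (i := n + 2) (by omega)) (by norm_num) (by norm_num) ?_
        rw [e1, e2]; exact hside.2
      · rcases List.mem_append.1 h with h | h
        · exact hN ρ' (n + 3) n hρ (by omega) (by omega) e0 e1 e2 p h
        · exact (hV.cs p h).ext (by omega) hρ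
  · intro c hc
    show MK F G ρ' (n + 3) c
    have hc' : c ∈ (2 * n + s) :: st.mks := hc
    rcases List.mem_cons.1 hc' with h | h
    · subst h; exact hMK
    · exact MK_congr h18 (by omega) hρ (hV.mks c h)
  · show ((2 * n + s) :: st.mks).Pairwise _
    rw [List.pairwise_cons]
    constructor
    · intro c hc he
      have hm := (hV.mks c hc).1
      rw [c1, e0, hρ _ (by omega)]
      rw [c2] at he
      exact fun h => hd c hc he.symm h.symm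
    · refine List.Pairwise.imp_of_mem ?_ hV.pw
      intro a b ha hb hab he
      have hma := (hV.mks a ha).1
      have hmb := (hV.mks b hb).1
      rw [hρ _ (by omega), hρ _ (by omega)]
      exact hab he
  · show Rep ρ' (n + 3) (n + 3) (Nat.add st.mass (X (n + 2)))
      (base + (((2 * n + s) :: st.mks).map (fun c => G (c % 2) (ρ' (c / 2)))).sum)
    have h1 := (hV.mass.mono (ρ' := ρ') (n' := n + 3) (K' := n) (by omega) le_rfl hρ).add
      (rep_X (ρ := ρ') (n := n + 3) (i := n + 2) (by omega))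
    have h2 := h1.mono (K' := n + 3) le_rfl (by omega) (fun _ _ => rfl)
    convert h2 using 1
    rw [List.map_cons, List.sum_cons, c1, c2, e0, e2]
    have : (st.mks.map (fun c => G (c % 2) (ρ' (c / 2)))) =
        (st.mks.map (fun c => G (c % 2) (ρ (c / 2)))) := by
      apply List.map_congr_left
      intro c hc
      have := (hV.mks c hc).1
      rw [hρ _ (by omega)]
    rw [this]; omega
  · intro r hr
    exact FA_congr h18 hρ (hrs r hr) (hV.facts r hr)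
  · intro x hx
    show MK F G ρ' (n + 3) (x / 4) ∧ _
    have hx' : x ∈ upd u (2 * n + s) st.am := hx
    rcases upd_mem hx' with h | ⟨hu, h⟩
    · obtain ⟨h1, h2⟩ := hV.am x h
      refine ⟨MK_congr h18 (by omega) hρ h1, ?_⟩
      rw [hρ _ (by have := h1.1; omega)]
      exact AMv_congr h18 hρ (by omega) h2
    · rcases hA with h0 | ⟨r, hr, hur, hA⟩
      · exact absurd h0 hu
      · have e4 : x / 4 = 2 * n + s := by omega
        have e5 : x % 4 = r := by omega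
        rw [e4, e5, c1, c2, e0]
        exact ⟨hMK, AMv_congr h18 hρ hr hA⟩
  · intro l hl hp
    rw [hρ 1 (by omega)]
    exact hV.hmass l hl (fun p h => by have := hp p h; rw [hhe] at this; exact this)
  · intro s' hs' z' hz'
    rw [hhe] at *
    exact hV.side s' hs' z' hz'
  · intro r hr
    rw [hhe, Qv_congr h18 hρ]
    exact hV.qh r hr

theorem resolve_valid {F G : ℕ → ℕ → ℕ} {rs : List ℕ} {base : ℕ} {ρ : ℕ → ℕ} {st : St}
    (hV : Valid F G rs base ρ st) {nw : ℕ → List (ℕ × ℕ)} {u s z j : ℕ}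
    (hN : NW F G ρ st.nv nw s z) (hA : AMz F ρ u s z) (hj : j ∈ st.mks) (hjs : j % 2 = s)
    (hjz : ρ (j / 2) = z) : Valid F G rs base ρ (resolve st nw u j) := by
  have hM := hV.mks j hj
  refine ⟨hV.n18, hV.r0, ?_, hV.mks, hV.pw, hV.mass, hV.facts, ?_, hV.hmass, hV.side, hV.qh⟩
  · intro p hp
    have hp' : p ∈ app (nw (j / 2)) st.cs := hp
    rw [app_eq] at hp'
    rcases List.mem_append.1 hp' with h | h
    · refine hN ρ st.nv (j / 2) (fun _ _ => rfl) le_rfl hM.1 hjz ?_ ?_ p h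
      · rw [hM.2.2.1, hjs, hjz]
      · rw [hM.2.2.2, hjs, hjz]
    · exact hV.cs p h
  · intro x hx
    have hx' : x ∈ upd u j st.am := hx
    rcases upd_mem hx' with h | ⟨hu, h⟩
    · exact hV.am x h
    · rcases hA with h0 | ⟨r, hr, hur, hA⟩
      · exact absurd h0 hu
      · have e4 : x / 4 = j := by omega
        have e5 : x % 4 = r := by omega
        rw [e4, e5, hjs, hjz]
        exact ⟨hM, hA⟩

theorem go_sound {F G : ℕ → ℕ → ℕ} {rs : List ℕ} {base : ℕ} {ρ : ℕ → ℕ} {st : St}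
    (hrs : ∀ r ∈ rs, r < 4) (hV : Valid F G rs base ρ st) {rec : St → Pd → Bool}
    (IH : ∀ st pd ρ, Valid F G rs base ρ st → PdOK F G ρ st pd → rec st pd = true → False)
    {pl : List ℕ} {nw : ℕ → List (ℕ × ℕ)} {u s : ℕ} (hP : PO F G ρ st pl nw u s)
    (h : go rec st pl nw u s = true) : False := by
  cases pl with
  | nil =>
    obtain ⟨hs, _, z, hz, hN, hA, hd⟩ := hP
    obtain ⟨ρ', hρ'⟩ := fresh_valid hrs hV hs hz hN hA
      (fun c hc he => (hd c hc he).resolve_left (by simp))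
    exact IH _ .none ρ' hρ' trivial h
  | cons a l => exact IH _ (.some (a :: l) nw u s) ρ hV hP h

theorem addC_valid {F G : ℕ → ℕ → ℕ} {rs : List ℕ} {base : ℕ} {ρ : ℕ → ℕ} {st : St}
    (hV : Valid F G rs base ρ st) {l r : ℕ} (h : CT ρ st.nv (l, r)) :
    Valid F G rs base ρ (addC st l r) := by
  refine ⟨hV.n18, hV.r0, ?_, hV.mks, hV.pw, hV.mass, hV.facts, hV.am, hV.hmass, hV.side, hV.qh⟩
  intro p hp
  have hp' : p ∈ (l, r) :: st.cs := hp
  rcases List.mem_cons.1 hp' with h' | h'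
  · subst h'; exact h
  · exact hV.cs p h'

theorem po_start {F G : ℕ → ℕ → ℕ} {ρ : ℕ → ℕ} {st st' : St} {nw : ℕ → List (ℕ × ℕ)} {u s z : ℕ}
    (hs : s < 2) (hz : z ≤ hh ρ s) (hN : NW F G ρ st'.nv nw s z) (hA : AMz F ρ u s z)
    (hst : st'.mks = st.mks) : PO F G ρ st' (onSide s st.mks) nw u s := by
  refine ⟨hs, ?_, z, hz, hN, hA, ?_⟩
  · intro c hc
    rw [onSide_eq] at hc
    have := List.mem_filter.1 hc
    rw [hst]
    exact ⟨this.1, by simpa using this.2⟩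
  · intro c hc he
    left
    rw [onSide_eq]
    rw [hst] at hc
    exact List.mem_filter.2 ⟨hc, by simpa using he⟩

end Pool.Agent.Tron
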