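import Pool.Agent.Tron.Sound

namespace Pool.Agent.Tron

open Finset

section NWs
variable {F G : ℕ → ℕ → ℕ} {ρ : ℕ → ℕ} {n : ℕ} {r : ℕ}

/-- abbreviations of the values -/
theorem nwE_ok (hr : r < 4) (hn : 18 ≤ n)
    (hev : ρ (7 + 3 * r) ≤ F (sd r) (ρ (8 + 3 * r))) :
    NW F G ρ n (nwE r) (sd r) (ρ (8 + 3 * r)) := by
  intro ρ' n' j hρ hn' hj h0 h1 h2 p hp
  have k1 := hρ (7 + 3 * r) (by omega)
  have k2 := hρ (8 + 3 * r) (by omega)
  have hp' : p ∈ [(X j, B r), (B r, X j), (E r, X (j + 1))] := hp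
  simp only [List.mem_cons, List.not_mem_nil, or_false] at hp'
  rcases hp' with h | h | h <;> subst h
  · exact CT.mk (rep_X (by omega)) (rep_B hr (by omega)) (by norm_num) (by norm_num) (by omega)
  · exact CT.mk (rep_B hr (by omega)) (rep_X (by omega)) (by norm_num) (by norm_num) (by omega)
  · exact CT.mk (rep_E hr (by omega)) (rep_X (by omega)) (by norm_num) (by norm_num) (by omega)

theorem nwP_ok (hr : r < 4) (hn : 18 ≤ n)
    (hev : ρ (7 + 3 * r) ≤ F (sd r) (ρ (6 + 3 * r))) :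
    NW F G ρ n (nwP r) (sd r) (ρ (6 + 3 * r)) := by
  intro ρ' n' j hρ hn' hj h0 h1 h2 p hp
  have k1 := hρ (7 + 3 * r) (by omega)
  have k2 := hρ (6 + 3 * r) (by omega)
  have hp' : p ∈ [(X j, P r), (P r, X j), (E r, X (j + 1))] := hp
  simp only [List.mem_cons, List.not_mem_nil, or_false] at hp'
  rcases hp' with h | h | h <;> subst h
  · exact CT.mk (rep_X (by omega)) (rep_P hr (by omega)) (by norm_num) (by norm_num) (by omega)
  · exact CT.mk (rep_P hr (by omega)) (rep_X (by omega)) (by norm_num) (by norm_num) (by omega)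
  · exact CT.mk (rep_E hr (by omega)) (rep_X (by omega)) (by norm_num) (by norm_num) (by omega)

theorem nwL_ok (hr : r < 4) (hn : 18 ≤ n)
    (h : ρ 1 + Qv ρ r + 2 * ρ (8 + 3 * r) ≤
      ρ (6 + 3 * r) + ρ (7 + 3 * r) + F (sd r) (ρ (8 + 3 * r))) :
    NW F G ρ n (nwL r) (sd r) (ρ (8 + 3 * r)) := by
  intro ρ' n' j hρ hn' hj h0 h1 h2 p hp
  have k1 := hρ (7 + 3 * r) (by omega)
  have k2 := hρ (8 + 3 * r) (by omega)
  have k3 := hρ (6 + 3 * r) (by omega)
  have k4 := hρ 1 (by omega)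
  have k5 := Qv_congr hn hρ r
  have hp' : p ∈ [(X j, B r), (B r, X j),
    (Nat.add (Nat.add (X (nat_lit 1)) (Qf r)) (Nat.mul (nat_lit 2) (B r)),
    Nat.add (Nat.add (P r) (E r)) (X (j + 1)))] := hp
  simp only [List.mem_cons, List.not_mem_nil, or_false] at hp'
  have h18 : 18 ≤ n' := by omega
  rcases hp' with h | h | h <;> subst h
  · exact CT.mk (rep_X (by omega)) (rep_B hr (by omega)) (by norm_num) (by norm_num) (by omega)
  · exact CT.mk (rep_B hr (by omega)) (rep_X (by omega)) (by norm_num) (by norm_num) (by omega)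
  · exact CT.mk (((rep_m h18).add (rep_Q r h18)).add ((rep_B hr h18).mul 2))
      (((rep_P hr h18).add (rep_E hr h18)).add (rep_X (by omega))) (by norm_num) (by norm_num)
      (by omega)

theorem nwZ_ok (hr : r < 4) (hn : 18 ≤ n) (h00 : ρ 0 = 1) {z : ℕ}
    (g1 : z < ρ (8 + 3 * r))
    (g2 : ρ 1 + hh ρ (osd r) + z ≤ ρ (6 + 3 * r) + ρ (7 + 3 * r) + F (sd r) z + Qv ρ r)
    (g3 : ρ 1 + Qv ρ r + 1 + 2 * z ≤ ρ (6 + 3 * r) + ρ (7 + 3 * r))
    (g4 : hh ρ (sd r) + z ≤ 2 * ρ (6 + 3 * r) + F (sd r) z) :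
    NW F G ρ n (nwZ r) (sd r) z := by
  intro ρ' n' j hρ hn' hj h0 h1 h2 p hp
  have k0 : ρ' 0 = 1 := by rw [hρ 0 (by omega), h00]
  have k1 := hρ (7 + 3 * r) (by omega)
  have k2 := hρ (8 + 3 * r) (by omega)
  have k3 := hρ (6 + 3 * r) (by omega)
  have k4 := hρ 1 (by omega)
  have k5 := Qv_congr hn hρ r
  have k6 := hh_congr hn hρ (sd r)
  have k7 := hh_congr hn hρ (osd r)
  have h18 : 18 ≤ n' := by omega
  have rj : Rep ρ' n' 1 (X j) (ρ' j) := rep_X (by omega)
  have rj1 : Rep ρ' n' 1 (X (j + 1)) (ρ' (j + 1)) := rep_X (by omega)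
  have r1 : Rep ρ' n' 1 (nat_lit 1) 1 := rep_one k0 (by omega)
  have rh : Rep ρ' n' 1 (hS r) (hh ρ' (sd r)) := rep_hv _ h18
  have rh' : Rep ρ' n' 1 (hO r) (hh ρ' (osd r)) := rep_hv _ h18
  have hp' : p ∈ [(Nat.add (X j) (nat_lit 1), B r),
    (Nat.add (Nat.add (X (nat_lit 1)) (hO r)) (X j),
      Nat.add (Nat.add (Nat.add (P r) (E r)) (X (j + 1))) (Qf r)),
    (Nat.add (Nat.add (Nat.add (X (nat_lit 1)) (Qf r)) (nat_lit 1)) (Nat.mul (nat_lit 2) (X j)),
      Nat.add (P r) (E r)),
    (Nat.add (hS r) (X j), Nat.add (Nat.mul (nat_lit 2) (P r)) (X (j + 1)))] := hp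
  simp only [List.mem_cons, List.not_mem_nil, or_false] at hp'
  rcases hp' with h | h | h | h <;> subst h
  · exact CT.mk (rj.add r1) (rep_B hr h18) (by norm_num) (by norm_num) (by omega)
  · exact CT.mk (((rep_m h18).add rh').add rj)
      ((((rep_P hr h18).add (rep_E hr h18)).add rj1).add (rep_Q r h18)) (by norm_num)
      (by norm_num) (by omega)
  · exact CT.mk ((((rep_m h18).add (rep_Q r h18)).add r1).add (rj.mul 2))
      ((rep_P hr h18).add (rep_E hr h18)) (by norm_num) (by norm_num) (by omega)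
  · exact CT.mk (rh.add rj) (((rep_P hr h18).mul 2).add rj1) (by norm_num) (by norm_num)
      (by omega)

theorem nwZX_ok (hr : r < 4) (hn : 18 ≤ n) (h00 : ρ 0 = 1) {z : ℕ}
    (g1 : z < Qv ρ r)
    (g2 : ρ 1 + hh ρ (osd r) ≤ Qv ρ r + ρ (6 + 3 * r) + ρ (7 + 3 * r) + 1 + z + F (osd r) z)
    (g3 : ρ 1 + Qv ρ r ≤ 2 * z + 1 + ρ (6 + 3 * r) + ρ (7 + 3 * r))
    (g4 : hh ρ (sd r) ≤ 2 * ρ (6 + 3 * r) + 1 + z + F (osd r) z) :
    NW F G ρ n (nwZX r) (osd r) z := by
  intro ρ' n' j hρ hn' hj h0 h1 h2 p hp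
  have k0 : ρ' 0 = 1 := by rw [hρ 0 (by omega), h00]
  have k1 := hρ (7 + 3 * r) (by omega)
  have k3 := hρ (6 + 3 * r) (by omega)
  have k4 := hρ 1 (by omega)
  have k5 := Qv_congr hn hρ r
  have k6 := hh_congr hn hρ (sd r)
  have k7 := hh_congr hn hρ (osd r)
  have h18 : 18 ≤ n' := by omega
  have rj : Rep ρ' n' 1 (X j) (ρ' j) := rep_X (by omega)
  have rj1 : Rep ρ' n' 1 (X (j + 1)) (ρ' (j + 1)) := rep_X (by omega)
  have r1 : Rep ρ' n' 1 (nat_lit 1) 1 := rep_one k0 (by omega)
  have rh : Rep ρ' n' 1 (hS r) (hh ρ' (sd r)) := rep_hv _ h18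
  have rh' : Rep ρ' n' 1 (hO r) (hh ρ' (osd r)) := rep_hv _ h18
  have rP := rep_P (ρ := ρ') (n := n') hr h18
  have rE := rep_E (ρ := ρ') (n := n') hr h18
  have rQ := rep_Q (ρ := ρ') (n := n') r h18
  have hp' : p ∈ [(Nat.add (X j) (nat_lit 1), Qf r),
    (Nat.add (X (nat_lit 1)) (hO r),
      Nat.add (Nat.add (Nat.add (Nat.add (Nat.add (Qf r) (P r)) (E r)) (nat_lit 1)) (X j))
        (X (j + 1))),
    (Nat.add (X (nat_lit 1)) (Qf r),
      Nat.add (Nat.add (Nat.add (Nat.mul (nat_lit 2) (X j)) (nat_lit 1)) (P r)) (E r)),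
    (hS r, Nat.add (Nat.add (Nat.add (Nat.mul (nat_lit 2) (P r)) (nat_lit 1)) (X j))
      (X (j + 1)))] := hp
  simp only [List.mem_cons, List.not_mem_nil, or_false] at hp'
  rcases hp' with h | h | h | h <;> subst h
  · exact CT.mk (rj.add r1) rQ (by norm_num) (by norm_num) (by omega)
  · exact CT.mk ((rep_m h18).add rh') (((((rQ.add rP).add rE).add r1).add rj).add rj1)
      (by norm_num) (by norm_num) (by omega)
  · exact CT.mk ((rep_m h18).add rQ) ((((rj.mul 2).add r1).add rP).add rE) (by norm_num)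
      (by norm_num) (by omega)
  · exact CT.mk rh ((((rP.mul 2).add r1).add rj).add rj1) (by norm_num) (by norm_num)
      (by omega)

theorem rep_alO (hn : 18 ≤ n) (h00 : ρ 0 = 1) {i : ℕ} (hi : i + 2 < n) :
    Rep ρ n 5 (alO r i) (ρ 1 + Qv ρ r + 1 + ρ i + ρ (i + 1)) :=
  ((((rep_m hn).add (rep_Q r hn)).add (rep_one h00 (by omega))).add (rep_X (by omega))).add
    (rep_X (i := i + 1) (by omega))

theorem rep_alX (hn : 18 ≤ n) {i : ℕ} (hi : i + 2 < n) :
    Rep ρ n 3 (alX r i) (ρ 1 + Qv ρ r + ρ (i + 1)) :=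
  ((rep_m hn).add (rep_Q r hn)).add (rep_X (i := i + 1) (by omega))

theorem nwA_ok (hr : r < 4) (hn : 18 ≤ n) (h00 : ρ 0 = 1) {i z : ℕ} (hi : i + 2 < n)
    (g1 : ρ i < z) (g2 : z < ρ (6 + 3 * r))
    (g3 : ρ 1 + Qv ρ r + 1 + ρ i + ρ (i + 1) + z ≤
      ρ (6 + 3 * r) + ρ (7 + 3 * r) + F (sd r) z) :
    NW F G ρ n (nwA r i) (sd r) z := by
  intro ρ' n' j hρ hn' hj h0 h1 h2 p hp
  have k0 : ρ' 0 = 1 := by rw [hρ 0 (by omega), h00]
  have k1 := hρ (7 + 3 * r) (by omega)
  have k3 := hρ (6 + 3 * r) (by omega)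
  have k4 := hρ 1 (by omega)
  have k5 := Qv_congr hn hρ r
  have k6 := hρ i (by omega)
  have k7 := hρ (i + 1) (by omega)
  have h18 : 18 ≤ n' := by omega
  have rj : Rep ρ' n' 1 (X j) (ρ' j) := rep_X (by omega)
  have rj1 : Rep ρ' n' 1 (X (j + 1)) (ρ' (j + 1)) := rep_X (by omega)
  have ri : Rep ρ' n' 1 (X i) (ρ' i) := rep_X (by omega)
  have r1 : Rep ρ' n' 1 (nat_lit 1) 1 := rep_one k0 (by omega)
  have rP := rep_P (ρ := ρ') (n := n') hr h18
  have rE := rep_E (ρ := ρ') (n := n') hr h18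
  have ra := rep_alO (ρ := ρ') (n := n') (r := r) h18 k0 (i := i) (by omega)
  have hp' : p ∈ [(Nat.add (X i) (nat_lit 1), X j), (Nat.add (X j) (nat_lit 1), P r),
    (Nat.add (alO r i) (X j), Nat.add (Nat.add (P r) (E r)) (X (j + 1)))] := hp
  simp only [List.mem_cons, List.not_mem_nil, or_false] at hp'
  rcases hp' with h | h | h <;> subst h
  · exact CT.mk (ri.add r1) rj (by norm_num) (by norm_num) (by omega)
  · exact CT.mk (rj.add r1) rP (by norm_num) (by norm_num) (by omega)
  · exact CT.mk (ra.add rj) ((rP.add rE).add rj1) (by norm_num) (by norm_num) (by omega)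

theorem nwC_ok (hr : r < 4) (hn : 18 ≤ n) (h00 : ρ 0 = 1) {i : ℕ} (hi : i + 2 < n)
    (hev : ρ (7 + 3 * r) ≤ F (sd r) (ρ (6 + 3 * r)))
    (g3 : ρ 1 + Qv ρ r + 1 + ρ i + ρ (i + 1) + 1 ≤ G (sd r) (ρ (6 + 3 * r))) :
    NW F G ρ n (nwC r i) (sd r) (ρ (6 + 3 * r)) := by
  intro ρ' n' j hρ hn' hj h0 h1 h2 p hp
  have k0 : ρ' 0 = 1 := by rw [hρ 0 (by omega), h00]
  have k1 := hρ (7 + 3 * r) (by omega)
  have k3 := hρ (6 + 3 * r) (by omega)
  have k4 := hρ 1 (by omega)
  have k5 := Qv_congr hn hρ r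
  have k6 := hρ i (by omega)
  have k7 := hρ (i + 1) (by omega)
  have h18 : 18 ≤ n' := by omega
  have rj : Rep ρ' n' 1 (X j) (ρ' j) := rep_X (by omega)
  have rj1 : Rep ρ' n' 1 (X (j + 1)) (ρ' (j + 1)) := rep_X (by omega)
  have rj2 : Rep ρ' n' 1 (X (j + 2)) (ρ' (j + 2)) := rep_X (by omega)
  have r1 : Rep ρ' n' 1 (nat_lit 1) 1 := rep_one k0 (by omega)
  have rP := rep_P (ρ := ρ') (n := n') hr h18
  have rE := rep_E (ρ := ρ') (n := n') hr h18
  have ra := rep_alO (ρ := ρ') (n := n') (r := r) h18 k0 (i := i) (by omega)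
  have hp' : p ∈ [(X j, P r), (P r, X j), (E r, X (j + 1)),
    (Nat.add (alO r i) (nat_lit 1), X (j + 2))] := hp
  simp only [List.mem_cons, List.not_mem_nil, or_false] at hp'
  rcases hp' with h | h | h | h <;> subst h
  · exact CT.mk rj rP (by norm_num) (by norm_num) (by omega)
  · exact CT.mk rP rj (by norm_num) (by norm_num) (by omega)
  · exact CT.mk rE rj1 (by norm_num) (by norm_num) (by omega)
  · exact CT.mk (ra.add r1) rj2 (by norm_num) (by norm_num) (by omega)

theorem nwAX_ok (hr : r < 4) (hn : 18 ≤ n) (h00 : ρ 0 = 1) {i z : ℕ} (hi : i + 2 < n)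
    (g2 : z < ρ (6 + 3 * r))
    (g3 : ρ 1 + Qv ρ r + ρ (i + 1) + z ≤ ρ (6 + 3 * r) + ρ (7 + 3 * r) + F (sd r) z + ρ i) :
    NW F G ρ n (nwAX r i) (sd r) z := by
  intro ρ' n' j hρ hn' hj h0 h1 h2 p hp
  have k0 : ρ' 0 = 1 := by rw [hρ 0 (by omega), h00]
  have k1 := hρ (7 + 3 * r) (by omega)
  have k3 := hρ (6 + 3 * r) (by omega)
  have k4 := hρ 1 (by omega)
  have k5 := Qv_congr hn hρ r
  have k6 := hρ i (by omega)
  have k7 := hρ (i + 1) (by omega)
  have h18 : 18 ≤ n' := by omega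
  have rj : Rep ρ' n' 1 (X j) (ρ' j) := rep_X (by omega)
  have rj1 : Rep ρ' n' 1 (X (j + 1)) (ρ' (j + 1)) := rep_X (by omega)
  have ri : Rep ρ' n' 1 (X i) (ρ' i) := rep_X (by omega)
  have r1 : Rep ρ' n' 1 (nat_lit 1) 1 := rep_one k0 (by omega)
  have rP := rep_P (ρ := ρ') (n := n') hr h18
  have rE := rep_E (ρ := ρ') (n := n') hr h18
  have ra := rep_alX (ρ := ρ') (n := n') (r := r) h18 (i := i) (by omega)
  have hp' : p ∈ [(Nat.add (X j) (nat_lit 1), P r),
    (Nat.add (alX r i) (X j), Nat.add (Nat.add (Nat.add (P r) (E r)) (X (j + 1))) (X i))] := hp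
  simp only [List.mem_cons, List.not_mem_nil, or_false] at hp'
  rcases hp' with h | h <;> subst h
  · exact CT.mk (rj.add r1) rP (by norm_num) (by norm_num) (by omega)
  · exact CT.mk (ra.add rj) (((rP.add rE).add rj1).add ri) (by norm_num) (by norm_num)
      (by omega)

theorem nwXX_ok (hr : r < 4) (hn : 18 ≤ n) (h00 : ρ 0 = 1) {i z : ℕ} (hi : i + 2 < n)
    (g2 : z < ρ i)
    (g3 : ρ 1 + Qv ρ r + ρ (i + 1) ≤
      ρ i + ρ (6 + 3 * r) + ρ (7 + 3 * r) + 1 + z + F (osd r) z) :
    NW F G ρ n (nwXX r i) (osd r) z := by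
  intro ρ' n' j hρ hn' hj h0 h1 h2 p hp
  have k0 : ρ' 0 = 1 := by rw [hρ 0 (by omega), h00]
  have k1 := hρ (7 + 3 * r) (by omega)
  have k3 := hρ (6 + 3 * r) (by omega)
  have k4 := hρ 1 (by omega)
  have k5 := Qv_congr hn hρ r
  have k6 := hρ i (by omega)
  have k7 := hρ (i + 1) (by omega)
  have h18 : 18 ≤ n' := by omega
  have rj : Rep ρ' n' 1 (X j) (ρ' j) := rep_X (by omega)
  have rj1 : Rep ρ' n' 1 (X (j + 1)) (ρ' (j + 1)) := rep_X (by omega)
  have ri : Rep ρ' n' 1 (X i) (ρ' i) := rep_X (by omega)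
  have r1 : Rep ρ' n' 1 (nat_lit 1) 1 := rep_one k0 (by omega)
  have rP := rep_P (ρ := ρ') (n := n') hr h18
  have rE := rep_E (ρ := ρ') (n := n') hr h18
  have ra := rep_alX (ρ := ρ') (n := n') (r := r) h18 (i := i) (by omega)
  have hp' : p ∈ [(Nat.add (X j) (nat_lit 1), X i),
    (alX r i, Nat.add (Nat.add (Nat.add (Nat.add (Nat.add (X i) (P r)) (E r)) (nat_lit 1)) (X j))
      (X (j + 1)))] := hp
  simp only [List.mem_cons, List.not_mem_nil, or_false] at hp'
  rcases hp' with h | h <;> subst h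
  · exact CT.mk (rj.add r1) ri (by norm_num) (by norm_num) (by omega)
  · exact CT.mk ra (((((ri.add rP).add rE).add r1).add rj).add rj1) (by norm_num)
      (by norm_num) (by omega)

theorem nwCX_ok (hr : r < 4) (hn : 18 ≤ n) (h00 : ρ 0 = 1) {i : ℕ} (hi : i + 2 < n)
    (hev : ρ (7 + 3 * r) ≤ F (sd r) (ρ (6 + 3 * r)))
    (g3 : ρ 1 + Qv ρ r + ρ (i + 1) + 1 ≤ ρ i + G (sd r) (ρ (6 + 3 * r))) :
    NW F G ρ n (nwCX r i) (sd r) (ρ (6 + 3 * r)) := by
  intro ρ' n' j hρ hn' hj h0 h1 h2 p hp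
  have k0 : ρ' 0 = 1 := by rw [hρ 0 (by omega), h00]
  have k1 := hρ (7 + 3 * r) (by omega)
  have k3 := hρ (6 + 3 * r) (by omega)
  have k4 := hρ 1 (by omega)
  have k5 := Qv_congr hn hρ r
  have k6 := hρ i (by omega)
  have k7 := hρ (i + 1) (by omega)
  have h18 : 18 ≤ n' := by omega
  have rj : Rep ρ' n' 1 (X j) (ρ' j) := rep_X (by omega)
  have rj1 : Rep ρ' n' 1 (X (j + 1)) (ρ' (j + 1)) := rep_X (by omega)
  have rj2 : Rep ρ' n' 1 (X (j + 2)) (ρ' (j + 2)) := rep_X (by omega)
  have ri : Rep ρ' n' 1 (X i) (ρ' i) := rep_X (by omega)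
  have r1 : Rep ρ' n' 1 (nat_lit 1) 1 := rep_one k0 (by omega)
  have rP := rep_P (ρ := ρ') (n := n') hr h18
  have rE := rep_E (ρ := ρ') (n := n') hr h18
  have ra := rep_alX (ρ := ρ') (n := n') (r := r) h18 (i := i) (by omega)
  have hp' : p ∈ [(X j, P r), (P r, X j), (E r, X (j + 1)),
    (Nat.add (alX r i) (nat_lit 1), Nat.add (X i) (X (j + 2)))] := hp
  simp only [List.mem_cons, List.not_mem_nil, or_false] at hp'
  rcases hp' with h | h | h | h <;> subst h
  · exact CT.mk rj rP (by norm_num) (by norm_num) (by omega)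
  · exact CT.mk rP rj (by norm_num) (by norm_num) (by omega)
  · exact CT.mk rE rj1 (by norm_num) (by norm_num) (by omega)
  · exact CT.mk (ra.add r1) (ri.add rj2) (by norm_num) (by norm_num) (by omega)

end NWs

section Eqs
variable (rs : List ℕ) (st : St) (pd : Pd)

theorem chk_leaf (lam : ℕ) : chk rs (.leaf lam) st pd =
    ba (Nat.blt lam lamB) (ba (Nat.ble st.nv 64)
      (acc ((st.mass, Nat.mul 10 (X 1)) :: st.cs) lam 0 0)) := rfl

theorem chk_alt_none (a b : Cert) : chk rs (.alt a b) st .none = false := rfl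
theorem chk_alt_nil (a b : Cert) (nw u s) : chk rs (.alt a b) st (.some [] nw u s) = false := rfl
theorem chk_alt_cons (a b : Cert) (j pl nw u s) :
    chk rs (.alt a b) st (.some (j :: pl) nw u s) =
      ba (chk rs a (resolve st nw u j) .none) (go (chk rs b) st pl nw u s) := rfl

theorem chk_fin (r : ℕ) (a b : Cert) : chk rs (.fin r a b) st .none = ba (mem r rs)
      (ba (go (chk rs a) (addC (addC st (P r) (B r))
          (Nat.add (Nat.add (Nat.add (X 1) (Qf r)) (B r)) (P r))
          (Nat.add (E r) (hS r))) (onSide (sd r) st.mks) (nwE r) 0 (sd r))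
        (go (chk rs b) (addC st (Nat.add (B r) 1) (P r)) (onSide (sd r) st.mks) (nwL r)
          0 (sd r))) := rfl
theorem chk_fin_some (r : ℕ) (a b : Cert) (pl nw u s) :
    chk rs (.fin r a b) st (.some pl nw u s) = false := rfl

theorem chk_z1 (r : ℕ) (a b : Cert) : chk rs (.z1 r a b) st .none = ba (mem r rs)
      (ba (go (chk rs a) st (onSide (sd r) st.mks) (nwZ r) (r + 1) (sd r))
        (go (chk rs b) (addC st 1 (Qf r)) (onSide (osd r) st.mks) (nwZX r) (r + 1) (osd r))) :=
  rfl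
theorem chk_z1_some (r : ℕ) (a b : Cert) (pl nw u s) :
    chk rs (.z1 r a b) st (.some pl nw u s) = false := rfl

theorem chk_thr (r t : ℕ) (c0 cA cB cC : Cert) : chk rs (.thr r t c0 cA cB cC) st .none =
    ba (mem r rs) (ba (mem (2 * t + sd r) st.mks)
      (ba (chk rs c0 (addC st (B r) (X t)) .none)
      (ba (go (chk rs cA) st (onSide (sd r) st.mks) (nwA r t) 0 (sd r))
      (ba (chk rs cB (addC st (Nat.add (alO r t) (P r)) (Nat.add (E r) (hS r))) .none)
        (go (chk rs cC) st (onSide (sd r) st.mks) (nwC r t) 0 (sd r)))))) := rfl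
theorem chk_thr_some (r t : ℕ) (c0 cA cB cC : Cert) (pl nw u s) :
    chk rs (.thr r t c0 cA cB cC) st (.some pl nw u s) = false := rfl

theorem chk_tho (r t : ℕ) (c0 cA cX cB cC : Cert) :
    chk rs (.tho r t c0 cA cX cB cC) st .none =
    ba (mem r rs) (ba (mem (2 * t + osd r) st.mks)
      (ba (chk rs c0 (addC st (Qf r) (X t)) .none)
      (ba (go (chk rs cA) st (onSide (sd r) st.mks) (nwAX r t) 0 (sd r))
      (ba (go (chk rs cX) st (onSide (osd r) st.mks) (nwXX r t) 0 (osd r))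
      (ba (chk rs cB (addC st (Nat.add (alX r t) (P r)) (Nat.add (Nat.add (X t) (E r)) (hS r)))
        .none)
        (go (chk rs cC) st (onSide (sd r) st.mks) (nwCX r t) 0 (sd r))))))) := rfl
theorem chk_tho_some (r t : ℕ) (c0 cA cX cB cC : Cert) (pl nw u s) :
    chk rs (.tho r t c0 cA cX cB cC) st (.some pl nw u s) = false := rfl

theorem chk_arg (r e a : ℕ) (c0 c1 : Cert) : chk rs (.arg r e a c0 c1) st .none =
    ba (mem r rs) (ba (mem e st.mks) (ba (mem (4 * a + r) st.am)
      (ba (chk rs c0 (addC st (gd r e) (zc e)) .none)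
        (chk rs c1 (addC st (Nat.add (bP r e) (bN r a)) (Nat.add (bP r a) (bN r e))) .none)))) :=
  rfl
theorem chk_arg_some (r e a : ℕ) (c0 c1 : Cert) (pl nw u s) :
    chk rs (.arg r e a c0 c1) st (.some pl nw u s) = false := rfl

theorem chk_pvm (r : ℕ) (a : Cert) : chk rs (.pvm r a) st .none = ba (mem r rs)
      (go (chk rs a) st (onSide (sd r) st.mks) (nwP r) 0 (sd r)) := rfl
theorem chk_pvm_some (r : ℕ) (a : Cert) (pl nw u s) :
    chk rs (.pvm r a) st (.some pl nw u s) = false := rfl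
end Eqs

theorem blt_true {a b : ℕ} (h : Nat.blt a b = true) : a < b :=
  Nat.le_of_ble_eq_true (n := a + 1) (m := b) h

theorem leaf_sound {F G : ℕ → ℕ → ℕ} {rs : List ℕ} {base : ℕ} {ρ : ℕ → ℕ} {st : St}
    (hV : Valid F G rs base ρ st) {lam : ℕ} {pd : Pd} (h : chk rs (.leaf lam) st pd = true) :
    False := by
  rw [chk_leaf, ba_true, ba_true] at h
  obtain ⟨h1, h2, h3⟩ := h
  have h1' : lam < 65536 ^ 128 := blt_true h1
  have h2' : st.nv ≤ 64 := Nat.le_of_ble_eq_true h2
  have h18 := hV.n18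
  have hm := hV.hmass (st.mks.map (fun c => (c % 2, ρ (c / 2)))) ?_ ?_
  · have hv : Rep ρ 64 64 (Nat.mul 10 (X 1)) (10 * ρ 1) :=
      ((rep_m (ρ := ρ) (n := 64) (by norm_num)).mul 10).mono le_rfl (by norm_num)
        (fun _ _ => rfl)
    refine acc_sound hV.r0 64 _ 128 lam 0 0 0 0 0 h1' ?_ rep_zero rep_zero le_rfl
      (by unfold BB; norm_num) h3
    intro p hp
    rcases List.mem_cons.1 hp with h | h
    · subst h
      refine ⟨_, _, hV.mass.mono h2' (by omega) (fun _ _ => rfl), hv, ?_⟩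
      rw [List.map_map] at hm
      exact hm
    · obtain ⟨l, r, g1, g2, g3⟩ := hV.cs p h
      exact ⟨l, r, g1.mono h2' (by norm_num) (fun _ _ => rfl),
        g2.mono h2' (by norm_num) (fun _ _ => rfl), g3⟩
  · rw [List.Nodup, List.pairwise_map]
    refine hV.pw.imp ?_
    intro a b hab he
    rw [Prod.mk.injEq] at he
    exact hab he.1 he.2
  · intro p hp
    obtain ⟨c, hc, rfl⟩ := List.mem_map.1 hp
    exact ⟨Nat.mod_lt _ (by norm_num), (hV.mks c hc).2.1⟩

theorem mark_of_mem {F G : ℕ → ℕ → ℕ} {rs : List ℕ} {base : ℕ} {ρ : ℕ → ℕ} {st : St}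
    (hV : Valid F G rs base ρ st) {t s : ℕ} (hs : s < 2) (h : mem (2 * t + s) st.mks = true) :
    t + 2 < st.nv ∧ ρ t ≤ hh ρ s ∧ ρ (t + 1) = F s (ρ t) ∧ ρ (t + 2) = G s (ρ t) := by
  have := hV.mks _ (mem_sound _ _ h)
  unfold MK at this
  rw [show (2 * t + s) / 2 = t by omega, show (2 * t + s) % 2 = s by omega] at this
  exact this

theorem own_true {r e : ℕ} (h : e % 2 = sd r) : own r e = true := by
  show Nat.beq (e % 2) (sd r) = true
  rw [h]; exact Nat.beq_refl _
theorem own_false {r e : ℕ} (h : e % 2 ≠ sd r) : own r e = false := by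
  show Nat.beq (e % 2) (sd r) = false
  cases hb : Nat.beq (e % 2) (sd r)
  · rfl
  · exact absurd (Nat.eq_of_beq_eq_true hb) h

theorem chk_sound {F G : ℕ → ℕ → ℕ} {rs : List ℕ} {base : ℕ} (hrs : ∀ r ∈ rs, r < 4)
    (c : Cert) : ∀ (st : St) (pd : Pd) (ρ : ℕ → ℕ), Valid F G rs base ρ st →
    PdOK F G ρ st pd → chk rs c st pd = true → False := by
  induction c with
  | leaf lam =>
    intro st pd ρ hV _ h
    exact leaf_sound hV h
  | alt a b iha ihb =>
    intro st pd ρ hV hP h
    cases pd with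
    | none => rw [chk_alt_none] at h; exact absurd h (by simp)
    | some pl nw u s =>
      cases pl with
      | nil => rw [chk_alt_nil] at h; exact absurd h (by simp)
      | cons j pl =>
        rw [chk_alt_cons, ba_true] at h
        obtain ⟨hs, hpl, z, hz, hN, hA, hd⟩ := hP
        have hj := hpl j (List.mem_cons_self ..)
        by_cases hjz : ρ (j / 2) = z
        · exact iha _ .none ρ (resolve_valid hV hN hA hj.1 hj.2 hjz) trivial h.1
        · refine go_sound hrs hV ihb (pl := pl) ⟨hs, fun c hc => hpl c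
            (List.mem_cons_of_mem _ hc), z, hz, hN, hA, ?_⟩ h.2
          intro c hc he
          rcases hd c hc he with h' | h'
          · rcases List.mem_cons.1 h' with h'' | h''
            · right; rw [h'']; exact hjz
            · exact Or.inl h''
          · exact Or.inr h'
  | fin r a b iha ihb =>
    intro st pd ρ hV hP h
    cases pd with
    | some pl nw u s => rw [chk_fin_some] at h; exact absurd h (by simp)
    | none =>
      rw [chk_fin, ba_true, ba_true] at h
      obtain ⟨h0, h1, h2⟩ := h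
      have hr' := mem_sound _ _ h0
      have hr := hrs r hr'
      have hF := hV.facts r hr'
      have h18 := hV.n18
      rcases hF.fin with ⟨g1, g2⟩ | ⟨g1, g2⟩
      · have hc1 : CT ρ st.nv (P r, B r) :=
          CT.mk (rep_P hr h18) (rep_B hr h18) (by norm_num) (by norm_num) (by omega)
        have hc2 : CT ρ st.nv (Nat.add (Nat.add (Nat.add (X 1) (Qf r)) (B r)) (P r),
            Nat.add (E r) (hS r)) :=
          CT.mk ((((rep_m h18).add (rep_Q r h18)).add (rep_B hr h18)).add (rep_P hr h18))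
            ((rep_E hr h18).add (rep_hv (sd r) h18)) (by norm_num) (by norm_num) g2
        have hV' := addC_valid (addC_valid hV hc1) hc2
        refine go_sound hrs hV' iha (po_start (z := ρ (8 + 3 * r)) (st := st) (sd_lt r) ?_ ?_
          (Or.inl rfl) rfl) h1
        · have := hF.b_le; have := hF.pe; omega
        · refine nwE_ok hr h18 ?_
          have := hF.ev_le
          rw [g1]; exact this
      · have hc1 : CT ρ st.nv (Nat.add (B r) 1, P r) :=
          CT.mk ((rep_B hr h18).add (rep_one hV.r0 (by omega))) (rep_P hr h18)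
            (by norm_num) (by norm_num) (by omega)
        have hV' := addC_valid hV hc1
        refine go_sound hrs hV' ihb (po_start (z := ρ (8 + 3 * r)) (st := st) (sd_lt r) ?_ ?_
          (Or.inl rfl) rfl) h2
        · have := hF.b_le; have := hF.pe; omega
        · exact nwL_ok hr h18 g2
  | z1 r a b iha ihb =>
    intro st pd ρ hV hP h
    cases pd with
    | some pl nw u s => rw [chk_z1_some] at h; exact absurd h (by simp)
    | none =>
      rw [chk_z1, ba_true, ba_true] at h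
      obtain ⟨h0, h1, h2⟩ := h
      have hr' := mem_sound _ _ h0
      have hr := hrs r hr'
      have hF := hV.facts r hr'
      have h18 := hV.n18
      rcases hF.z1 with ⟨z, g1, g2, g3, g4, g5, g6⟩ | ⟨z, g1, g2, g3, g4, g5, g6⟩
      · refine go_sound hrs hV iha (po_start (z := z) (st := st) (sd_lt r) ?_
          (nwZ_ok hr h18 hV.r0 g1 g2 g3 g4) (Or.inr ⟨r, hr, rfl, Or.inl ⟨rfl, g5, g6⟩⟩) rfl) h1
        have := hF.b_le; have := hF.pe; omega
      · have hc1 : CT ρ st.nv (1, Qf r) :=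
          CT.mk (rep_one hV.r0 (by omega)) (rep_Q r h18) (by norm_num) (by norm_num) (by omega)
        have hV' := addC_valid hV hc1
        refine go_sound hrs hV' ihb (po_start (z := z) (st := st) (osd_lt r) ?_
          (nwZX_ok hr h18 hV.r0 g1 g2 g3 g4) (Or.inr ⟨r, hr, rfl, Or.inr ⟨rfl, g5, g6⟩⟩) rfl) h2
        have := hV.qh r hr'
        omega
  | thr r t c0 cA cB cC ih0 ihA ihB ihC =>
    intro st pd ρ hV hP h
    cases pd with
    | some pl nw u s => rw [chk_thr_some] at h; exact absurd h (by simp)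
    | none =>
      rw [chk_thr, ba_true, ba_true, ba_true, ba_true, ba_true] at h
      obtain ⟨h0, h1, h2, h3, h4, h5⟩ := h
      have hr' := mem_sound _ _ h0
      have hr := hrs r hr'
      have hF := hV.facts r hr'
      have h18 := hV.n18
      obtain ⟨m1, m2, m3, m4⟩ := mark_of_mem hV (sd_lt r) h1
      by_cases hlt : ρ t < ρ (8 + 3 * r)
      · have hT := hF.thr (ρ t) hlt
        rw [← m3] at hT
        rcases hT with ⟨z, g1, g2, g3⟩ | g | g
        · refine go_sound hrs hV ihA (po_start (z := z) (st := st) (sd_lt r) ?_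
            (nwA_ok hr h18 hV.r0 m1 g1 g2 g3) (Or.inl rfl) rfl) h3
          have := hF.pe; omega
        · have hc1 : CT ρ st.nv (Nat.add (alO r t) (P r), Nat.add (E r) (hS r)) :=
            CT.mk ((rep_alO h18 hV.r0 m1).add (rep_P hr h18))
              ((rep_E hr h18).add (rep_hv (sd r) h18)) (by norm_num) (by norm_num) g
          exact ihB _ .none ρ (addC_valid hV hc1) trivial h4
        · refine go_sound hrs hV ihC (po_start (z := ρ (6 + 3 * r)) (st := st) (sd_lt r) ?_
            (nwC_ok hr h18 hV.r0 m1 hF.ev_le g) (Or.inl rfl) rfl) h5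
          have := hF.pe; omega
      · have hc1 : CT ρ st.nv (B r, X t) :=
          CT.mk (rep_B hr h18) (rep_X (i := t) (by omega)) (by norm_num) (by norm_num) (by omega)
        exact ih0 _ .none ρ (addC_valid hV hc1) trivial h2
  | tho r t c0 cA cX cB cC ih0 ihA ihX ihB ihC =>
    intro st pd ρ hV hP h
    cases pd with
    | some pl nw u s => rw [chk_tho_some] at h; exact absurd h (by simp)
    | none =>
      rw [chk_tho, ba_true, ba_true, ba_true, ba_true, ba_true, ba_true] at h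
      obtain ⟨h0, h1, h2, h3, h4, h5, h6⟩ := h
      have hr' := mem_sound _ _ h0
      have hr := hrs r hr'
      have hF := hV.facts r hr'
      have h18 := hV.n18
      obtain ⟨m1, m2, m3, m4⟩ := mark_of_mem hV (osd_lt r) h1
      by_cases hlt : ρ t < Qv ρ r
      · have hT := hF.tho (ρ t) hlt
        rw [← m3] at hT
        rcases hT with ⟨z, g1, g3⟩ | ⟨z, g1, g3⟩ | g | g
        · refine go_sound hrs hV ihA (po_start (z := z) (st := st) (sd_lt r) ?_
            (nwAX_ok hr h18 hV.r0 m1 g1 g3) (Or.inl rfl) rfl) h3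
          have := hF.pe; omega
        · refine go_sound hrs hV ihX (po_start (z := z) (st := st) (osd_lt r) (by omega)
            (nwXX_ok hr h18 hV.r0 m1 g1 g3) (Or.inl rfl) rfl) h4
        · have hc1 : CT ρ st.nv (Nat.add (alX r t) (P r),
              Nat.add (Nat.add (X t) (E r)) (hS r)) :=
            CT.mk ((rep_alX h18 m1).add (rep_P hr h18))
              (((rep_X (i := t) (by omega)).add (rep_E hr h18)).add (rep_hv (sd r) h18))
              (by norm_num) (by norm_num) g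
          exact ihB _ .none ρ (addC_valid hV hc1) trivial h5
        · refine go_sound hrs hV ihC (po_start (z := ρ (6 + 3 * r)) (st := st) (sd_lt r) ?_
            (nwCX_ok hr h18 hV.r0 m1 hF.ev_le g) (Or.inl rfl) rfl) h6
          have := hF.pe; omega
      · have hc1 : CT ρ st.nv (Qf r, X t) :=
          CT.mk (rep_Q r h18) (rep_X (i := t) (by omega)) (by norm_num) (by norm_num) (by omega)
        exact ih0 _ .none ρ (addC_valid hV hc1) trivial h2
  | arg r e a c0 c1 ih0 ih1 =>
    intro st pd ρ hV hP h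
    cases pd with
    | some pl nw u s => rw [chk_arg_some] at h; exact absurd h (by simp)
    | none =>
      rw [chk_arg, ba_true, ba_true, ba_true, ba_true] at h
      obtain ⟨h0, h1, h2, h3, h4⟩ := h
      have hr' := mem_sound _ _ h0
      have hr := hrs r hr'
      have hF := hV.facts r hr'
      have h18 := hV.n18
      obtain ⟨e1, e2, e3, e4⟩ := hV.mks e (mem_sound _ _ h1)
      obtain ⟨⟨a1, a2, a3, a4⟩, hA⟩ := hV.am _ (mem_sound _ _ h2)
      rw [show (4 * a + r) / 4 = a by omega] at a1 a2 a3 a4 hA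
      rw [show (4 * a + r) % 4 = r by omega] at hA
      have rze : Rep ρ st.nv 1 (zc e) (ρ (e / 2)) := rep_X (i := e / 2) (by omega)
      have rza : Rep ρ st.nv 1 (zc a) (ρ (a / 2)) := rep_X (i := a / 2) (by omega)
      have rfe : Rep ρ st.nv 1 (fc e) (ρ (e / 2 + 1)) := rep_X (i := e / 2 + 1) (by omega)
      have rfa : Rep ρ st.nv 1 (fc a) (ρ (a / 2 + 1)) := rep_X (i := a / 2 + 1) (by omega)
      have rP := rep_P (ρ := ρ) hr h18
      have rE := rep_E (ρ := ρ) hr h18
      have rQ := rep_Q (ρ := ρ) r h18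
      have r1 : Rep ρ st.nv 1 1 1 := rep_one hV.r0 (by omega)
      -- representation of the four forms
      have key : ∀ x, x % 2 < 2 → Rep ρ st.nv 1 (zc x) (ρ (x / 2)) →
          Rep ρ st.nv 1 (fc x) (ρ (x / 2 + 1)) →
          (x % 2 = sd r ∧ Rep ρ st.nv 5 (bP r x)
            (ρ (6 + 3 * r) + ρ (7 + 3 * r) + ρ (x / 2 + 1)) ∧
            Rep ρ st.nv 1 (bN r x) (ρ (x / 2)) ∧ Rep ρ st.nv 1 (gd r x) (ρ (6 + 3 * r))) ∨
          (x % 2 = osd r ∧ Rep ρ st.nv 5 (bP r x)
            (ρ (6 + 3 * r) + ρ (7 + 3 * r) + 1 + ρ (x / 2) + ρ (x / 2 + 1)) ∧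
            Rep ρ st.nv 1 (bN r x) 0 ∧ Rep ρ st.nv 1 (gd r x) (Qv ρ r)) := by
        intro x hx rz rf
        by_cases hxs : x % 2 = sd r
        · left
          have ho := own_true hxs
          refine ⟨hxs, ?_, ?_, ?_⟩
          · unfold bP; rw [ho]
            exact ((rP.add rE).add rf).mono le_rfl (by norm_num) (fun _ _ => rfl)
          · unfold bN; rw [ho]; exact rz
          · unfold gd; rw [ho]; exact rP
        · right
          have ho := own_false hxs
          refine ⟨?_, ?_, ?_, ?_⟩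
          · have := sd_lt r; rw [osd_val]; omega
          · unfold bP; rw [ho]
            exact ((((rP.add rE).add r1).add rz).add rf).mono le_rfl (by norm_num)
              (fun _ _ => rfl)
          · unfold bN; rw [ho]
            exact rep_zero.mono le_rfl (by norm_num) (fun _ _ => rfl)
          · unfold gd; rw [ho]; exact rQ
      rcases key e (Nat.mod_lt _ (by norm_num)) rze rfe with ⟨s1, b1, n1, g1⟩ | ⟨s1, b1, n1, g1⟩
      · by_cases hlt : ρ (e / 2) < ρ (6 + 3 * r)
        · rcases key a (Nat.mod_lt _ (by norm_num)) rza rfa with ⟨s2, b2, n2, g2⟩ |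
            ⟨s2, b2, n2, g2⟩
          · rcases hA with ⟨_, hA1, _⟩ | ⟨s3, _, _⟩
            · have hc1 := CT.mk (b1.add n2) (b2.add n1) (by norm_num) (by norm_num) (by
                have := hA1 _ hlt
                rw [← s1, ← e3, s1, ← s2, ← a3] at this
                omega)
              exact ih1 _ .none ρ (addC_valid hV hc1) trivial h4
            · exact absurd (s3.symm.trans s2) (osd_ne r)
          · rcases hA with ⟨s3, _, _⟩ | ⟨_, hA1, _⟩
            · exact absurd (s2.symm.trans s3) (osd_ne r)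
            · have hc1 := CT.mk (b1.add n2) (b2.add n1) (by norm_num) (by norm_num) (by
                have := hA1 _ hlt
                rw [← s1, ← e3, ← s2, ← a3] at this
                omega)
              exact ih1 _ .none ρ (addC_valid hV hc1) trivial h4
        · have hc0 := CT.mk g1 rze (by norm_num) (by norm_num) (by omega)
          exact ih0 _ .none ρ (addC_valid hV hc0) trivial h3
      · by_cases hlt : ρ (e / 2) < Qv ρ r
        · rcases key a (Nat.mod_lt _ (by norm_num)) rza rfa with ⟨s2, b2, n2, g2⟩ |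
            ⟨s2, b2, n2, g2⟩
          · rcases hA with ⟨_, _, hA1⟩ | ⟨s3, _, _⟩
            · have hc1 := CT.mk (b1.add n2) (b2.add n1) (by norm_num) (by norm_num) (by
                have := hA1 _ hlt
                rw [← s1, ← e3, ← s2, ← a3] at this
                omega)
              exact ih1 _ .none ρ (addC_valid hV hc1) trivial h4
            · exact absurd (s3.symm.trans s2) (osd_ne r)
          · rcases hA with ⟨s3, _, _⟩ | ⟨_, _, hA1⟩
            · exact absurd (s2.symm.trans s3) (osd_ne r)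
            · have hc1 := CT.mk (b1.add n2) (b2.add n1) (by norm_num) (by norm_num) (by
                have := hA1 _ hlt
                rw [← s1, ← e3, s1, ← s2, ← a3] at this
                omega)
              exact ih1 _ .none ρ (addC_valid hV hc1) trivial h4
        · have hc0 := CT.mk g1 rze (by norm_num) (by norm_num) (by omega)
          exact ih0 _ .none ρ (addC_valid hV hc0) trivial h3
  | pvm r a iha =>
    intro st pd ρ hV hP h
    cases pd with
    | some pl nw u s => rw [chk_pvm_some] at h; exact absurd h (by simp)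
    | none =>
      rw [chk_pvm, ba_true] at h
      obtain ⟨h0, h1⟩ := h
      have hr' := mem_sound _ _ h0
      have hr := hrs r hr'
      have hF := hV.facts r hr'
      have h18 := hV.n18
      refine go_sound hrs hV iha (po_start (z := ρ (6 + 3 * r)) (st := st) (sd_lt r) ?_
        (nwP_ok hr h18 hF.ev_le) (Or.inl rfl) rfl) h1
      have := hF.pe; omega

end Pool.Agent.Tron
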